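import Mathlib

set_option autoImplicit false

namespace Pool.Agent.Helper450.ET

/-- An ETOL system with terminal alphabet `α`.  Its full alphabet is `Σ = α ⊕ ν`, the disjoint
union of the terminal alphabet `α` and a finite type `ν` of further (nonterminal) symbols.  `T` is
the finite type indexing the tables; the table with index `t` is the finite substitution
`tab t : Σ → Set (List Σ)`, and every `tab t s` is a finite nonempty set of words over `Σ` (terminal
letters are rewritten as well).  `axm` is the axiom, an arbitrary word over `Σ`. -/
structure ETOL (α : Type) where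
  /-- the nonterminal symbols -/
  ν : Type
  /-- the index set of the tables -/
  T : Type
  finν : Finite ν
  finT : Finite T
  /-- the tables: finite substitutions on `Σ = α ⊕ ν` -/
  tab : T → (α ⊕ ν) → Set (List (α ⊕ ν))
  tab_fin : ∀ t s, (tab t s).Finite
  tab_ne : ∀ t s, (tab t s).Nonempty
  /-- the axiom -/
  axm : List (α ⊕ ν)

/-- One parallel rewriting step with the substitution `f`: the word `u = s₁ ⋯ sₖ` is rewritten to
`v = x₁ ⋯ xₖ` with `xᵢ ∈ f sᵢ`, all letters being rewritten simultaneously. -/
def Step {S : Type} (f : S → Set (List S)) (u v : List S) : Prop :=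
  ∃ l : List (List S), List.Forall₂ (fun s x => x ∈ f s) u l ∧ v = l.flatten

/-- `Derives tab [t₁, …, tₙ] u v`: the word `v` is obtained from `u` by applying the tables
`t₁, …, tₙ` one after the other, i.e. `v ∈ hₙ ⋯ h₁ (u)` where `hᵢ = tab tᵢ`. -/
def Derives {S T : Type} (tab : T → S → Set (List S)) : List T → List S → List S → Prop
  | [], u, v => v = u
  | t :: ts, u, v => ∃ m, Step (tab t) u m ∧ Derives tab ts m v

/-- The language of an ETOL system: all terminal words which can be derived from the axiom by some
finite sequence of tables. -/
def ETOL.lang {α : Type} (G : ETOL α) : Set (List α) :=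
  {w | ∃ ts, Derives G.tab ts G.axm (w.map Sum.inl)}

/-- `L` is an ETOL language. -/
def IsETOL {α : Type} (L : Set (List α)) : Prop := ∃ G : ETOL α, G.lang = L

/-- `L₀` (a language over the alphabet `α₀`) is a hardest ETOL language: it is an ETOL language and
for every ETOL language `L` over any finite alphabet `α` there is a homomorphism `h : α* → α₀*`
(given by the words `h a` for the letters `a`; `w.flatMap h` is the image of the word `w`) such that
`L = h⁻¹(L₀)` if the empty word is not in `L`, and `L = h⁻¹(L₀ ∪ {Λ})` if it is. -/
def IsHardest {α₀ : Type} (L₀ : Set (List α₀)) : Prop :=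
  IsETOL L₀ ∧ ∀ (α : Type) [Finite α] (L : Set (List α)), IsETOL L →
    ∃ h : α → List α₀, (([] : List α) ∉ L → L = {w | w.flatMap h ∈ L₀}) ∧
      ([] ∈ L → L = {w | w.flatMap h ∈ L₀ ∪ {[]}})

end Pool.Agent.Helper450.ET
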