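import Mathlib
import Pool.Agent.Helper450.ET.Core

set_option autoImplicit false

namespace Pool.Agent.Helper450.ET

/-! ### runs -/

structure Nd (S : Type) where
  s : S
  a : ℕ
  b : ℕ

def IsChain {S : Type} : ℕ → List (Nd S) → ℕ → Prop
  | u, [], v => u = v
  | u, nd :: l, v => nd.a = u ∧ nd.a ≤ nd.b ∧ IsChain nd.b l v

def Hh {A D : Type} (h : D → List A) (W : List D) (i : ℕ) : ℕ := ((W.take i).flatMap h).length

def xi {A D : Type} (h : D → List A) (W : List D) (a : ℕ) : ℕ :=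
  Nat.findGreatest (fun i => Hh h W i ≤ a) W.length

def pre {A D : Type} (h : D → List A) (W : List D) (a : ℕ) : List A :=
  ((W.flatMap h).take a).drop (Hh h W (xi h W a))

def seg {D : Type} (W : List D) (x y : ℕ) : List D := (W.drop x).take (y - x)

structure Run (S : Type) {A D : Type} (h : D → List A) (ρ : ℕ) (W : List D) where
  n : ℕ
  lev : ℕ → List (Nd S)
  G : ℕ → List A → S → List A → List D → Prop
  chain : ∀ τ ≤ n, IsChain 0 (lev τ) (W.flatMap h).length
  refine : ∀ τ < n, ∃ parts : List (List (Nd S)),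
    List.Forall₂ (fun nd l => IsChain nd.a l nd.b ∧ l.length ≤ ρ) (lev τ) parts ∧
      lev (τ + 1) = parts.flatten
  len0 : (lev 0).length ≤ ρ
  last : ∀ nd ∈ lev n, nd.b ≤ nd.a + 1
  g1 : ∀ τ ≤ n, ∀ nd ∈ lev τ,
    G τ (pre h W nd.a) nd.s (pre h W nd.b) (seg W (xi h W nd.a) (xi h W nd.b))
  g3 : ∀ τ < n, ∀ nd ∈ lev τ, ∀ nd' ∈ lev (τ + 1), nd.a = nd'.a → nd.b = nd'.b → nd.a < nd.b →
    ∀ p q c, G (τ + 1) p nd'.s q c → G τ p nd.s q c

def Crosses {S A D : Type} {h : D → List A} {ρ : ℕ} {W W' : List D} (L : Set (List D))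
    (r : Run S h ρ W) (r' : Run S h ρ W') : Prop :=
  ∀ τ ≤ r.n, ∀ τ' ≤ r'.n, ∀ cs : List (List D),
    List.Forall₂ (fun nd c => r'.G τ' (pre h W nd.a) nd.s (pre h W nd.b) c) (r.lev τ) cs →
    cs.flatten ∈ L

/-! ### the language -/

abbrev Del (N : ℕ) := Option (Fin N × Bool)

def kap (N j : ℕ) : ℕ := if j % 2 = 0 then 0 else min ((j - 1) / 2) (N - 1)

def RR (N : ℕ) : ℕ := 2 * N + 3

def WE (N : ℕ) (E : List (Fin N × Bool)) : List (Del N) :=
  none :: (List.range (RR N)).flatMap (fun j =>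
    (E.filter (fun g => decide ((g.1 : ℕ) ≤ kap N j))).map some ++ [none])

def LN (N : ℕ) : Set (List (Del N)) := {w | ∃ E, w = WE N E}

/-! ### the test words -/

structure Par where
  N : ℕ
  M : ℕ
  S : ℕ → ℕ
  lab : ℕ → Fin N
  hN : 2 ≤ N
  hM : 0 < M
  hS1 : S (N - 1) = 1
  hSdvd : ∀ c, S (c + 1) ∣ S c
  hSpos : ∀ c, 0 < S c
  hSM : S 0 ∣ M
  hlab : ∀ (j : ℕ) (c : Fin N), lab j ≤ c ↔ S c ∣ j

def adr (P : Par) : List (Option ℕ) :=
  none :: (List.range (RR P.N)).flatMap (fun j =>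
    (List.range (P.M / P.S (kap P.N j))).map (fun i => some (i * P.S (kap P.N j))) ++ [none])

def WB (P : Par) (β : ℕ → Bool) : List (Del P.N) :=
  (adr P).map (Option.map (fun y => (P.lab y, β y)))

def pos (P : Par) (j : ℕ) : ℕ := 1 + ∑ i ∈ Finset.range j, (P.M / P.S (kap P.N i) + 1)

def NR (P : Par) (lam : ℕ) (β : ℕ → Bool) : Prop :=
  ∀ c < P.N, ∀ i i', i < i' → i' + lam ≤ P.M / P.S c →
    ∃ t < lam, β ((i + t) * P.S c) ≠ β ((i' + t) * P.S c)

def isLong {S A D : Type} (h : D → List A) (W : List D) (lam : ℕ) (nd : Nd S) : Prop :=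
  xi h W nd.a + lam ≤ xi h W nd.b

def LP {S A D : Type} (h : D → List A) (W : List D) (lam : ℕ) (l : List (Nd S)) (w : ℕ) : Prop :=
  ∃ nd ∈ l, isLong h W lam nd ∧ xi h W nd.a ≤ w ∧ w < xi h W nd.b

/-- mismatched variables of a level -/
def MM {S A : Type} (P : Par) (h : Del P.N → List A) (β : ℕ → Bool) (lam : ℕ)
    (l : List (Nd S)) : Set ℕ :=
  {y | ∃ w w', (adr P)[w]? = some (some y) ∧ (adr P)[w']? = some (some y) ∧
    LP h (WB P β) lam l w ∧ ¬ LP h (WB P β) lam l w'}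

def Tyeq {S A D : Type} (h : D → List A) (W W' : List D) (nd nd' : Nd S) : Prop :=
  pre h W nd.a = pre h W' nd'.a ∧ nd.s = nd'.s ∧ pre h W nd.b = pre h W' nd'.b

def ext (M : ℕ) (b : Fin M → Bool) (y : ℕ) : Bool := if h : y < M then b ⟨y, h⟩ else false

open Classical in
noncomputable def longs {S A D : Type} (h : D → List A) (W : List D) (lam : ℕ)
    (l : List (Nd S)) : List (Nd S) := l.filter (fun nd => decide (isLong h W lam nd))

/-- two levels (of two runs, words `W`, `W'`) with the same long nodes and the same short words -/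
def SameCode {S A D : Type} (h : D → List A) (lam : ℕ) (W W' : List D)
    (l l' : List (Nd S)) : Prop :=
  (longs h W lam l).map (fun nd => (xi h W nd.a, xi h W nd.b, pre h W nd.a, nd.s, pre h W nd.b)) =
    (longs h W' lam l').map
      (fun nd => (xi h W' nd.a, xi h W' nd.b, pre h W' nd.a, nd.s, pre h W' nd.b)) ∧
  ∀ nd ∈ l, ¬ isLong h W lam nd → ∃ nd' ∈ l', Tyeq h W W' nd nd' ∧
    seg W (xi h W nd.a) (xi h W nd.b) = seg W' (xi h W' nd'.a) (xi h W' nd'.b)

open Classical in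
/-- long positions inside the full thread with index 2N-1 -/
noncomputable def Us {S A : Type} (P : Par) (h : Del P.N → List A) (β : ℕ → Bool) (lam : ℕ)
    (l : List (Nd S)) : Finset ℕ :=
  (Finset.range P.M).filter (fun y => LP h (WB P β) lam l (pos P (2 * P.N - 1) + y))

/-- the node touches the thread with index `j` -/
def Touch {S A D : Type} (P : Par) (h : D → List A) (W : List D) (j : ℕ) (nd : Nd S) : Prop :=
  xi h W nd.a < pos P (j + 1) - 1 ∧ pos P j < xi h W nd.b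

end Pool.Agent.Helper450.ET
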