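import Mathlib
import Pool.Agent.Helper450.ET.Defs

set_option autoImplicit false

namespace Pool.Agent.Helper450.ET

theorem aux_Hh_add {A D : Type} (h : D → List A) (W : List D) (i k : ℕ) :
    Hh h W (i + k) = Hh h W i + (((W.drop i).take k).flatMap h).length := by
  unfold Hh
  rw [List.take_add, List.flatMap_append, List.length_append]

theorem aux_Hh_zero {A D : Type} (h : D → List A) (W : List D) : Hh h W 0 = 0 := by
  simp [Hh]

theorem aux_take {A D : Type} (h : D → List A) (W : List D) (i : ℕ) :
    (W.flatMap h).take (Hh h W i) = (W.take i).flatMap h := by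
  have h1 : W.flatMap h = (W.take i).flatMap h ++ (W.drop i).flatMap h := by
    rw [← List.flatMap_append, List.take_append_drop]
  rw [h1]
  exact List.take_left' rfl

theorem aux_drop {A D : Type} (h : D → List A) (W : List D) (i : ℕ) :
    (W.flatMap h).drop (Hh h W i) = (W.drop i).flatMap h := by
  have h1 : W.flatMap h = (W.take i).flatMap h ++ (W.drop i).flatMap h := by
    rw [← List.flatMap_append, List.take_append_drop]
  rw [h1]
  exact List.drop_left' rfl

theorem aux_len_le {A D : Type} (h : D → List A) (C : ℕ) (hC : ∀ e, (h e).length ≤ C)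
    (l : List D) : (l.flatMap h).length ≤ C * l.length := by
  induction l with
  | nil => simp
  | cons a l ih =>
    rw [List.flatMap_cons, List.length_append, List.length_cons, Nat.mul_succ]
    have := hC a
    omega

theorem xi_le {A D : Type} (h : D → List A) (W : List D) (a : ℕ) : xi h W a ≤ W.length :=
  Nat.findGreatest_le _

theorem Hh_xi_le {A D : Type} (h : D → List A) (W : List D) (a : ℕ) : Hh h W (xi h W a) ≤ a := by
  have := Nat.findGreatest_spec (P := fun i => Hh h W i ≤ a) (m := 0) (n := W.length)
    (Nat.zero_le _) (by simp [aux_Hh_zero])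
  exact this

theorem lt_Hh_xi {A D : Type} (h : D → List A) (W : List D) (a : ℕ) (h1 : xi h W a < W.length) : a < Hh h W (xi h W a + 1) := by
  have := Nat.findGreatest_is_greatest (P := fun i => Hh h W i ≤ a) (n := W.length)
    (k := xi h W a + 1) (Nat.lt_succ_self _) h1
  exact not_le.mp this

theorem xi_mono {A D : Type} (h : D → List A) (W : List D) : Monotone (xi h W) := by
  intro a b hab
  exact Nat.findGreatest_mono_left (fun n hn => le_trans hn hab) _

theorem Hh_mono {A D : Type} (h : D → List A) (W : List D) : Monotone (Hh h W) := by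
  intro i j hij
  obtain ⟨k, rfl⟩ := Nat.exists_eq_add_of_le hij
  rw [aux_Hh_add]
  omega

theorem Hh_length {A D : Type} (h : D → List A) (W : List D) : Hh h W W.length = (W.flatMap h).length := by
  simp [Hh]

theorem aux_Hh_le {A D : Type} (h : D → List A) (W : List D) (i : ℕ) :
    Hh h W i ≤ (W.flatMap h).length := by
  rw [← Hh_length]
  rcases le_total i W.length with h1 | h1
  · exact Hh_mono h W h1
  · unfold Hh
    rw [List.take_of_length_le h1, List.take_of_length_le le_rfl]

theorem aux_strict {A D : Type} (h : D → List A) (W : List D) (hne : ∀ e, h e ≠ []) (i : ℕ)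
    (hi : i < W.length) : Hh h W i < Hh h W (i + 1) := by
  rw [aux_Hh_add]
  have h1 : (W.drop i).take 1 = [W[i]] := by
    rw [List.drop_eq_getElem_cons hi, List.take_succ_cons, List.take_zero]
  rw [h1]
  have h2 : 0 < (h W[i]).length := List.length_pos_iff.mpr (hne _)
  simp only [List.flatMap_cons, List.flatMap_nil, List.append_nil]
  omega

theorem xi_zero {A D : Type} (h : D → List A) (W : List D) (hne : ∀ e, h e ≠ []) : xi h W 0 = 0 := by
  by_contra hcon
  have h1 : 1 ≤ xi h W 0 := Nat.one_le_iff_ne_zero.mpr hcon
  have h2 := Hh_xi_le h W 0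
  have h3 := Hh_mono h W h1
  have h4 := aux_strict h W hne 0 (lt_of_lt_of_le h1 (xi_le h W 0))
  rw [aux_Hh_zero, Nat.zero_add] at h4
  omega

theorem xi_last {A D : Type} (h : D → List A) (W : List D) : xi h W (W.flatMap h).length = W.length := by
  refine le_antisymm (xi_le _ _ _) ?_
  exact Nat.le_findGreatest le_rfl (Hh_length h W).le

theorem pre_zero {A D : Type} (h : D → List A) (W : List D) : pre h W 0 = [] := by
  simp [pre]

theorem pre_last {A D : Type} (h : D → List A) (W : List D) : pre h W (W.flatMap h).length = [] := by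
  unfold pre
  rw [xi_last, Hh_length, List.take_length, List.drop_length]

theorem pre_len {A D : Type} (h : D → List A) (W : List D) (a : ℕ) (ha : a ≤ (W.flatMap h).length) :
    Hh h W (xi h W a) + (pre h W a).length = a := by
  have h1 := Hh_xi_le h W a
  unfold pre
  rw [List.length_drop, List.length_take, min_eq_left ha]
  omega

theorem aux_pre_split {A D : Type} (h : D → List A) (W : List D) (b : ℕ) :
    (W.flatMap h).take b = (W.take (xi h W b)).flatMap h ++ pre h W b := by
  unfold pre
  rw [← aux_take]
  have h1 := Hh_xi_le h W b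
  have h2 : ((W.flatMap h).take b).take (Hh h W (xi h W b)) =
      (W.flatMap h).take (Hh h W (xi h W b)) := by
    rw [List.take_take, min_eq_left h1]
  rw [← h2, List.take_append_drop]

theorem aux_seg {D : Type} (W : List D) (x y : ℕ) (hxy : x ≤ y) :
    W.take y = W.take x ++ seg W x y := by
  unfold seg
  obtain ⟨k, rfl⟩ := Nat.exists_eq_add_of_le hxy
  rw [Nat.add_sub_cancel_left, List.take_add]

theorem glue {A D : Type} (h : D → List A) (W : List D) (a b : ℕ) (hab : a ≤ b) (hb : b ≤ (W.flatMap h).length) :
    pre h W a ++ ((W.flatMap h).take b).drop a =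
      (seg W (xi h W a) (xi h W b)).flatMap h ++ pre h W b := by
  have h1 : (W.flatMap h).take b = (W.flatMap h).take a ++ ((W.flatMap h).take b).drop a := by
    have h2 : ((W.flatMap h).take b).take a = (W.flatMap h).take a := by
      rw [List.take_take, min_eq_left hab]
    rw [← h2, List.take_append_drop]
  have h3 := aux_pre_split h W a
  have h4 := aux_pre_split h W b
  have h5 := aux_seg W (xi h W a) (xi h W b) (xi_mono h W hab)
  rw [h5, List.flatMap_append] at h4
  rw [h3] at h1
  rw [h1, List.append_assoc, List.append_assoc] at h4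
  exact List.append_cancel_left h4

theorem xi_step {A D : Type} (h : D → List A) (W : List D) (hne : ∀ e, h e ≠ []) (a b : ℕ) (hab : b ≤ a + 1) :
    xi h W b ≤ xi h W a + 1 := by
  by_contra hcon
  have h1 : xi h W a + 2 ≤ xi h W b := by omega
  have h2 := xi_le h W b
  have h3 := lt_Hh_xi h W a (by omega)
  have h4 := aux_strict h W hne (xi h W a + 1) (by omega)
  have h5 := Hh_mono h W h1
  have h6 := Hh_xi_le h W b
  have h7 : xi h W a + 1 + 1 = xi h W a + 2 := rfl
  rw [h7] at h4
  omega

theorem Hh_lip {A D : Type} (h : D → List A) (W : List D) (C : ℕ) (hC : ∀ e, (h e).length ≤ C) (x y : ℕ) (hxy : x ≤ y) :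
    Hh h W y ≤ Hh h W x + C * (y - x) := by
  obtain ⟨k, rfl⟩ := Nat.exists_eq_add_of_le hxy
  rw [aux_Hh_add, Nat.add_sub_cancel_left]
  have h1 := aux_len_le h C hC ((W.drop x).take k)
  have h2 : ((W.drop x).take k).length ≤ k := by simp
  have h3 := Nat.mul_le_mul_left C h2
  omega

theorem pre_fin {A D : Type} [Finite D] (h : D → List A) :
    ∃ F : Set (List A), F.Finite ∧ ∀ (W : List D) (a : ℕ), pre h W a ∈ F := by
  refine ⟨{[]} ∪ ⋃ e : D, (fun o => (h e).take o) '' Set.Iic (h e).length, ?_, ?_⟩
  · exact (Set.finite_singleton _).union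
      (Set.finite_iUnion fun e => (Set.finite_Iic _).image _)
  · intro W a
    rcases lt_or_eq_of_le (xi_le h W a) with h1 | h1
    · right
      simp only [Set.mem_iUnion, Set.mem_image, Set.mem_Iic]
      have h2 := lt_Hh_xi h W a h1
      have h3 := Hh_xi_le h W a
      refine ⟨W[xi h W a], a - Hh h W (xi h W a), ?_, ?_⟩
      · rw [aux_Hh_add, List.drop_eq_getElem_cons h1] at h2
        simp only [List.take_succ_cons, List.take_zero, List.flatMap_cons, List.flatMap_nil,
          List.append_nil] at h2
        omega
      · unfold pre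
        rw [List.drop_take, aux_drop, List.drop_eq_getElem_cons h1, List.flatMap_cons]
        rw [List.take_append_of_le_length]
        rw [aux_Hh_add, List.drop_eq_getElem_cons h1] at h2
        simp only [List.take_succ_cons, List.take_zero, List.flatMap_cons, List.flatMap_nil,
          List.append_nil] at h2
        omega
    · left
      unfold pre
      rw [h1, Hh_length]
      simp

theorem seg_append {D : Type} (W : List D) (x y z : ℕ) (hxy : x ≤ y) (hyz : y ≤ z) :
    seg W x y ++ seg W y z = seg W x z := by
  unfold seg
  have h1 : z - x = (y - x) + (z - y) := by omega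
  rw [h1, List.take_add, List.drop_drop]
  have h2 : x + (y - x) = y := by omega
  rw [h2]

theorem seg_full {D : Type} (W : List D) : seg W 0 W.length = W := by
  simp [seg]

theorem seg_getElem? {D : Type} (W : List D) (x y i : ℕ) (hi : x + i < y) :
    (seg W x y)[i]? = W[x + i]? := by
  unfold seg
  rw [List.getElem?_take_of_lt (by omega), List.getElem?_drop]

theorem seg_length {D : Type} (W : List D) (x y : ℕ) (hy : y ≤ W.length) :
    (seg W x y).length = y - x := by
  unfold seg
  rw [List.length_take, List.length_drop]
  omega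

end Pool.Agent.Helper450.ET
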