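import Mathlib
import Pool.Agent.Helper450.ET.Defs
import Pool.Agent.Helper450.ET.P

set_option autoImplicit false

namespace Pool.Agent.Helper450.ET

theorem chain_le {S : Type} (u v : ℕ) (l : List (Nd S)) (hc : IsChain u l v) : u ≤ v := by
  induction l generalizing u with
  | nil => exact le_of_eq hc
  | cons nd l ih =>
    obtain ⟨h1, h2, h3⟩ := hc
    have := ih _ h3
    omega

theorem chain_append {S : Type} (u v : ℕ) (l l' : List (Nd S)) :
    IsChain u (l ++ l') v ↔ ∃ w, IsChain u l w ∧ IsChain w l' v := by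
  induction l generalizing u with
  | nil =>
    constructor
    · intro h
      exact ⟨u, rfl, h⟩
    · rintro ⟨w, h1, h2⟩
      have : u = w := h1
      subst this
      exact h2
  | cons nd l ih =>
    constructor
    · rintro ⟨h1, h2, h3⟩
      obtain ⟨w, h4, h5⟩ := (ih nd.b).1 h3
      exact ⟨w, ⟨h1, h2, h4⟩, h5⟩
    · rintro ⟨w, ⟨h1, h2, h4⟩, h5⟩
      exact ⟨h1, h2, (ih nd.b).2 ⟨w, h4, h5⟩⟩

theorem chain_bounds {S : Type} (u v : ℕ) (l : List (Nd S)) (hc : IsChain u l v) (nd : Nd S)
    (hnd : nd ∈ l) : u ≤ nd.a ∧ nd.a ≤ nd.b ∧ nd.b ≤ v := by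
  induction l generalizing u with
  | nil => exact absurd hnd List.not_mem_nil
  | cons x l ih =>
    obtain ⟨h1, h2, h3⟩ := hc
    rcases List.mem_cons.1 hnd with h | h
    · subst h
      exact ⟨h1.ge, h2, chain_le _ _ _ h3⟩
    · obtain ⟨h4, h5, h6⟩ := ih _ h3 h
      exact ⟨by omega, h5, h6⟩

/-- two nodes of a chain with overlapping nonempty intervals have the same interval -/
theorem chain_eq {S : Type} (u v : ℕ) (l : List (Nd S)) (hc : IsChain u l v) (nd nd' : Nd S)
    (hnd : nd ∈ l) (hnd' : nd' ∈ l) (h1 : nd.a < nd'.b) (h2 : nd'.a < nd.b) : nd = nd' := by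
  induction l generalizing u with
  | nil => exact absurd hnd List.not_mem_nil
  | cons x l ih =>
    obtain ⟨h3, h4, h5⟩ := hc
    rcases List.mem_cons.1 hnd with h | h
    · rcases List.mem_cons.1 hnd' with h' | h'
      · rw [h, h']
      · have := (chain_bounds _ _ _ h5 nd' h').1
        subst h
        omega
    · rcases List.mem_cons.1 hnd' with h' | h'
      · have := (chain_bounds _ _ _ h5 nd h).1
        subst h'
        omega
      · exact ih _ h5 h h'

theorem chain_flatten {S A D : Type} (h : D → List A) (W : List D) (u v : ℕ) (l : List (Nd S))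
    (hc : IsChain u l v) :
    (l.map (fun nd => seg W (xi h W nd.a) (xi h W nd.b))).flatten =
      seg W (xi h W u) (xi h W v) := by
  induction l generalizing u with
  | nil =>
    have : u = v := hc
    subst this
    simp [seg]
  | cons nd l ih =>
    obtain ⟨h1, h2, h3⟩ := hc
    rw [List.map_cons, List.flatten_cons, ih _ h3, h1]
    rw [h1] at h2
    exact seg_append W _ _ _ (xi_mono h W h2) (xi_mono h W (chain_le _ _ _ h3))

/-- every node of the next level has a parent -/
theorem parent {S A D : Type} {h : D → List A} {ρ : ℕ} {W : List D} (r : Run S h ρ W) (τ : ℕ)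
    (hτ : τ < r.n) (nd' : Nd S) (hnd' : nd' ∈ r.lev (τ + 1)) :
    ∃ nd ∈ r.lev τ, nd.a ≤ nd'.a ∧ nd'.b ≤ nd.b := by
  obtain ⟨parts, hp, he⟩ := r.refine τ hτ
  rw [he] at hnd'
  revert hnd'
  clear he
  generalize r.lev τ = L0 at hp ⊢
  induction hp with
  | nil => intro h; exact absurd h List.not_mem_nil
  | cons hx hl ih =>
    intro h
    rw [List.flatten_cons, List.mem_append] at h
    rcases h with h | h
    · have := chain_bounds _ _ _ hx.1 nd' h
      exact ⟨_, List.mem_cons_self, this.1, this.2.2⟩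
    · obtain ⟨nd, h1, h2⟩ := ih h
      exact ⟨nd, List.mem_cons_of_mem _ h1, h2⟩

/-- replacing one node -/
theorem replace_run {S A D : Type} {h : D → List A} {ρ : ℕ} {W : List D} (hne : ∀ e, h e ≠ [])
    (L : Set (List D))
    (r : Run S h ρ W) (hc : Crosses L r r) (τ : ℕ) (hτ : τ ≤ r.n) (nd : Nd S)
    (hnd : nd ∈ r.lev τ) (c : List D)
    (hG : r.G τ (pre h W nd.a) nd.s (pre h W nd.b) c) :
    W.take (xi h W nd.a) ++ c ++ W.drop (xi h W nd.b) ∈ L := by
  obtain ⟨A', B', hAB⟩ := List.append_of_mem hnd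
  have hch := r.chain τ hτ
  rw [hAB] at hch
  obtain ⟨w, c1, c2⟩ := (chain_append _ _ _ _).1 hch
  obtain ⟨c3, c4, c5⟩ := c2
  subst c3
  have hg := r.g1 τ hτ
  rw [hAB] at hg
  have key := hc τ hτ τ hτ (A'.map (fun nd => seg W (xi h W nd.a) (xi h W nd.b)) ++
    (c :: B'.map (fun nd => seg W (xi h W nd.a) (xi h W nd.b)))) (by
      rw [hAB]
      refine List.rel_append ?_ (List.Forall₂.cons hG ?_)
      · rw [List.forall₂_map_right_iff, List.forall₂_same]
        intro x hx
        exact hg x (List.mem_append_left _ hx)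
      · rw [List.forall₂_map_right_iff, List.forall₂_same]
        intro x hx
        exact hg x (List.mem_append_right _ (List.mem_cons_of_mem _ hx)))
  rw [List.flatten_append, List.flatten_cons, chain_flatten h W _ _ _ c1, chain_flatten h W _ _ _ c5, xi_zero h W hne,
    xi_last] at key
  have e1 : seg W 0 (xi h W nd.a) = W.take (xi h W nd.a) := by simp [seg]
  have e2 : seg W (xi h W nd.b) W.length = W.drop (xi h W nd.b) := by
    unfold seg
    apply List.take_of_length_le
    rw [List.length_drop]
  rw [e1, e2] at key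
  rw [List.append_assoc]
  exact key

end Pool.Agent.Helper450.ET
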