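import Mathlib
import Pool.Agent.Helper450.ET.Defs
import Pool.Agent.Helper450.ET.P
import Pool.Agent.Helper450.ET.Q

set_option autoImplicit false

namespace Pool.Agent.Helper450.ET

def Gen {α : Type} (G : ETOL α) (ts : List G.T) (s : α ⊕ G.ν) (z : List α) : Prop :=
  Derives G.tab ts [s] (z.map Sum.inl)

theorem step_nil {S : Type} (f : S → Set (List S)) (v : List S) : Step f [] v ↔ v = [] := by
  constructor
  · rintro ⟨l, h1, h2⟩
    cases h1
    simpa using h2
  · rintro rfl
    exact ⟨[], List.Forall₂.nil, rfl⟩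

theorem step_single {S : Type} (f : S → Set (List S)) (s : S) (v : List S) :
    Step f [s] v ↔ v ∈ f s := by
  constructor
  · rintro ⟨l, h1, h2⟩
    cases h1 with
    | cons h3 h4 =>
      cases h4
      simp at h2
      rw [h2]; exact h3
  · intro hv
    exact ⟨[v], List.Forall₂.cons hv List.Forall₂.nil, by simp⟩

theorem step_append {S : Type} (f : S → Set (List S)) (u1 u2 v : List S) :
    Step f (u1 ++ u2) v ↔ ∃ v1 v2, v = v1 ++ v2 ∧ Step f u1 v1 ∧ Step f u2 v2 := by
  constructor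
  · rintro ⟨l, h1, h2⟩
    obtain ⟨l1, l2, h3, h4, h5⟩ : ∃ l1 l2, List.Forall₂ (fun s x => x ∈ f s) u1 l1 ∧
        List.Forall₂ (fun s x => x ∈ f s) u2 l2 ∧ l = l1 ++ l2 := by
      refine ⟨l.take u1.length, l.drop u1.length, ?_, ?_, (List.take_append_drop _ _).symm⟩
      · have := List.forall₂_take u1.length h1
        simpa using this
      · have := List.forall₂_drop u1.length h1
        simpa using this
    exact ⟨l1.flatten, l2.flatten, by rw [h2, h5, List.flatten_append], ⟨l1, h3, rfl⟩,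
      ⟨l2, h4, rfl⟩⟩
  · rintro ⟨v1, v2, rfl, ⟨l1, h1, rfl⟩, ⟨l2, h2, rfl⟩⟩
    exact ⟨l1 ++ l2, List.rel_append h1 h2, by rw [List.flatten_append]⟩

theorem derives_nil {S T : Type} (tab : T → S → Set (List S)) (ts : List T) (v : List S) :
    Derives tab ts [] v ↔ v = [] := by
  induction ts with
  | nil => simp [Derives]
  | cons t ts ih =>
    simp only [Derives]
    constructor
    · rintro ⟨m, h1, h2⟩
      rw [step_nil] at h1
      subst h1
      exact ih.1 h2
    · intro hv
      exact ⟨[], (step_nil _ _).2 rfl, ih.2 hv⟩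

theorem derives_append {S T : Type} (tab : T → S → Set (List S)) (ts : List T)
    (u1 u2 v : List S) : Derives tab ts (u1 ++ u2) v ↔
      ∃ v1 v2, v = v1 ++ v2 ∧ Derives tab ts u1 v1 ∧ Derives tab ts u2 v2 := by
  induction ts generalizing u1 u2 v with
  | nil =>
    simp only [Derives]
    constructor
    · intro h; exact ⟨u1, u2, h, rfl, rfl⟩
    · rintro ⟨v1, v2, h, rfl, rfl⟩; exact h
  | cons t ts ih =>
    simp only [Derives]
    constructor
    · rintro ⟨m, h1, h2⟩
      obtain ⟨m1, m2, rfl, h3, h4⟩ := (step_append _ _ _ _).1 h1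
      obtain ⟨v1, v2, rfl, h5, h6⟩ := (ih _ _ _).1 h2
      exact ⟨v1, v2, rfl, ⟨m1, h3, h5⟩, ⟨m2, h4, h6⟩⟩
    · rintro ⟨v1, v2, rfl, ⟨m1, h3, h5⟩, ⟨m2, h4, h6⟩⟩
      exact ⟨m1 ++ m2, (step_append _ _ _ _).2 ⟨m1, m2, rfl, h3, h4⟩,
        (ih _ _ _).2 ⟨v1, v2, rfl, h5, h6⟩⟩

theorem derives_append_tables {S T : Type} (tab : T → S → Set (List S)) (ts ts' : List T)
    (u v : List S) : Derives tab (ts ++ ts') u v ↔
      ∃ m, Derives tab ts u m ∧ Derives tab ts' m v := by
  induction ts generalizing u v with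
  | nil => simp [Derives]
  | cons t ts ih =>
    simp only [Derives, List.cons_append]
    constructor
    · rintro ⟨m, h1, h2⟩
      obtain ⟨m', h3, h4⟩ := (ih _ _).1 h2
      exact ⟨m', ⟨m, h1, h3⟩, h4⟩
    · rintro ⟨m', ⟨m, h1, h3⟩, h4⟩
      exact ⟨m, h1, (ih _ _).2 ⟨m', h3, h4⟩⟩

theorem decomp {α : Type} (G : ETOL α) (Z : List α) (ts : List G.T) (u : List (α ⊕ G.ν))
    (a b : ℕ) (hab : a ≤ b) (hb : b ≤ Z.length)
    (hd : Derives G.tab ts u (((Z.take b).drop a).map Sum.inl)) :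
    ∃ l : List (Nd (α ⊕ G.ν)), IsChain a l b ∧ l.map Nd.s = u ∧
      ∀ nd ∈ l, Gen G ts nd.s ((Z.take nd.b).drop nd.a) := by
  induction u generalizing a with
  | nil =>
    rw [derives_nil] at hd
    have h1 := congrArg List.length hd
    simp at h1
    refine ⟨[], ?_, rfl, by simp⟩
    show a = b
    omega
  | cons s u ih =>
    have hd' : Derives G.tab ts ([s] ++ u) (((Z.take b).drop a).map Sum.inl) := hd
    obtain ⟨v1, v2, h1, h2, h3⟩ := (derives_append _ _ _ _ _).1 hd'
    obtain ⟨z1, z2, h4, h5, h6⟩ := List.map_eq_append_iff.1 h1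
    have hl := congrArg List.length h4
    simp at hl
    have hc : a + z1.length ≤ b := by omega
    have e1 : (Z.take (a + z1.length)).drop a = z1 := by
      have h7 : (Z.take (a + z1.length)).drop a = ((Z.take b).drop a).take z1.length := by
        rw [List.drop_take, List.drop_take, List.take_take]
        congr 1
        omega
      rw [h7, h4]; simp
    have e2 : (Z.take b).drop (a + z1.length) = z2 := by
      rw [← List.drop_drop, h4]; simp
    obtain ⟨l, g1, g2, g3⟩ := ih (a + z1.length) hc (by rw [e2, h6]; exact h3)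
    refine ⟨⟨s, a, a + z1.length⟩ :: l, ⟨rfl, by simp, g1⟩, by simp [g2], ?_⟩
    intro nd hnd
    rcases List.mem_cons.1 hnd with rfl | hnd
    · show Derives G.tab ts [s] (((Z.take (a + z1.length)).drop a).map Sum.inl)
      rw [e1, h5]; exact h2
    · exact g3 nd hnd

theorem chain_concat {S : Type} (l : List (Nd S)) (parts : List (List (Nd S))) (u v : ℕ)
    (hc : IsChain u l v) (hp : List.Forall₂ (fun nd part => IsChain nd.a part nd.b) l parts) :
    IsChain u parts.flatten v := by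
  induction hp generalizing u with
  | nil => simpa using hc
  | cons h1 h2 ih =>
    obtain ⟨h3, h4, h5⟩ := hc
    rw [List.flatten_cons, chain_append]
    exact ⟨_, h3 ▸ h1, ih _ h5⟩

theorem refine_list {α : Type} (G : ETOL α) (Z : List α) (t : G.T) (ts : List G.T)
    (l : List (Nd (α ⊕ G.ν)))
    (hl : ∀ nd ∈ l, nd.a ≤ nd.b ∧ nd.b ≤ Z.length ∧
      Gen G (t :: ts) nd.s ((Z.take nd.b).drop nd.a)) :
    ∃ parts : List (List (Nd (α ⊕ G.ν))),
      List.Forall₂ (fun nd part => IsChain nd.a part nd.b ∧ part.map Nd.s ∈ G.tab t nd.s) l parts ∧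
      ∀ nd ∈ parts.flatten, Gen G ts nd.s ((Z.take nd.b).drop nd.a) := by
  induction l with
  | nil => exact ⟨[], List.Forall₂.nil, by simp⟩
  | cons nd l ih =>
    obtain ⟨parts, h1, h2⟩ := ih (fun nd' h => hl nd' (List.mem_cons_of_mem _ h))
    obtain ⟨h3, h4, m, h5, h6⟩ := hl nd List.mem_cons_self
    rw [step_single] at h5
    obtain ⟨part, g1, g2, g3⟩ := decomp G Z ts m nd.a nd.b h3 h4 h6
    refine ⟨part :: parts, List.Forall₂.cons ⟨g1, by rw [g2]; exact h5⟩ h1, ?_⟩
    intro nd' hnd'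
    rw [List.flatten_cons, List.mem_append] at hnd'
    rcases hnd' with h | h
    · exact g3 _ h
    · exact h2 _ h

theorem levels {α : Type} (G : ETOL α) (Z : List α) (ts : List G.T)
    (l : List (Nd (α ⊕ G.ν))) (hc : IsChain 0 l Z.length)
    (hl : ∀ nd ∈ l, Gen G ts nd.s ((Z.take nd.b).drop nd.a)) :
    ∃ lev : ℕ → List (Nd (α ⊕ G.ν)), lev 0 = l ∧
      (∀ τ ≤ ts.length, IsChain 0 (lev τ) Z.length ∧
        ∀ nd ∈ lev τ, Gen G (ts.drop τ) nd.s ((Z.take nd.b).drop nd.a)) ∧
      ∀ τ, ∀ (hτ : τ < ts.length), ∃ parts : List (List (Nd (α ⊕ G.ν))),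
        List.Forall₂ (fun nd part => IsChain nd.a part nd.b ∧
          part.map Nd.s ∈ G.tab (ts[τ]) nd.s) (lev τ) parts ∧ lev (τ + 1) = parts.flatten := by
  induction ts generalizing l with
  | nil =>
    refine ⟨fun _ => l, rfl, ?_, ?_⟩
    · intro τ hτ
      refine ⟨hc, ?_⟩
      simpa using hl
    · intro τ hτ
      simp at hτ
  | cons t ts ih =>
    obtain ⟨parts, h1, h2⟩ := refine_list G Z t ts l (fun nd hnd => by
      obtain ⟨g1, g2, g3⟩ := chain_bounds _ _ _ hc nd hnd
      exact ⟨g2, g3, hl nd hnd⟩)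
    have hc' : IsChain 0 parts.flatten Z.length :=
      chain_concat l parts 0 _ hc (h1.imp (fun _ _ h => h.1))
    obtain ⟨lev, e0, e1, e2⟩ := ih parts.flatten hc' h2
    refine ⟨fun τ => match τ with | 0 => l | τ + 1 => lev τ, rfl, ?_, ?_⟩
    · intro τ hτ
      cases τ with
      | zero => exact ⟨hc, hl⟩
      | succ τ =>
        have := e1 τ (by simpa using hτ)
        simpa using this
    · intro τ hτ
      cases τ with
      | zero =>
        refine ⟨parts, ?_, e0⟩
        simpa using h1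
      | succ τ =>
        obtain ⟨parts', g1, g2⟩ := e2 τ (by simpa using hτ)
        refine ⟨parts', ?_, g2⟩
        simpa using g1

theorem step_of_parts {S : Type} (f : S → Set (List S)) (l : List (Nd S))
    (parts : List (List (Nd S)))
    (hp : List.Forall₂ (fun nd part => part.map Nd.s ∈ f nd.s) l parts) :
    Step f (l.map Nd.s) (parts.flatten.map Nd.s) := by
  refine ⟨parts.map (List.map Nd.s), ?_, by rw [List.map_flatten]⟩
  rw [List.forall₂_map_left_iff, List.forall₂_map_right_iff]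
  exact hp

/-- a chain whose nodes have empty intervals outside one node -/
theorem derives_of_empty {α : Type} (G : ETOL α) (Z : List α) (ts : List G.T)
    (l : List (Nd (α ⊕ G.ν))) (a : ℕ) (hc : IsChain a l a)
    (hl : ∀ nd ∈ l, Gen G ts nd.s ((Z.take nd.b).drop nd.a)) :
    Derives G.tab ts (l.map Nd.s) [] := by
  induction l with
  | nil => simp [derives_nil]
  | cons nd l ih =>
    obtain ⟨h1, h2, h3⟩ := hc
    have h4 := chain_le _ _ _ h3
    have h5 : nd.b = a := by omega
    have h6 : (Z.take nd.b).drop nd.a = [] := by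
      rw [h5, h1]
      apply List.drop_eq_nil_of_le
      simp
    have h7 := hl nd List.mem_cons_self
    rw [h6] at h7
    have h8 := ih (h5 ▸ h3) (fun nd' h => hl nd' (List.mem_cons_of_mem _ h))
    show Derives G.tab ts ([nd.s] ++ l.map Nd.s) []
    rw [derives_append]
    exact ⟨[], [], rfl, h7, h8⟩

theorem cross_tel {α₀ : Type} (G : ETOL α₀) {D : Type} (h : D → List α₀) (W : List D)
    (ts : List G.T) (l : List (Nd (α₀ ⊕ G.ν))) (u v : ℕ) (hc : IsChain u l v)
    (cs : List (List D))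
    (H : List.Forall₂ (fun nd c => ∃ z : List α₀, Gen G ts nd.s z ∧
      pre h W nd.a ++ z = c.flatMap h ++ pre h W nd.b) l cs) :
    ∃ z : List α₀, Derives G.tab ts (l.map Nd.s) (z.map Sum.inl) ∧
      pre h W u ++ z = cs.flatten.flatMap h ++ pre h W v := by
  induction H generalizing u with
  | nil =>
    refine ⟨[], by simp [derives_nil], ?_⟩
    have : u = v := hc
    subst this
    simp
  | @cons nd c l' cs' h1 h2 ih =>
    obtain ⟨h3, h4, h5⟩ := hc
    obtain ⟨z, g1, g2⟩ := h1
    obtain ⟨z', g3, g4⟩ := ih _ h5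
    refine ⟨z ++ z', ?_, ?_⟩
    · show Derives G.tab ts ([nd.s] ++ l'.map Nd.s) _
      rw [derives_append]
      exact ⟨z.map Sum.inl, z'.map Sum.inl, by simp, g1, g3⟩
    · rw [← h3, ← List.append_assoc, g2, List.append_assoc, g4]
      simp [List.flatMap_append]

theorem forall₂_mem_flatten {S : Type} {Q : Nd S → List (Nd S) → Prop} (l : List (Nd S))
    (parts : List (List (Nd S))) (hp : List.Forall₂ Q l parts) (nd' : Nd S)
    (h : nd' ∈ parts.flatten) : ∃ nd ∈ l, ∃ part, Q nd part ∧ nd' ∈ part ∧ part ∈ parts := by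
  induction hp with
  | nil => simp at h
  | @cons nd part l' parts' h1 h2 ih =>
    rw [List.flatten_cons, List.mem_append] at h
    rcases h with h | h
    · exact ⟨nd, List.mem_cons_self, part, h1, h, List.mem_cons_self⟩
    · obtain ⟨nd0, g1, part0, g2, g3, g4⟩ := ih h
      exact ⟨nd0, List.mem_cons_of_mem _ g1, part0, g2, g3, List.mem_cons_of_mem _ g4⟩

theorem exists_bound {α₀ : Type} [Finite α₀] (G : ETOL α₀) :
    ∃ ρ : ℕ, G.axm.length ≤ ρ ∧ ∀ t s, ∀ x ∈ G.tab t s, x.length ≤ ρ := by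
  have := G.finν
  have := G.finT
  have hfin : (⋃ t : G.T, ⋃ s : α₀ ⊕ G.ν, G.tab t s).Finite :=
    Set.finite_iUnion (fun t => Set.finite_iUnion (fun s => G.tab_fin t s))
  obtain ⟨M, hM⟩ := (hfin.image List.length).bddAbove
  refine ⟨max M G.axm.length, le_max_right _ _, fun t s x hx => le_trans ?_ (le_max_left _ _)⟩
  exact hM ⟨x, by simp only [Set.mem_iUnion]; exact ⟨t, s, hx⟩, rfl⟩

theorem interface {α₀ : Type} [Finite α₀] (G : ETOL α₀) {D : Type} (h : D → List α₀)
    (hne : ∀ e, h e ≠ []) (L : Set (List D)) (hL : L = {w | w.flatMap h ∈ G.lang}) :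
    ∃ ρ : ℕ, ∃ R : ∀ W ∈ L, Run (α₀ ⊕ G.ν) h ρ W,
      ∀ W hW W' hW', Crosses L (R W hW) (R W' hW') := by
  classical
  obtain ⟨ρ, hρ1, hρ2⟩ := exists_bound G
  -- data for every word
  have key : ∀ W ∈ L, ∃ (ts : List G.T) (lev : ℕ → List (Nd (α₀ ⊕ G.ν))),
      (lev 0).map Nd.s = G.axm ∧
      (∀ τ ≤ ts.length, IsChain 0 (lev τ) (W.flatMap h).length ∧
        ∀ nd ∈ lev τ, Gen G (ts.drop τ) nd.s (((W.flatMap h).take nd.b).drop nd.a)) ∧
      ∀ τ, ∀ (hτ : τ < ts.length), ∃ parts : List (List (Nd (α₀ ⊕ G.ν))),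
        List.Forall₂ (fun nd part => IsChain nd.a part nd.b ∧
          part.map Nd.s ∈ G.tab (ts[τ]) nd.s) (lev τ) parts ∧ lev (τ + 1) = parts.flatten := by
    intro W hW
    rw [hL] at hW
    obtain ⟨ts, hts⟩ := hW
    obtain ⟨l, g1, g2, g3⟩ := decomp G (W.flatMap h) ts G.axm 0 (W.flatMap h).length
      (Nat.zero_le _) le_rfl (by rw [List.drop_zero, List.take_length]; exact hts)
    obtain ⟨lev, e0, e1, e2⟩ := levels G (W.flatMap h) ts l g1 g3
    exact ⟨ts, lev, by rw [e0]; exact g2, e1, e2⟩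
  choose! tsf levf k0 k1 k2 using key
  refine ⟨ρ, fun W hW =>
    { n := (tsf W).length
      lev := levf W
      G := fun τ p s q c => ∃ z : List α₀, Gen G ((tsf W).drop τ) s z ∧
        p ++ z = c.flatMap h ++ q
      chain := fun τ hτ => (k1 W hW τ hτ).1
      refine := ?_
      len0 := ?_
      last := ?_
      g1 := ?_
      g3 := ?_ }, ?_⟩
  · intro τ hτ
    obtain ⟨parts, h1, h2⟩ := k2 W hW τ hτ
    refine ⟨parts, h1.imp ?_, h2⟩
    rintro nd part ⟨h3, h4⟩
    refine ⟨h3, ?_⟩
    have := hρ2 _ _ _ h4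
    simpa using this
  · have := congrArg List.length (k0 W hW)
    rw [List.length_map] at this
    omega
  · intro nd hnd
    obtain ⟨h1, h2⟩ := k1 W hW _ le_rfl
    obtain ⟨h3, h4, h5⟩ := chain_bounds _ _ _ h1 nd hnd
    have h6 := h2 nd hnd
    rw [List.drop_length] at h6
    have h7 : (((W.flatMap h).take nd.b).drop nd.a).map Sum.inl = [nd.s] := h6
    have h8 := congrArg List.length h7
    simp only [List.length_map, List.length_drop, List.length_take, List.length_cons,
      List.length_nil] at h8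
    omega
  · intro τ hτ nd hnd
    obtain ⟨h1, h2⟩ := k1 W hW τ hτ
    obtain ⟨h3, h4, h5⟩ := chain_bounds _ _ _ h1 nd hnd
    exact ⟨_, h2 nd hnd, glue h W nd.a nd.b h4 h5⟩
  · intro τ hτ nd hnd nd' hnd' ha hb hab p q c hG
    obtain ⟨z, hz1, hz2⟩ := hG
    refine ⟨z, ?_, hz2⟩
    obtain ⟨h1, h2⟩ := k1 W hW τ (le_of_lt hτ)
    obtain ⟨h1', h2'⟩ := k1 W hW (τ + 1) hτ
    obtain ⟨parts, h3, h4⟩ := k2 W hW τ hτ
    have hmem := hnd'
    rw [h4] at hmem
    obtain ⟨nd0, g1, part, ⟨g2, g3⟩, g4, g5⟩ := forall₂_mem_flatten _ _ h3 nd' hmem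
    obtain ⟨b1, b2, b3⟩ := chain_bounds _ _ _ g2 nd' g4
    have heq : nd0 = nd := chain_eq _ _ _ h1 nd0 nd g1 hnd (by omega) (by omega)
    subst heq
    obtain ⟨p1, p2, rfl⟩ := List.append_of_mem g4
    obtain ⟨w, c1, c2, c3, c4⟩ := (chain_append _ _ _ _).1 g2
    have hgen : ∀ x ∈ p1 ++ nd' :: p2, Gen G ((tsf W).drop (τ + 1)) x.s
        (((W.flatMap h).take x.b).drop x.a) := by
      intro x hx
      apply h2' x
      rw [h4]
      exact List.mem_flatten.2 ⟨_, g5, hx⟩
    have d1 : Derives G.tab ((tsf W).drop (τ + 1)) (p1.map Nd.s) [] := by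
      apply derives_of_empty G (W.flatMap h) _ p1 nd0.a
      · have : w = nd0.a := by omega
        rw [← this]
        rw [this] at c1 ⊢
        exact c1
      · intro x hx; exact hgen x (by simp [hx])
    have d2 : Derives G.tab ((tsf W).drop (τ + 1)) (p2.map Nd.s) [] := by
      apply derives_of_empty G (W.flatMap h) _ p2 nd'.b
      · rw [hb] at c4; exact c4
      · intro x hx; exact hgen x (by simp [hx])
    have hdrop : (tsf W).drop τ = (tsf W)[τ] :: (tsf W).drop (τ + 1) :=
      List.drop_eq_getElem_cons hτ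
    show Derives G.tab ((tsf W).drop τ) [nd0.s] (z.map Sum.inl)
    rw [hdrop]
    refine ⟨_, (step_single _ _ _).2 g3, ?_⟩
    rw [List.map_append, List.map_cons]
    have e1 : p1.map Nd.s ++ nd'.s :: p2.map Nd.s =
        p1.map Nd.s ++ ([nd'.s] ++ p2.map Nd.s) := by simp
    rw [e1, derives_append]
    refine ⟨[], z.map Sum.inl, by simp, d1, ?_⟩
    rw [derives_append]
    exact ⟨z.map Sum.inl, [], by simp, hz1, d2⟩
  · intro W hW W' hW' τ hτ τ' hτ' cs hcs
    have hτ1 : τ ≤ (tsf W).length := hτ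
    obtain ⟨h1, h2⟩ := k1 W hW τ hτ1
    obtain ⟨z, g1, g2⟩ := cross_tel G h W ((tsf W').drop τ') (levf W τ) 0 _ h1 cs hcs
    rw [pre_zero, pre_last] at g2
    simp at g2
    -- derivation of the level
    have hlev : ∀ σ ≤ (tsf W).length,
        Derives G.tab ((tsf W).take σ) G.axm ((levf W σ).map Nd.s) := by
      intro σ
      induction σ with
      | zero =>
        intro _
        show _ = _
        rw [k0 W hW]
      | succ σ ih =>
        intro hσ
        obtain ⟨parts, h3, h4⟩ := k2 W hW σ hσ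
        rw [List.take_succ_eq_append_getElem hσ, derives_append_tables]
        refine ⟨_, ih (by omega), ?_⟩
        refine ⟨_, ?_, rfl⟩
        rw [h4]
        exact step_of_parts _ _ _ (h3.imp (fun _ _ h => h.2))
    rw [hL]
    show cs.flatten.flatMap h ∈ G.lang
    refine ⟨(tsf W).take τ ++ (tsf W').drop τ', ?_⟩
    rw [derives_append_tables]
    refine ⟨_, hlev τ hτ1, ?_⟩
    rw [← g2]
    exact g1

end Pool.Agent.Helper450.ET
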