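import Mathlib
import Pool.Agent.Helper450.ET.Defs

set_option autoImplicit false

namespace Pool.Agent.Helper450.ET

theorem kap_lt_7477 {N : ℕ} (hN : 1 ≤ N) (j : ℕ) : kap N j < N := by
  unfold kap
  split_ifs
  · omega
  · have : min ((j - 1) / 2) (N - 1) ≤ N - 1 := min_le_right _ _
    omega

def K_7477 {N : ℕ} (hN : 1 ≤ N) (j : ℕ) : Fin N := ⟨kap N j, kap_lt_7477 hN j⟩

def img_7477 {N : ℕ} (t : Option (Fin N × Bool)) :
    (Del N ⊕ Fin N) → List (Del N ⊕ Fin N)
  | Sum.inl a => [Sum.inl a]
  | Sum.inr c => match t with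
    | none => []
    | some g => if (g.1 : ℕ) ≤ (c : ℕ) then [Sum.inl (some g), Sum.inr c] else [Sum.inr c]

def X_7477 {N : ℕ} (hN : 1 ≤ N) (E : List (Fin N × Bool)) : List (Del N ⊕ Fin N) :=
  Sum.inl none :: (List.range (RR N)).flatMap (fun j =>
    (E.filter (fun g => decide ((g.1 : ℕ) ≤ kap N j))).map (fun g => Sum.inl (some g)) ++
      [Sum.inr (K_7477 hN j), Sum.inl none])

def G_7477 {N : ℕ} (hN : 1 ≤ N) : ETOL (Del N) where
  ν := Fin N
  T := Option (Fin N × Bool)
  finν := inferInstance
  finT := inferInstance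
  tab := fun t s => {img_7477 t s}
  tab_fin := fun _ _ => Set.finite_singleton _
  tab_ne := fun _ _ => Set.singleton_nonempty _
  axm := X_7477 hN []

def D_7477 {N : ℕ} : List (Option (Fin N × Bool)) → List (Del N ⊕ Fin N) →
    List (Del N ⊕ Fin N)
  | [], u => u
  | t :: ts, u => D_7477 ts (u.flatMap (img_7477 t))

theorem step_iff_7477 {N : ℕ} (t : Option (Fin N × Bool)) (u v : List (Del N ⊕ Fin N)) :
    Step (fun s => ({img_7477 t s} : Set (List (Del N ⊕ Fin N)))) u v ↔
      v = u.flatMap (img_7477 t) := by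
  unfold Step
  have h : ∀ l : List (List (Del N ⊕ Fin N)), List.Forall₂ (fun s x =>
      x ∈ ({img_7477 t s} : Set (List (Del N ⊕ Fin N)))) u l ↔ l = u.map (img_7477 t) := by
    intro l
    induction u generalizing l with
    | nil => simp
    | cons a u ih =>
      cases l with
      | nil => simp
      | cons b l =>
        rw [List.forall₂_cons, ih]
        simp
  constructor
  · rintro ⟨l, h1, rfl⟩
    rw [h] at h1
    rw [h1, List.flatMap_def]
  · rintro rfl
    exact ⟨u.map (img_7477 t), (h _).2 rfl, by rw [List.flatMap_def]⟩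

theorem derives_iff_7477 {N : ℕ} (ts : List (Option (Fin N × Bool)))
    (u v : List (Del N ⊕ Fin N)) :
    Derives (fun t s => ({img_7477 t s} : Set (List (Del N ⊕ Fin N)))) ts u v ↔
      v = D_7477 ts u := by
  induction ts generalizing u with
  | nil => rfl
  | cons t ts ih =>
    unfold Derives D_7477
    constructor
    · rintro ⟨m, h1, h2⟩
      rw [step_iff_7477] at h1
      rw [ih] at h2
      rw [h2, h1]
    · intro h
      exact ⟨_, (step_iff_7477 _ _ _).2 rfl, (ih _).2 h⟩

theorem D_append_7477 {N : ℕ} (ts ts' : List (Option (Fin N × Bool)))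
    (u : List (Del N ⊕ Fin N)) : D_7477 (ts ++ ts') u = D_7477 ts' (D_7477 ts u) := by
  induction ts generalizing u with
  | nil => rfl
  | cons t ts ih => exact ih _

theorem img_inl_7477 {N : ℕ} (t : Option (Fin N × Bool)) (w : List (Del N)) :
    (w.map Sum.inl).flatMap (img_7477 t) = w.map Sum.inl := by
  induction w with
  | nil => rfl
  | cons a w ih =>
    rw [List.map_cons, List.flatMap_cons, ih]
    rfl

theorem D_inl_7477 {N : ℕ} (ts : List (Option (Fin N × Bool))) (w : List (Del N)) :
    D_7477 ts (w.map Sum.inl) = w.map Sum.inl := by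
  induction ts with
  | nil => rfl
  | cons t ts ih =>
    unfold D_7477
    rw [img_inl_7477]
    exact ih

theorem flat_flat_7477 {N : ℕ} (t : Option (Fin N × Bool)) (l : List ℕ)
    (f f' : ℕ → List (Del N ⊕ Fin N)) (h : ∀ j, (f j).flatMap (img_7477 t) = f' j) :
    (l.flatMap f).flatMap (img_7477 t) = l.flatMap f' := by
  induction l with
  | nil => rfl
  | cons a l ih =>
    rw [List.flatMap_cons, List.flatMap_append, ih, h, List.flatMap_cons]

theorem X_some_7477 {N : ℕ} (hN : 1 ≤ N) (E : List (Fin N × Bool)) (g : Fin N × Bool) :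
    (X_7477 hN E).flatMap (img_7477 (some g)) = X_7477 hN (E ++ [g]) := by
  unfold X_7477
  rw [List.flatMap_cons, flat_flat_7477 (some g) _ _ (fun j =>
    ((E ++ [g]).filter (fun g => decide ((g.1 : ℕ) ≤ kap N j))).map (fun g => Sum.inl (some g)) ++
      [Sum.inr (K_7477 hN j), Sum.inl none])]
  · rfl
  · intro j
    have h1 : (E.filter (fun g => decide ((g.1 : ℕ) ≤ kap N j))).map
        (fun g => (Sum.inl (some g) : Del N ⊕ Fin N)) =
        ((E.filter (fun g => decide ((g.1 : ℕ) ≤ kap N j))).map some).map Sum.inl := by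
      rw [List.map_map]; rfl
    rw [List.flatMap_append, h1, img_inl_7477, ← h1, List.filter_append, List.map_append,
      List.append_assoc]
    congr 1
    have h2 : (K_7477 hN j : ℕ) = kap N j := rfl
    by_cases hg : (g.1 : ℕ) ≤ kap N j
    · simp [img_7477, hg, h2]
    · simp [img_7477, hg, h2]

theorem X_none_7477 {N : ℕ} (hN : 1 ≤ N) (E : List (Fin N × Bool)) :
    (X_7477 hN E).flatMap (img_7477 none) = (WE N E).map Sum.inl := by
  unfold X_7477 WE
  rw [List.flatMap_cons, flat_flat_7477 none _ _ (fun j =>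
    (E.filter (fun g => decide ((g.1 : ℕ) ≤ kap N j))).map (fun g => Sum.inl (some g)) ++
      [Sum.inl none])]
  · rw [List.map_cons, List.map_flatMap]
    simp only [List.map_append, List.map_map, List.map_cons, List.map_nil]
    rfl
  · intro j
    have h1 : (E.filter (fun g => decide ((g.1 : ℕ) ≤ kap N j))).map
        (fun g => (Sum.inl (some g) : Del N ⊕ Fin N)) =
        ((E.filter (fun g => decide ((g.1 : ℕ) ≤ kap N j))).map some).map Sum.inl := by
      rw [List.map_map]; rfl
    rw [List.flatMap_append, h1, img_inl_7477, ← h1]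
    rfl

theorem D_some_7477 {N : ℕ} (hN : 1 ≤ N) (E' E : List (Fin N × Bool)) :
    D_7477 (E'.map some) (X_7477 hN E) = X_7477 hN (E ++ E') := by
  induction E' generalizing E with
  | nil => rw [List.append_nil]; rfl
  | cons g E' ih =>
    rw [List.map_cons]
    unfold D_7477
    rw [X_some_7477, ih, List.append_assoc]
    rfl

theorem X_ne_7477 {N : ℕ} (hN : 1 ≤ N) (E : List (Fin N × Bool)) (w : List (Del N)) :
    w.map Sum.inl ≠ X_7477 hN E := by
  intro h
  have h1 : (Sum.inr (K_7477 hN 0) : Del N ⊕ Fin N) ∈ X_7477 hN E := by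
    unfold X_7477
    apply List.mem_cons_of_mem
    rw [List.mem_flatMap]
    refine ⟨0, List.mem_range.2 (by unfold RR; omega), ?_⟩
    apply List.mem_append_right
    exact List.mem_cons_self
  rw [← h] at h1
  simp at h1

theorem D_sub_7477 {N : ℕ} (hN : 1 ≤ N) (ts : List (Option (Fin N × Bool)))
    (E : List (Fin N × Bool)) (w : List (Del N))
    (h : w.map Sum.inl = D_7477 ts (X_7477 hN E)) : ∃ E', w = WE N E' := by
  induction ts generalizing E with
  | nil => exact absurd h (X_ne_7477 hN E w)
  | cons t ts ih =>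
    cases t with
    | none =>
      unfold D_7477 at h
      rw [X_none_7477, D_inl_7477] at h
      exact ⟨E, List.map_injective_iff.2 Sum.inl_injective h⟩
    | some g =>
      unfold D_7477 at h
      rw [X_some_7477] at h
      exact ih _ h

theorem LN_isETOL (N : ℕ) (hN : 1 ≤ N) : IsETOL (LN N) := by
  refine ⟨G_7477 hN, ?_⟩
  ext w
  constructor
  · rintro ⟨ts, hts⟩
    have h1 := (derives_iff_7477 ts _ _).1 hts
    exact D_sub_7477 hN ts [] w h1
  · rintro ⟨E, rfl⟩
    refine ⟨E.map some ++ [none], ?_⟩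
    have h1 : (WE N E).map Sum.inl = D_7477 (E.map some ++ [none]) (X_7477 hN []) := by
      rw [D_append_7477, D_some_7477, List.nil_append]
      exact (X_none_7477 hN E).symm
    exact (derives_iff_7477 _ _ _).2 h1

end Pool.Agent.Helper450.ET
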