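import Mathlib
import Pool.Agent.Helper450.ET.Defs

set_option autoImplicit false

namespace Pool.Agent.Helper450.ET

theorem pos_succ (P : Par) (j : ℕ) :
    pos P (j + 1) = pos P j + P.M / P.S (kap P.N j) + 1 := by
  simp only [pos, Finset.sum_range_succ]
  omega

def blk7478 (P : Par) (j : ℕ) : List (Option ℕ) :=
  (List.range (P.M / P.S (kap P.N j))).map (fun i => some (i * P.S (kap P.N j))) ++ [none]

def adrN7478 (P : Par) (n : ℕ) : List (Option ℕ) :=
  none :: (List.range n).flatMap (blk7478 P)

theorem adr_eq7478 (P : Par) : adr P = adrN7478 P (RR P.N) := rfl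

theorem adrN_succ7478 (P : Par) (n : ℕ) :
    adrN7478 P (n + 1) = adrN7478 P n ++ blk7478 P n := by
  simp [adrN7478, List.range_succ, List.flatMap_append]

theorem blk_length7478 (P : Par) (j : ℕ) :
    (blk7478 P j).length = P.M / P.S (kap P.N j) + 1 := by
  simp [blk7478]

theorem adrN_length7478 (P : Par) (n : ℕ) : (adrN7478 P n).length = pos P n := by
  induction n with
  | zero => simp [adrN7478, pos]
  | succ n ih => rw [adrN_succ7478, List.length_append, ih, blk_length7478, pos_succ]; omega

theorem adr_length (P : Par) : (adr P).length = pos P (RR P.N) := adrN_length7478 P _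

theorem pos_mono7478 (P : Par) {i j : ℕ} (h : i ≤ j) : pos P i ≤ pos P j := by
  induction j, h using Nat.le_induction with
  | base => exact le_refl _
  | succ k _ ih =>
    rw [pos_succ]
    generalize P.M / P.S (kap P.N k) = q
    omega

theorem adrN_get7478 (P : Par) (n j : ℕ) (hj : j < n) (i : ℕ)
    (hi : i ≤ P.M / P.S (kap P.N j)) :
    (adrN7478 P n)[pos P j + i]? = (blk7478 P j)[i]? := by
  induction n with
  | zero => omega
  | succ n ih =>
    rw [adrN_succ7478]
    by_cases h : j < n
    · rw [List.getElem?_append_left, ih h]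
      rw [adrN_length7478]
      have h1 := pos_mono7478 P (show j + 1 ≤ n from h)
      rw [pos_succ] at h1
      omega
    · have hjn : j = n := by omega
      subst hjn
      rw [List.getElem?_append_right (by rw [adrN_length7478]; omega), adrN_length7478]
      congr 1
      omega

theorem adr_var (P : Par) (j : ℕ) (hj : j < RR P.N) (i : ℕ)
    (hi : i < P.M / P.S (kap P.N j)) :
    (adr P)[pos P j + i]? = some (some (i * P.S (kap P.N j))) := by
  rw [adr_eq7478, adrN_get7478 P _ j hj i hi.le, blk7478,
    List.getElem?_append_left (by simpa using hi)]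
  simp [hi]

theorem adr_hash (P : Par) (j : ℕ) (hj : j ≤ RR P.N) :
    (adr P)[pos P j - 1]? = some none := by
  cases j with
  | zero => simp [pos, adr]
  | succ j =>
    have h1 : pos P (j + 1) - 1 = pos P j + P.M / P.S (kap P.N j) := by
      rw [pos_succ]
      generalize P.M / P.S (kap P.N j) = q
      omega
    rw [h1, adr_eq7478, adrN_get7478 P _ j (by omega) _ le_rfl, blk7478,
      List.getElem?_append_right (by simp)]
    simp

theorem adr_cases (P : Par) (w : ℕ) (hw : w < (adr P).length) :
    (∃ j ≤ RR P.N, w + 1 = pos P j) ∨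
      ∃ j < RR P.N, ∃ i < P.M / P.S (kap P.N j), w = pos P j + i := by
  rw [adr_length] at hw
  generalize RR P.N = n at hw
  induction n with
  | zero =>
    left
    refine ⟨0, le_rfl, ?_⟩
    simp [pos] at hw ⊢
    exact hw
  | succ n ih =>
    by_cases h : w < pos P n
    · rcases ih h with ⟨j, h1, h2⟩ | ⟨j, h1, i, h2, h3⟩
      · exact Or.inl ⟨j, by omega, h2⟩
      · exact Or.inr ⟨j, by omega, i, h2, h3⟩
    · rw [pos_succ] at hw
      by_cases h2 : w - pos P n < P.M / P.S (kap P.N n)
      · right
        exact ⟨n, by omega, w - pos P n, h2, by omega⟩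
      · left
        refine ⟨n + 1, le_rfl, ?_⟩
        rw [pos_succ]
        omega

theorem filt7478 (S : ℕ) (hS : 0 < S) (q : ℕ) :
    (List.range (q * S)).filter (fun y => decide (S ∣ y)) = (List.range q).map (fun i => i * S) := by
  induction q with
  | zero => simp
  | succ q ih =>
    rw [Nat.succ_mul, List.range_add, List.filter_append, ih, List.range_succ, List.map_append]
    congr 1
    obtain ⟨S', rfl⟩ : ∃ S', S = S' + 1 := ⟨S - 1, by omega⟩
    rw [List.range_succ_eq_map, List.map_cons, List.filter_cons_of_pos (by simp)]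
    simp only [List.map_map, List.map_cons, List.map_nil, add_zero, List.cons.injEq, true_and]
    rw [List.filter_eq_nil_iff]
    intro a ha
    simp only [List.mem_map, List.mem_range, Function.comp] at ha
    obtain ⟨r, hr, rfl⟩ := ha
    simp only [decide_eq_true_eq]
    intro hd
    have h1 : (S' + 1) ∣ Nat.succ r := (Nat.dvd_add_right (Dvd.intro_left q rfl)).1 hd
    have h2 := Nat.le_of_dvd (Nat.succ_pos r) h1
    omega

theorem S_dvd7478 (P : Par) (c : ℕ) : P.S c ∣ P.M := by
  have h : P.S c ∣ P.S 0 := by
    induction c with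
    | zero => exact dvd_refl _
    | succ c ih => exact (P.hSdvd c).trans ih
  exact h.trans P.hSM

theorem kap_lt7478 (P : Par) (j : ℕ) : kap P.N j < P.N := by
  have := P.hN
  unfold kap
  split_ifs <;> omega

theorem WB_mem (P : Par) (β : ℕ → Bool) : WB P β ∈ LN P.N := by
  refine ⟨(List.range P.M).map (fun y => (P.lab y, β y)), ?_⟩
  have hblk : ∀ j, ((List.range P.M).map (fun y => (P.lab y, β y))).filter
      (fun g => decide ((g.1 : ℕ) ≤ kap P.N j)) =
      (List.range (P.M / P.S (kap P.N j))).map
        (fun i => (P.lab (i * P.S (kap P.N j)), β (i * P.S (kap P.N j)))) := by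
    intro j
    have hS := P.hSpos (kap P.N j)
    have hM : P.M = P.M / P.S (kap P.N j) * P.S (kap P.N j) :=
      (Nat.div_mul_cancel (S_dvd7478 P _)).symm
    rw [List.filter_map]
    have h1 : ((fun g : Fin P.N × Bool => decide ((g.1 : ℕ) ≤ kap P.N j)) ∘
        fun y => (P.lab y, β y)) = fun y => decide (P.S (kap P.N j) ∣ y) := by
      funext y
      simp only [Function.comp]
      have h2 := P.hlab y ⟨kap P.N j, kap_lt7478 P j⟩
      simp only [Fin.le_def] at h2
      exact decide_eq_decide.2 h2
    rw [h1]
    conv_lhs => rw [hM]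
    rw [filt7478 _ hS, List.map_map]
    rfl
  unfold WB adr WE
  simp only [List.map_cons, Option.map_none, List.map_flatMap, List.map_append, List.map_map,
    List.map_nil]
  congr 1
  congr 1
  funext j
  rw [hblk j, List.map_map]
  rfl

end Pool.Agent.Helper450.ET
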