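import Mathlib
import Pool.Agent.Helper450.ET.Defs
import Pool.Agent.Helper450.ET.P
import Pool.Agent.Helper450.ET.D

set_option autoImplicit false

namespace Pool.Agent.Helper450.ET

/-! ### auxiliary: words `# t_0 # t_1 # ... #` -/

def FF {γ : Type} (t : ℕ → List γ) (n : ℕ) : List (Option γ) :=
  (List.range n).flatMap (fun j => (t j).map some ++ [none])

theorem FF_zero {γ : Type} (t : ℕ → List γ) : FF t 0 = [] := by simp [FF]

theorem FF_succ {γ : Type} (t : ℕ → List γ) (n : ℕ) :
    FF t (n + 1) = FF t n ++ ((t n).map some ++ [none]) := by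
  simp [FF, List.range_succ]

theorem FF_succ' {γ : Type} (t : ℕ → List γ) (n : ℕ) :
    FF t (n + 1) = (t 0).map some ++ none :: FF (fun j => t (j + 1)) n := by
  simp [FF, List.range_succ_eq_map, List.flatMap_map]

theorem FF_add {γ : Type} (t : ℕ → List γ) (a b : ℕ) :
    FF t (a + b) = FF t a ++ FF (fun j => t (a + j)) b := by
  induction b with
  | zero => simp [FF_zero]
  | succ b ih => rw [← add_assoc, FF_succ, ih, FF_succ, List.append_assoc]

theorem FF_congr {γ : Type} (t t' : ℕ → List γ) (n : ℕ) (h : ∀ j < n, t j = t' j) :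
    FF t n = FF t' n := by
  induction n with
  | zero => simp [FF_zero]
  | succ n ih =>
    rw [FF_succ, FF_succ, ih (fun j hj => h j (by omega)), h n (by omega)]

theorem cut {γ : Type} (u u' : List γ) (v v' : List (Option γ))
    (h : u.map some ++ none :: v = u'.map some ++ none :: v') : u = u' ∧ v = v' := by
  induction u generalizing u' with
  | nil =>
    cases u' with
    | nil => simpa using h
    | cons a u' => simp at h
  | cons a u ih =>
    cases u' with
    | nil => simp at h
    | cons b u' =>
      simp only [List.map_cons, List.cons_append, List.cons.injEq, Option.some.injEq] at h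
      obtain ⟨h1, h2⟩ := h
      obtain ⟨h3, h4⟩ := ih u' h2
      exact ⟨by rw [h1, h3], h4⟩

theorem cut' {γ : Type} (u u' : List γ) (v v' : List (Option γ))
    (h : v ++ [none] ++ u.map some = v' ++ [none] ++ u'.map some) : v = v' ∧ u = u' := by
  have h1 := congrArg List.reverse h
  simp only [List.reverse_append, List.reverse_cons, List.reverse_nil, List.nil_append,
    List.map_reverse, ← List.map_reverse, List.append_assoc, List.singleton_append,
    List.cons_append] at h1
  obtain ⟨h2, h3⟩ := cut _ _ _ _ h1
  exact ⟨List.reverse_injective h3, List.reverse_injective h2⟩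

theorem FF_prefix {γ : Type} (n : ℕ) : ∀ (t : ℕ → List γ) (n' : ℕ) (t' : ℕ → List γ)
    (rest : List (Option γ)), n ≤ n' → FF t n ++ rest = FF t' n' → ∀ j < n, t j = t' j := by
  induction n with
  | zero => intro t n' t' rest _ _ j hj; omega
  | succ n ih =>
    intro t n' t' rest hn h j hj
    obtain ⟨m, rfl⟩ : ∃ m, n' = m + 1 := ⟨n' - 1, by omega⟩
    rw [FF_succ', FF_succ', List.append_assoc, List.cons_append] at h
    obtain ⟨h1, h2⟩ := cut _ _ _ _ h
    have h3 := ih _ m _ rest (by omega) h2
    cases j with
    | zero => exact h1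
    | succ j => exact h3 j (by omega)

/-- everything before the last `#` of `# t_0 # ... #` -/
def GG {γ : Type} (t : ℕ → List γ) : ℕ → List (Option γ)
  | 0 => []
  | n + 1 => none :: FF t n ++ (t n).map some

theorem GG_eq {γ : Type} (t : ℕ → List γ) (n : ℕ) : none :: FF t n = GG t n ++ [none] := by
  cases n with
  | zero => simp [FF_zero, GG]
  | succ n => simp [FF_succ, GG]

theorem FF_suffix {γ : Type} (n : ℕ) : ∀ (t : ℕ → List γ) (n' : ℕ) (t' : ℕ → List γ)
    (pre : List (Option γ)), n ≤ n' → pre ++ none :: FF t n = none :: FF t' n' →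
    ∀ j < n, t j = t' (n' - n + j) := by
  induction n with
  | zero => intro t n' t' pre _ _ j hj; omega
  | succ n ih =>
    intro t n' t' pre hn h j hj
    obtain ⟨m, rfl⟩ : ∃ m, n' = m + 1 := ⟨n' - 1, by omega⟩
    have h0 : (pre ++ GG t n) ++ [none] ++ (t n).map some ++ [none]
        = GG t' m ++ [none] ++ (t' m).map some ++ [none] := by
      rw [List.append_assoc pre, ← GG_eq, ← GG_eq]
      have e1 : none :: FF t (n+1) = (none :: FF t n) ++ (t n).map some ++ [none] := by
        rw [FF_succ]; simp
      have e2 : none :: FF t' (m+1) = (none :: FF t' m) ++ (t' m).map some ++ [none] := by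
        rw [FF_succ]; simp
      rw [e1, e2] at h
      simpa using h
    have h1 := List.append_cancel_right h0
    obtain ⟨h2, h3⟩ := cut' _ _ _ _ h1
    have h4 : pre ++ none :: FF t n = none :: FF t' m := by
      rw [GG_eq, GG_eq, ← h2, List.append_assoc]
    rcases Nat.lt_succ_iff_lt_or_eq.mp hj with h5 | h5
    · have h6 := ih t m t' pre (by omega) h4 j h5
      rw [h6]
      congr 1
      omega
    · subst h5
      rw [h3]
      congr 1
      omega

theorem FF_var {γ : Type} (t : ℕ → List γ) (n j : ℕ) (hj : j < n) (i : ℕ) (hi : i < (t j).length) :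
    (none :: FF t n)[(none :: FF t j).length + i]? = some (some ((t j)[i])) := by
  obtain ⟨k, rfl⟩ : ∃ k, n = j + (k + 1) := ⟨n - j - 1, by omega⟩
  rw [FF_add, ← List.cons_append, List.getElem?_append_right (by omega), Nat.add_sub_cancel_left,
    FF_succ', List.getElem?_append_left (by simpa using hi)]
  simp [hi]

theorem FF_hash {γ : Type} (t : ℕ → List γ) (n j : ℕ) (hj : j ≤ n) :
    (none :: FF t n)[(none :: FF t j).length - 1]? = some none := by
  obtain ⟨k, rfl⟩ : ∃ k, n = j + k := ⟨n - j, by omega⟩
  rw [FF_add, ← List.cons_append, List.getElem?_append_left (by simp), GG_eq]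
  simp

theorem FF_len (P : Par) {γ : Type} (t : ℕ → List γ) (j : ℕ)
    (h : ∀ i < j, (t i).length = P.M / P.S (kap P.N i)) : (none :: FF t j).length = pos P j := by
  induction j with
  | zero => simp [FF_zero, pos]
  | succ j ih =>
    have h1 := ih (fun i hi => h i (by omega))
    rw [pos_succ, ← h1, FF_succ]
    simp only [List.length_cons, List.length_append, List.length_map, List.length_nil]
    rw [h j (by omega)]
    omega

theorem S_dvd_M (P : Par) (c : ℕ) : P.S c ∣ P.M := by
  have h : P.S c ∣ P.S 0 := by
    induction c with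
    | zero => exact dvd_rfl
    | succ c ih => exact (P.hSdvd c).trans ih
  exact h.trans P.hSM

theorem kap_lt (P : Par) (j : ℕ) : kap P.N j < P.N := by
  have := P.hN
  unfold kap
  split
  · omega
  · have : min ((j-1)/2) (P.N - 1) ≤ P.N - 1 := min_le_right _ _
    omega

theorem filter_range (S q : ℕ) (hS : 0 < S) :
    (List.range (S * q)).filter (fun y => decide (S ∣ y)) = (List.range q).map (fun i => i * S) := by
  induction q with
  | zero => simp
  | succ q ih =>
    rw [Nat.mul_succ, List.range_add, List.filter_append, ih, List.range_succ, List.map_append]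
    congr 1
    obtain ⟨s, rfl⟩ : ∃ s, S = s + 1 := ⟨S - 1, by omega⟩
    rw [List.range_succ_eq_map, List.map_cons, List.filter_cons_of_pos (by simp)]
    have h0 : List.filter (fun y => decide (s + 1 ∣ y))
        (List.map (fun x => (s + 1) * q + x) (List.map Nat.succ (List.range s))) = [] := by
      rw [List.filter_eq_nil_iff]
      intro a ha
      simp only [List.map_map, List.mem_map, List.mem_range, Function.comp] at ha
      obtain ⟨b, hb, rfl⟩ := ha
      simp only [decide_eq_true_eq]
      intro h
      have h2 : s + 1 ∣ Nat.succ b := (Nat.dvd_add_right (Dvd.intro _ rfl)).mp h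
      have h3 := Nat.le_of_dvd (Nat.succ_pos b) h2
      omega
    rw [h0]
    simp [Nat.mul_comm]

theorem thread_filter (P : Par) (e : ℕ → Bool) (j : ℕ) :
    ((List.range P.M).map (fun y => (P.lab y, e y))).filter
      (fun g => decide ((g.1 : ℕ) ≤ kap P.N j)) =
    (List.range (P.M / P.S (kap P.N j))).map
      (fun i => (P.lab (i * P.S (kap P.N j)), e (i * P.S (kap P.N j)))) := by
  rw [List.filter_map]
  have h1 : ((fun g : Fin P.N × Bool => decide ((g.1 : ℕ) ≤ kap P.N j)) ∘
      (fun y => (P.lab y, e y))) = fun y => decide (P.S (kap P.N j) ∣ y) := by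
    funext y
    simp only [Function.comp]
    have h2 := P.hlab y ⟨kap P.N j, kap_lt P j⟩
    rw [Fin.le_def] at h2
    simp only at h2
    exact decide_eq_decide.mpr h2
  rw [h1]
  obtain ⟨q, hq⟩ := S_dvd_M P (kap P.N j)
  have hpos := P.hSpos (kap P.N j)
  have h3 : P.M / P.S (kap P.N j) = q := by
    rw [hq]; exact Nat.mul_div_cancel_left q hpos
  rw [h3]
  conv_lhs => rw [hq]
  rw [filter_range _ _ hpos, List.map_map]
  rfl

theorem WE_eq (N : ℕ) (E : List (Fin N × Bool)) :
    WE N E = none :: FF (fun j => E.filter (fun g => decide ((g.1 : ℕ) ≤ kap N j))) (RR N) := rfl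

theorem kap1 (N : ℕ) (hN : 2 ≤ N) : kap N (2 * N - 1) = N - 1 := by
  unfold kap
  rw [if_neg (by omega)]
  have : (2 * N - 1 - 1)/2 = N - 1 := by omega
  rw [this, min_self]

theorem kap2 (N : ℕ) (hN : 2 ≤ N) : kap N (2 * N + 1) = N - 1 := by
  unfold kap
  rw [if_neg (by omega)]
  have : (2 * N + 1 - 1)/2 = N := by omega
  rw [this, min_eq_right (by omega)]

theorem filter_full (N : ℕ) (hN : 2 ≤ N) (E : List (Fin N × Bool)) (c : ℕ) (hc : c = N - 1) :
    E.filter (fun g => decide ((g.1 : ℕ) ≤ c)) = E := by
  rw [List.filter_eq_self]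
  intro a _
  have := a.1.isLt
  simp only [decide_eq_true_eq]
  omega

theorem consistent (P : Par) (γ : ℕ → ℕ → Bool) (W : List (Del P.N))
    (hW : ∀ w, W[w]? = ((adr P)[w]?).map (Option.map (fun y => (P.lab y, γ w y))))
    (hL : W ∈ LN P.N) (w w' y : ℕ) (h1 : (adr P)[w]? = some (some y))
    (h2 : (adr P)[w']? = some (some y)) : γ w y = γ w' y := by
  obtain ⟨E, hE⟩ := hL
  let tW : ℕ → List (Fin P.N × Bool) := fun j =>
    (List.range (P.M / P.S (kap P.N j))).map
      (fun i => (P.lab (i * P.S (kap P.N j)), γ (pos P j + i) (i * P.S (kap P.N j))))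
  have tWlen : ∀ j, (tW j).length = P.M / P.S (kap P.N j) := by intro j; simp [tW]
  have hlen : ∀ j, (none :: FF tW j).length = pos P j := fun j => FF_len P tW j (fun i _ => tWlen i)
  have hWF : W = none :: FF tW (RR P.N) := by
    apply List.ext_getElem?
    intro v
    rw [hW]
    by_cases hv : v < (adr P).length
    · rcases adr_cases P v hv with ⟨j, hj, hvj⟩ | ⟨j, hj, i, hi, hvj⟩
      · have h3 := adr_hash P j hj
        have h4 := FF_hash tW (RR P.N) j hj
        rw [hlen] at h4
        rw [show v = pos P j - 1 by omega, h3, h4]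
        rfl
      · have h3 := adr_var P j hj i hi
        have h4 := FF_var tW (RR P.N) j hj i (by rw [tWlen]; exact hi)
        rw [hlen] at h4
        rw [hvj, h3, h4]
        simp [tW]
    · have h3 : (adr P)[v]? = none := by rw [List.getElem?_eq_none_iff]; omega
      rw [h3]
      simp only [Option.map_none]
      symm
      rw [List.getElem?_eq_none_iff, hlen, ← adr_length]
      simpa using hv
  rw [hE, WE_eq] at hWF
  have hFF : FF (fun j => E.filter (fun g => decide ((g.1 : ℕ) ≤ kap P.N j))) (RR P.N)
      = FF tW (RR P.N) := by simpa using hWF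
  have hth := FF_prefix (RR P.N) (fun j => E.filter (fun g => decide ((g.1 : ℕ) ≤ kap P.N j)))
    (RR P.N) tW [] le_rfl (by rw [List.append_nil]; exact hFF)
  have hR : 2 * P.N - 1 < RR P.N := by unfold RR; omega
  have hEW := hth (2 * P.N - 1) hR
  rw [filter_full P.N P.hN E _ (kap1 P.N P.hN)] at hEW
  -- E is the full thread
  let e : ℕ → Bool := fun y => γ (pos P (2 * P.N - 1) + y) y
  have hEe : E = (List.range P.M).map (fun y => (P.lab y, e y)) := by
    rw [hEW]
    simp only [tW]
    rw [kap1 P.N P.hN, P.hS1]
    simp [e]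
  have key : ∀ v z, (adr P)[v]? = some (some z) → γ v z = e z := by
    intro v z hvz
    have hv : v < (adr P).length := by
      by_contra h
      rw [List.getElem?_eq_none_iff.mpr (by omega)] at hvz
      exact absurd hvz (by simp)
    rcases adr_cases P v hv with ⟨j, hj, hvj⟩ | ⟨j, hj, i, hi, hvj⟩
    · have h3 := adr_hash P j hj
      rw [show v = pos P j - 1 by omega, h3] at hvz
      exact absurd hvz (by simp)
    · have h3 := adr_var P j hj i hi
      rw [hvj, h3] at hvz
      simp only [Option.some.injEq] at hvz
      have h4 := hth j hj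
      rw [hEe, thread_filter] at h4
      have h5 : (List.map (fun i => (P.lab (i * P.S (kap P.N j)), e (i * P.S (kap P.N j))))
          (List.range (P.M / P.S (kap P.N j))))[i]? = (tW j)[i]? := by rw [h4]
      simp only [tW, List.getElem?_map, List.getElem?_range hi, Option.map_some, Option.some.injEq,
        Prod.mk.injEq, true_and] at h5
      rw [← hvz, hvj, h5]
  rw [key w y h1, key w' y h2]

theorem replace_eq (P : Par) (β : ℕ → Bool) (x x' : ℕ) (hxx : x ≤ x')
    (hx' : x' ≤ (adr P).length)
    (hok : x' ≤ pos P (2 * P.N + 1) - 1 ∨ pos P (2 * P.N) ≤ x) (c : List (Del P.N))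
    (hL : (WB P β).take x ++ c ++ (WB P β).drop x' ∈ LN P.N) : c = seg (WB P β) x x' := by
  obtain ⟨E, hE⟩ := hL
  let tB : ℕ → List (Fin P.N × Bool) := fun j =>
    (List.range (P.M / P.S (kap P.N j))).map
      (fun i => (P.lab (i * P.S (kap P.N j)), β (i * P.S (kap P.N j))))
  have tBlen : ∀ j, (tB j).length = P.M / P.S (kap P.N j) := by intro j; simp [tB]
  have hlen : ∀ j, (none :: FF tB j).length = pos P j := fun j => FF_len P tB j (fun i _ => tBlen i)
  let EB : List (Fin P.N × Bool) := (List.range P.M).map (fun y => (P.lab y, β y))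
  have hWB : WB P β = none :: FF tB (RR P.N) := by
    unfold WB adr FF
    simp only [List.map_cons, List.map_flatMap, Option.map_none, List.map_append, List.map_map, tB,
      List.map_nil]
    rfl
  have hWE : WE P.N EB = WB P β := by
    rw [hWB, WE_eq]
    congr 1
    apply FF_congr
    intro j _
    exact thread_filter P β j
  have htB : ∀ j, kap P.N j = P.N - 1 → tB j = EB := by
    intro j hj
    simp only [tB, EB]
    rw [hj, P.hS1]
    simp
  have hEE : E = EB := by
    have hN := P.hN
    rcases hok with h | h
    · -- suffix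
      have hR : RR P.N = (2 * P.N + 1) + 2 := by unfold RR; omega
      have hW2 : WB P β = GG tB (2 * P.N + 1) ++ none :: FF (fun j => tB (2 * P.N + 1 + j)) 2 := by
        rw [hWB, hR, FF_add, ← List.cons_append, GG_eq]
        simp
      have hGlen : (GG tB (2 * P.N + 1)).length = pos P (2 * P.N + 1) - 1 := by
        have h3 := hlen (2 * P.N + 1)
        rw [GG_eq] at h3
        simp only [List.length_append, List.length_cons, List.length_nil] at h3
        omega
      have hdrop : (WB P β).drop x' = (GG tB (2 * P.N + 1)).drop x' ++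
          none :: FF (fun j => tB (2 * P.N + 1 + j)) 2 := by
        rw [hW2, List.drop_append_of_le_length (by omega)]
      rw [hdrop, WE_eq, hR, ← List.append_assoc] at hE
      have h3 := FF_suffix 2 _ _ _ _ (by omega) hE 0 (by omega)
      simp only [add_zero] at h3
      rw [htB _ (kap2 P.N P.hN)] at h3
      rw [show 2 * P.N + 1 + 2 - 2 = 2 * P.N + 1 by omega,
        filter_full P.N P.hN E _ (kap2 P.N P.hN)] at h3
      exact h3.symm
    · -- front part
      have hR : RR P.N = 2 * P.N + 3 := by unfold RR; omega
      have htake : (WB P β).take x = (none :: FF tB (2 * P.N)) ++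
          (FF (fun j => tB (2 * P.N + j)) 3).take (x - pos P (2 * P.N)) := by
        rw [hWB, hR, FF_add, ← List.cons_append, List.take_append, hlen,
          List.take_of_length_le (by rw [hlen]; exact h)]
      rw [htake, WE_eq, List.append_assoc, List.append_assoc, List.cons_append] at hE
      have hE2 := (List.cons.inj hE).2
      have h3 := FF_prefix (2 * P.N) _ _ _ _ (by rw [hR]; omega) hE2 (2 * P.N - 1) (by omega)
      rw [htB _ (kap1 P.N P.hN)] at h3
      rw [filter_full P.N P.hN E _ (kap1 P.N P.hN)] at h3
      exact h3.symm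
  rw [hEE, hWE] at hE
  have hsplit : WB P β = (WB P β).take x ++ seg (WB P β) x x' ++ (WB P β).drop x' := by
    have e1 : (WB P β).drop x = seg (WB P β) x x' ++ (WB P β).drop x' := by
      unfold seg
      conv_lhs => rw [← List.take_append_drop (x' - x) ((WB P β).drop x)]
      rw [List.drop_drop, Nat.add_sub_cancel' hxx]
    conv_lhs => rw [← List.take_append_drop x (WB P β), e1]
    rw [List.append_assoc]
  have h5 : (WB P β).take x ++ c ++ (WB P β).drop x' =
      (WB P β).take x ++ seg (WB P β) x x' ++ (WB P β).drop x' := by rw [hE]; exact hsplit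
  exact List.append_cancel_left (List.append_cancel_right h5)

end Pool.Agent.Helper450.ET
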