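import Mathlib
import Pool.Agent.Helper450.ET.Defs

set_option autoImplicit false

namespace Pool.Agent.Helper450.ET

theorem LN_nil (N : ℕ) : ([] : List (Del N)) ∉ LN N := by
  rintro ⟨E, hE⟩
  simp [WE] at hE

theorem count_none_WE_aux {N : ℕ} (F : ℕ → List (Fin N × Bool)) (l : List ℕ) :
    List.count (none : Del N) (l.flatMap (fun j => (F j).map some ++ [none])) = l.length := by
  induction l with
  | nil => simp
  | cons a l ih =>
    rw [List.flatMap_cons, List.count_append, ih, List.count_append]
    have h0 : List.count (none : Del N) ((F a).map some) = 0 := by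
      rw [List.count_eq_zero]
      intro hm
      rw [List.mem_map] at hm
      obtain ⟨x, _, hx⟩ := hm
      cases hx
    rw [h0]
    simp
    omega

theorem count_none_WE (N : ℕ) (E : List (Fin N × Bool)) :
    List.count (none : Del N) (WE N E) = RR N + 1 := by
  unfold WE
  rw [List.count_cons_self, count_none_WE_aux, List.length_range]

theorem LN_h_ne (N : ℕ) {A : Type} (L₀ : Set (List A)) (h : Del N → List A)
    (hL : LN N = {w | w.flatMap h ∈ L₀}) : ∀ e, h e ≠ [] := by
  intro e he
  have hW : WE N [] ∈ LN N := ⟨[], rfl⟩
  rw [hL, Set.mem_ofPred_eq] at hW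
  have hW2 : e :: WE N [] ∈ LN N := by
    rw [hL, Set.mem_ofPred_eq, List.flatMap_cons, he, List.nil_append]
    exact hW
  obtain ⟨E, hE⟩ := hW2
  have h1 := count_none_WE N E
  rw [← hE] at h1
  cases e with
  | none =>
    rw [List.count_cons_self, count_none_WE] at h1
    omega
  | some g =>
    unfold WE at hE
    simp at hE

end Pool.Agent.Helper450.ET
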