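import Mathlib
import Pool.Agent.Helper450.ET.Defs

set_option autoImplicit false

namespace Pool.Agent.Helper450.ET

theorem rep_card (M S i i' lam : ℕ) (hS : 0 < S) (hii : i < i') (hM : i' + lam ≤ M / S) :
    ((Finset.univ : Finset (Fin M → Bool)).filter
      (fun b => ∀ t < lam, ext M b ((i + t) * S) = ext M b ((i' + t) * S))).card
      ≤ 2 ^ (M - lam) := by
  classical
  have hlt : ∀ t, t < lam → (i' + t) * S < M := by
    intro t ht
    have h1 : (i' + t) * S < (i' + lam) * S := Nat.mul_lt_mul_of_pos_right (by omega) hS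
    have h2 : (i' + lam) * S ≤ (M / S) * S := Nat.mul_le_mul_right _ hM
    have h3 : (M / S) * S ≤ M := Nat.div_mul_le_self M S
    omega
  let V : Finset (Fin M) := Finset.univ.filter (fun y => ∃ t < lam, (y : ℕ) = (i' + t) * S)
  have hV : lam ≤ V.card := by
    have h1 : (Finset.univ : Finset (Fin lam)).card ≤ V.card := by
      apply Finset.card_le_card_of_injOn
        (fun t : Fin lam => (⟨(i' + t) * S, hlt t t.2⟩ : Fin M))
      · intro t _
        simp only [V, Finset.coe_filter, Finset.mem_univ, true_and]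
        exact ⟨t, t.2, rfl⟩
      · intro t _ t' _ h
        have h2 : (i' + (t : ℕ)) * S = (i' + (t' : ℕ)) * S := by
          have := congrArg Fin.val h
          exact this
        have h3 := Nat.eq_of_mul_eq_mul_right hS h2
        exact Fin.ext (by omega)
    simpa using h1
  have hinj : ((Finset.univ : Finset (Fin M → Bool)).filter
      (fun b => ∀ t < lam, ext M b ((i + t) * S) = ext M b ((i' + t) * S))).card
      ≤ (Finset.univ : Finset (↥(Vᶜ) → Bool)).card := by
    apply Finset.card_le_card_of_injOn (fun b => fun y : ↥(Vᶜ) => b y)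
    · intro b _; simp
    · intro b hb b' hb' h
      simp only [Finset.coe_filter, Finset.mem_univ, true_and] at hb hb'
      have hb1 : ∀ t < lam, ext M b ((i + t) * S) = ext M b ((i' + t) * S) := hb
      have hb2 : ∀ t < lam, ext M b' ((i + t) * S) = ext M b' ((i' + t) * S) := hb'
      have key : ∀ y : ℕ, ∀ hy : y < M, b ⟨y, hy⟩ = b' ⟨y, hy⟩ := by
        intro y
        induction y using Nat.strong_induction_on with
        | _ y ih =>
          intro hy
          by_cases hyV : (⟨y, hy⟩ : Fin M) ∈ V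
          · obtain ⟨t, ht, hyt⟩ := (Finset.mem_filter.mp hyV).2
            have hyt' : y = (i' + t) * S := hyt
            have hlt2 : (i + t) * S < y := by
              rw [hyt']
              exact Nat.mul_lt_mul_of_pos_right (by omega) hS
            have e1 := hb1 t ht
            have e2 := hb2 t ht
            rw [← hyt'] at e1 e2
            have f1 : ∀ c : Fin M → Bool, ext M c y = c ⟨y, hy⟩ := by
              intro c; unfold ext; rw [dif_pos hy]
            have f2 : ∀ c : Fin M → Bool, ext M c ((i + t) * S) = c ⟨(i + t) * S, by omega⟩ := by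
              intro c; unfold ext; rw [dif_pos (by omega)]
            rw [f1, f2] at e1 e2
            rw [← e1, ← e2]
            exact ih _ hlt2 _
          · have := congrFun h ⟨⟨y, hy⟩, Finset.mem_compl.mpr hyV⟩
            exact this
      funext y
      exact key y y.2
  refine hinj.trans ?_
  rw [Finset.card_univ, Fintype.card_fun, Fintype.card_coe, Finset.card_compl, Fintype.card_bool,
    Fintype.card_fin]
  exact Nat.pow_le_pow_right (by norm_num) (by omega)

theorem NR_count (P : Par) (lam : ℕ) (hlam : lam ≤ P.M) :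
    {b : Fin P.M → Bool | ¬ NR P lam (ext P.M b)}.ncard ≤
      P.N * P.M ^ 2 * 2 ^ (P.M - lam) := by
  classical
  let B : (Fin P.N × Fin P.M × Fin P.M) → Finset (Fin P.M → Bool) := fun q =>
    if (q.2.1 : ℕ) < (q.2.2 : ℕ) + 1 ∧ (q.2.2 : ℕ) + 1 + lam ≤ P.M / P.S q.1 then
      (Finset.univ : Finset (Fin P.M → Bool)).filter
        (fun b => ∀ t < lam, ext P.M b (((q.2.1 : ℕ) + t) * P.S q.1)
          = ext P.M b (((q.2.2 : ℕ) + 1 + t) * P.S q.1))
    else ∅
  have hB : ∀ q ∈ (Finset.univ : Finset (Fin P.N × Fin P.M × Fin P.M)),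
      (B q).card ≤ 2 ^ (P.M - lam) := by
    intro q _
    by_cases h : (q.2.1 : ℕ) < (q.2.2 : ℕ) + 1 ∧ (q.2.2 : ℕ) + 1 + lam ≤ P.M / P.S q.1
    · simp only [B, if_pos h]
      exact rep_card P.M (P.S q.1) q.2.1 (q.2.2 + 1) lam (P.hSpos _) h.1 h.2
    · simp only [B, if_neg h, Finset.card_empty]
      exact Nat.zero_le _
  have hsub : {b : Fin P.M → Bool | ¬ NR P lam (ext P.M b)} ⊆
      ((Finset.univ.biUnion B : Finset (Fin P.M → Bool)) : Set (Fin P.M → Bool)) := by
    intro b hb
    have hb' : ¬ NR P lam (ext P.M b) := hb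
    unfold NR at hb'
    push Not at hb'
    obtain ⟨c, hc, i, i', hii, hi', hrep⟩ := hb'
    have hMS : P.M / P.S c ≤ P.M := Nat.div_le_self _ _
    have hi1 : i < P.M := by omega
    have hi2 : i' - 1 < P.M := by omega
    rw [Finset.mem_coe, Finset.mem_biUnion]
    refine ⟨(⟨c, hc⟩, ⟨i, hi1⟩, ⟨i' - 1, hi2⟩), Finset.mem_univ _, ?_⟩
    have e : i' - 1 + 1 = i' := by omega
    simp only [B]
    rw [e, if_pos ⟨hii, hi'⟩]
    exact Finset.mem_filter.mpr ⟨Finset.mem_univ _, hrep⟩
  calc {b : Fin P.M → Bool | ¬ NR P lam (ext P.M b)}.ncard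
      ≤ ((Finset.univ.biUnion B : Finset (Fin P.M → Bool)) : Set (Fin P.M → Bool)).ncard :=
        Set.ncard_le_ncard hsub (Finset.finite_toSet _)
    _ = (Finset.univ.biUnion B : Finset (Fin P.M → Bool)).card := Set.ncard_coe_finset _
    _ ≤ (Finset.univ : Finset (Fin P.N × Fin P.M × Fin P.M)).card * 2 ^ (P.M - lam) :=
        Finset.card_biUnion_le_card_mul _ _ _ hB
    _ = P.N * P.M ^ 2 * 2 ^ (P.M - lam) := by
        rw [Finset.card_univ, Fintype.card_prod, Fintype.card_prod, Fintype.card_fin,
          Fintype.card_fin]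
        ring

end Pool.Agent.Helper450.ET
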