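import Mathlib
import Pool.Agent.Helper450.ET.Defs
import Pool.Agent.Helper450.ET.P
import Pool.Agent.Helper450.ET.Q
import Pool.Agent.Helper450.ET.D
import Pool.Agent.Helper450.ET.E

set_option autoImplicit false

namespace Pool.Agent.Helper450.ET

theorem rigid (P : Par) {S A : Type} (h : Del P.N → List A) (hne : ∀ e, h e ≠ []) (ρ : ℕ)
    (β : ℕ → Bool) (r : Run S h ρ (WB P β)) (hc : Crosses (LN P.N) r r) (τ : ℕ)
    (hτ : τ ≤ r.n) (nd nd' : Nd S) (hnd : nd ∈ r.lev τ) (hnd' : nd' ∈ r.lev τ)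
    (hty : Tyeq h (WB P β) (WB P β) nd nd')
    (hok : xi h (WB P β) nd.b ≤ pos P (2 * P.N + 1) - 1 ∨
      pos P (2 * P.N) ≤ xi h (WB P β) nd.a) :
    seg (WB P β) (xi h (WB P β) nd'.a) (xi h (WB P β) nd'.b) =
      seg (WB P β) (xi h (WB P β) nd.a) (xi h (WB P β) nd.b) := by
  have hG := r.g1 τ hτ nd' hnd'
  obtain ⟨t1, t2, t3⟩ := hty
  rw [← t1, ← t2, ← t3] at hG
  have hL := replace_run hne (LN P.N) r hc τ hτ nd hnd _ hG
  have hb := chain_bounds _ _ _ (r.chain τ hτ) nd hnd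
  have hlen : (WB P β).length = (adr P).length := by
    unfold WB
    rw [List.length_map]
  exact replace_eq P β _ _ (xi_mono h (WB P β) hb.2.1) (by rw [← hlen]; exact xi_le _ _ _) hok _ hL

theorem pos_mono_7406 (P : Par) : Monotone (pos P) := by
  refine monotone_nat_of_le_succ fun j => ?_
  rw [pos_succ, add_assoc]
  exact Nat.le_add_right _ _

theorem kap_lt_7406 (P : Par) (j : ℕ) : kap P.N j < P.N := by
  have := P.hN
  unfold kap
  split_ifs <;> omega

theorem WB_get_7406 (P : Par) (β : ℕ → Bool) (j : ℕ) (hj : j < RR P.N) (i : ℕ)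
    (hi : i < P.M / P.S (kap P.N j)) :
    (WB P β)[pos P j + i]? = some (some (P.lab (i * P.S (kap P.N j)), β (i * P.S (kap P.N j)))) := by
  unfold WB
  rw [List.getElem?_map, adr_var P j hj i hi]
  rfl

theorem nodup_longs_7406 {S A D : Type} (h : D → List A) (W : List D) (lam : ℕ) (hlam : 1 ≤ lam)
    (v : ℕ) : ∀ (l : List (Nd S)) (u : ℕ), IsChain u l v → (longs h W lam l).Nodup := by
  classical
  intro l
  induction l with
  | nil =>
    intro u _
    simp [longs]
  | cons nd l ih =>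
    intro u hc
    obtain ⟨h1, h2, h3⟩ := hc
    unfold longs
    rw [List.filter_cons]
    split_ifs with hlong
    · rw [List.nodup_cons]
      refine ⟨?_, ih _ h3⟩
      intro hmem
      have h4 := (List.mem_filter.1 hmem).1
      have h5 := chain_bounds _ _ _ h3 nd h4
      have h6 : isLong h W lam nd := of_decide_eq_true hlong
      unfold isLong at h6
      have h7 := xi_mono h W h5.1
      omega
    · exact ih _ h3

theorem lt_of_xi_7406 {A D : Type} (h : D → List A) (W : List D) {a b : ℕ}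
    (hab : xi h W a < xi h W b) : a < b := by
  by_contra hcon
  have := xi_mono h W (not_lt.1 hcon)
  omega

/-- the codes of long nodes -/
def Pc (P : Par) {S A : Type} (h : Del P.N → List A) (W : List (Del P.N)) (F : Set (List A))
    (nd : Nd S) : (Fin (RR P.N + 1) ⊕ (Fin (RR P.N) × ((F × S) × F))) → Prop
  | Sum.inl j => xi h W nd.a ≤ pos P j - 1 ∧ pos P j - 1 < xi h W nd.b
  | Sum.inr (j, (p, s), q) => (∃ i, xi h W nd.a = pos P j + i) ∧
      xi h W nd.b ≤ pos P j + P.M / P.S (kap P.N j) ∧ pre h W nd.a = p ∧ nd.s = s ∧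
      pre h W nd.b = q

theorem code_ex_7406 (P : Par) {S A : Type} (h : Del P.N → List A) (β : ℕ → Bool)
    (F : Set (List A)) (hpre : ∀ (W : List (Del P.N)) (a : ℕ), pre h W a ∈ F) (lam : ℕ)
    (hlam : 1 ≤ lam) (nd : Nd S) (hl : isLong h (WB P β) lam nd) :
    ∃ c, Pc P h (WB P β) F nd c := by
  have hlen : (WB P β).length = (adr P).length := by
    unfold WB
    rw [List.length_map]
  unfold isLong at hl
  have hxb : xi h (WB P β) nd.b ≤ (adr P).length := by
    rw [← hlen]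
    exact xi_le _ _ _
  by_cases hh : ∃ j ≤ RR P.N, xi h (WB P β) nd.a ≤ pos P j - 1 ∧ pos P j - 1 < xi h (WB P β) nd.b
  · obtain ⟨j, hj, h1⟩ := hh
    exact ⟨Sum.inl ⟨j, by omega⟩, h1⟩
  · rcases adr_cases P (xi h (WB P β) nd.a) (by omega) with ⟨j, hj, h1⟩ | ⟨j, hj, i, hi, h1⟩
    · exfalso
      exact hh ⟨j, hj, by omega, by omega⟩
    · refine ⟨Sum.inr (⟨j, hj⟩, (⟨pre h (WB P β) nd.a, hpre _ _⟩, nd.s),
        ⟨pre h (WB P β) nd.b, hpre _ _⟩), ⟨i, h1⟩, ?_, rfl, rfl, rfl⟩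
      show xi h (WB P β) nd.b ≤ pos P j + P.M / P.S (kap P.N j)
      by_contra hcon
      refine hh ⟨j + 1, hj, ?_, ?_⟩
      · rw [pos_succ]
        omega
      · rw [pos_succ]
        omega

/-- the decisive case: long nodes of the same type in one thread start at the same index -/
theorem start_7406 (P : Par) {S A : Type} (h : Del P.N → List A)
    (hne : ∀ e, h e ≠ []) (ρ : ℕ) (β : ℕ → Bool) (r : Run S h ρ (WB P β))
    (hc : Crosses (LN P.N) r r) (lam : ℕ)
    (hNR : NR P lam β) (τ : ℕ) (hτ : τ ≤ r.n) (nd nd' : Nd S) (hnd : nd ∈ r.lev τ)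
    (hnd' : nd' ∈ r.lev τ) (hl : isLong h (WB P β) lam nd) (hl' : isLong h (WB P β) lam nd')
    (j : ℕ) (hj : j < RR P.N) (i i' : ℕ) (hi : xi h (WB P β) nd.a = pos P j + i)
    (hi' : xi h (WB P β) nd'.a = pos P j + i')
    (hb : xi h (WB P β) nd.b ≤ pos P j + P.M / P.S (kap P.N j))
    (hb' : xi h (WB P β) nd'.b ≤ pos P j + P.M / P.S (kap P.N j))
    (hty : Tyeq h (WB P β) (WB P β) nd nd')
    (hseg : seg (WB P β) (xi h (WB P β) nd'.a) (xi h (WB P β) nd'.b) =
      seg (WB P β) (xi h (WB P β) nd.a) (xi h (WB P β) nd.b)) : ¬ i < i' := by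
  intro hlt
  unfold isLong at hl hl'
  obtain ⟨t, ht, hne'⟩ := hNR (kap P.N j) (kap_lt_7406 P j) i i' hlt (by omega)
  apply hne'
  have h1 := seg_getElem? (WB P β) (xi h (WB P β) nd.a) (xi h (WB P β) nd.b) t (by omega)
  have h2 := seg_getElem? (WB P β) (xi h (WB P β) nd'.a) (xi h (WB P β) nd'.b) t (by omega)
  rw [hseg, h1, hi, hi', add_assoc, add_assoc, WB_get_7406 P β j hj (i + t) (by omega),
    WB_get_7406 P β j hj (i' + t) (by omega)] at h2
  have h3 := congrArg Prod.snd (Option.some.inj (Option.some.inj h2))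
  exact h3

theorem code_inj_7406 (P : Par) {S A : Type} (h : Del P.N → List A)
    (hne : ∀ e, h e ≠ []) (ρ : ℕ) (β : ℕ → Bool) (r : Run S h ρ (WB P β))
    (hc : Crosses (LN P.N) r r) (F : Set (List A)) (lam : ℕ) (hlam : 1 ≤ lam)
    (hNR : NR P lam β) (τ : ℕ) (hτ : τ ≤ r.n) (nd nd' : Nd S) (hnd : nd ∈ r.lev τ)
    (hnd' : nd' ∈ r.lev τ) (hl : isLong h (WB P β) lam nd) (hl' : isLong h (WB P β) lam nd')
    (c : Fin (RR P.N + 1) ⊕ (Fin (RR P.N) × ((F × S) × F)))
    (hPc : Pc P h (WB P β) F nd c) (hPc' : Pc P h (WB P β) F nd' c) : nd = nd' := by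
  have hlen : (WB P β).length = (adr P).length := by
    unfold WB
    rw [List.length_map]
  have hch := r.chain τ hτ
  have hbd := chain_bounds _ _ _ hch nd hnd
  have hbd' := chain_bounds _ _ _ hch nd' hnd'
  rcases c with j | ⟨j, ⟨p, s⟩, q⟩
  · obtain ⟨h1, h2⟩ := hPc
    obtain ⟨h3, h4⟩ := hPc'
    exact chain_eq _ _ _ hch nd nd' hnd hnd' (lt_of_xi_7406 h (WB P β) (by omega))
      (lt_of_xi_7406 h (WB P β) (by omega))
  · obtain ⟨⟨i, hi⟩, hb, h1, h2, h3⟩ := hPc
    obtain ⟨⟨i', hi'⟩, hb', h1', h2', h3'⟩ := hPc'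
    have hty : Tyeq h (WB P β) (WB P β) nd nd' :=
      ⟨h1.trans h1'.symm, h2.trans h2'.symm, h3.trans h3'.symm⟩
    have hty' : Tyeq h (WB P β) (WB P β) nd' nd :=
      ⟨h1'.trans h1.symm, h2'.trans h2.symm, h3'.trans h3.symm⟩
    have hok : xi h (WB P β) nd.b ≤ pos P (2 * P.N + 1) - 1 ∨
        pos P (2 * P.N) ≤ xi h (WB P β) nd.a := by
      rcases Nat.lt_or_ge (2 * P.N) j with h5 | h5
      · right
        have := pos_mono_7406 P (show 2 * P.N ≤ (j : ℕ) by omega)
        omega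
      · left
        have h6 := pos_mono_7406 P (show (j : ℕ) + 1 ≤ 2 * P.N + 1 by omega)
        rw [pos_succ] at h6
        omega
    have hseg := rigid P h hne ρ β r hc τ hτ nd nd' hnd hnd' hty hok
    have n1 := start_7406 P h hne ρ β r hc lam hNR τ hτ nd nd' hnd hnd' hl hl' j j.2 i i' hi hi'
      hb hb' hty hseg
    have n2 := start_7406 P h hne ρ β r hc lam hNR τ hτ nd' nd hnd' hnd hl' hl j j.2 i' i hi' hi
      hb' hb hty' hseg.symm
    have hii : i = i' := by omega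
    have hxa : xi h (WB P β) nd.a = xi h (WB P β) nd'.a := by rw [hi, hi', hii]
    have hl1 := seg_length (WB P β) (xi h (WB P β) nd.a) (xi h (WB P β) nd.b) (xi_le _ _ _)
    have hl2 := seg_length (WB P β) (xi h (WB P β) nd'.a) (xi h (WB P β) nd'.b) (xi_le _ _ _)
    rw [hseg, hl1] at hl2
    unfold isLong at hl hl'
    have hxb : xi h (WB P β) nd.b = xi h (WB P β) nd'.b := by omega
    have e1 := pre_len h (WB P β) nd.a (by omega)
    have e2 := pre_len h (WB P β) nd'.a (by omega)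
    have e3 := pre_len h (WB P β) nd.b (by omega)
    have e4 := pre_len h (WB P β) nd'.b (by omega)
    rw [hxa, hty.1, e2] at e1
    rw [hxb, hty.2.2, e4] at e3
    have hab := lt_of_xi_7406 h (WB P β) (show xi h (WB P β) nd.a < xi h (WB P β) nd.b by omega)
    exact chain_eq _ _ _ hch nd nd' hnd hnd' (by omega) (by omega)

theorem count_long (P : Par) {S A : Type} [Finite S] (h : Del P.N → List A)
    (hne : ∀ e, h e ≠ []) (ρ : ℕ) (β : ℕ → Bool) (r : Run S h ρ (WB P β))
    (hc : Crosses (LN P.N) r r) (F : Set (List A)) (hF : F.Finite)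
    (hpre : ∀ (W : List (Del P.N)) (a : ℕ), pre h W a ∈ F) (lam : ℕ) (hlam : 1 ≤ lam)
    (hNR : NR P lam β) (τ : ℕ) (hτ : τ ≤ r.n) :
    (longs h (WB P β) lam (r.lev τ)).length ≤
      RR P.N + 1 + RR P.N * (F.ncard * Nat.card S * F.ncard) := by
  classical
  haveI : Finite F := hF
  haveI := Fintype.ofFinite F
  haveI := Fintype.ofFinite S
  have hnd := nodup_longs_7406 h (WB P β) lam hlam _ (r.lev τ) 0 (r.chain τ hτ)
  have hmem : ∀ nd, nd ∈ longs h (WB P β) lam (r.lev τ) →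
      nd ∈ r.lev τ ∧ isLong h (WB P β) lam nd := by
    intro nd h1
    unfold longs at h1
    rw [List.mem_filter] at h1
    exact ⟨h1.1, of_decide_eq_true h1.2⟩
  have hcode : ∀ nd : Nd S, ∃ c, isLong h (WB P β) lam nd → Pc P h (WB P β) F nd c := by
    intro nd
    by_cases hl : isLong h (WB P β) lam nd
    · obtain ⟨c, hc⟩ := code_ex_7406 P h β F hpre lam hlam nd hl
      exact ⟨c, fun _ => hc⟩
    · exact ⟨Sum.inl 0, fun h1 => absurd h1 hl⟩
  choose f hf using hcode
  rw [← List.toFinset_card_of_nodup hnd]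
  have h1 : (longs h (WB P β) lam (r.lev τ)).toFinset.card ≤
      (Finset.univ : Finset (Fin (RR P.N + 1) ⊕ (Fin (RR P.N) × ((F × S) × F)))).card := by
    refine Finset.card_le_card_of_injOn f (fun _ _ => Finset.mem_coe.2 (Finset.mem_univ _)) ?_
    intro nd h2 nd' h3 he
    have h2' := hmem nd (List.mem_toFinset.1 (Finset.mem_coe.1 h2))
    have h3' := hmem nd' (List.mem_toFinset.1 (Finset.mem_coe.1 h3))
    have h4 := hf nd' h3'.2
    rw [← he] at h4
    exact code_inj_7406 P h hne ρ β r hc F lam hlam hNR τ hτ nd nd' h2'.1 h3'.1 h2'.2 h3'.2 _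
      (hf nd h2'.2) h4
  refine h1.trans (le_of_eq ?_)
  rw [Finset.card_univ, Fintype.card_sum, Fintype.card_prod, Fintype.card_prod, Fintype.card_prod,
    Fintype.card_fin, Fintype.card_fin, ← Nat.card_eq_fintype_card (α := F),
    ← Nat.card_eq_fintype_card (α := S), Nat.card_coe_set_eq]

end Pool.Agent.Helper450.ET
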