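import Mathlib
import Pool.Agent.Helper450.ET.Defs
import Pool.Agent.Helper450.ET.P
import Pool.Agent.Helper450.ET.Q
import Pool.Agent.Helper450.ET.D
import Pool.Agent.Helper450.ET.E

set_option autoImplicit false

namespace Pool.Agent.Helper450.ET

theorem ca_chain_flatten {S A D : Type} (h : D → List A) (W V : List D) (l : List (Nd S)) : ∀ (u v : ℕ),
    IsChain u l v → (l.map (fun nd => seg V (xi h W nd.a) (xi h W nd.b))).flatten = seg V (xi h W u) (xi h W v) := by
  induction l with
  | nil =>
    intro u v hc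
    have : u = v := hc
    subst this
    simp [seg]
  | cons nd l ih =>
    intro u v hc
    obtain ⟨h1, h2, h3⟩ := hc
    rw [List.map_cons, List.flatten_cons, ih _ _ h3, h1]
    rw [h1] at h2
    exact seg_append V _ _ _ (xi_mono h W h2) (xi_mono h W (chain_le _ _ _ h3))

theorem ca_seg_ext {D : Type} (V W : List D) (x y : ℕ) (hV : y ≤ V.length) (hW : y ≤ W.length)
    (hE : ∀ w, x ≤ w → w < y → V[w]? = W[w]?) : seg V x y = seg W x y := by
  apply List.ext_getElem?
  intro i
  by_cases hi : x + i < y
  · rw [seg_getElem? V x y i hi, seg_getElem? W x y i hi]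
    exact hE _ (Nat.le_add_right _ _) hi
  · rw [List.getElem?_eq_none, List.getElem?_eq_none]
    · rw [seg_length W x y hW]; omega
    · rw [seg_length V x y hV]; omega

theorem ca_main (P : Par) {S A : Type} (h : Del P.N → List A) (hne : ∀ e, h e ≠ [])
    (ρ : ℕ) (β β' : ℕ → Bool) (W W' : List (Del P.N)) (hW : W = WB P β) (hW' : W' = WB P β')
    (r : Run S h ρ W) (r' : Run S h ρ W')
    (hc : Crosses (LN P.N) r r') (lam : ℕ) (τ τ' : ℕ) (hτ : τ ≤ r.n)
    (hτ' : τ' ≤ r'.n)
    (hSC : SameCode h lam W W' (r.lev τ) (r'.lev τ')) (y w w' : ℕ)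
    (h1 : (adr P)[w]? = some (some y)) (h2 : (adr P)[w']? = some (some y))
    (h3 : LP h W lam (r.lev τ) w) (h4 : ¬ LP h W lam (r.lev τ) w') : β y = β' y := by
  classical
  have hlen : W'.length = W.length := by rw [hW, hW']; simp [WB]
  set cf : Nd S → List (Del P.N) := fun nd => if isLong h W lam nd then seg W' (xi h W nd.a) (xi h W nd.b)
    else seg W (xi h W nd.a) (xi h W nd.b) with hcf
  have hfor : List.Forall₂ (fun nd c => r'.G τ' (pre h W nd.a) nd.s (pre h W nd.b) c) (r.lev τ)
      ((r.lev τ).map cf) := by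
    rw [List.forall₂_map_right_iff, List.forall₂_same]
    intro nd hnd
    by_cases hl : isLong h W lam nd
    · rw [hcf]
      simp only [if_pos hl]
      have hm : (xi h W nd.a, xi h W nd.b, pre h W nd.a, nd.s, pre h W nd.b) ∈
          (longs h W lam (r.lev τ)).map (fun nd => (xi h W nd.a, xi h W nd.b, pre h W nd.a, nd.s, pre h W nd.b)) := by
        refine List.mem_map.2 ⟨nd, ?_, rfl⟩
        unfold longs
        rw [List.mem_filter]
        exact ⟨hnd, decide_eq_true hl⟩
      rw [hSC.1] at hm
      obtain ⟨nd', hnd', e⟩ := List.mem_map.1 hm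
      unfold longs at hnd'
      rw [List.mem_filter] at hnd'
      simp only [Prod.mk.injEq] at e
      obtain ⟨e1, e2, e3, e4, e5⟩ := e
      have := r'.g1 τ' hτ' nd' hnd'.1
      rwa [e1, e2, e3, e4, e5] at this
    · rw [hcf]
      simp only [if_neg hl]
      obtain ⟨nd', hnd', ⟨e1, e2, e3⟩, e4⟩ := hSC.2 nd hnd hl
      have := r'.g1 τ' hτ' nd' hnd'
      rwa [← e1, ← e2, ← e3, ← e4] at this
  have hL := hc τ hτ τ' hτ' _ hfor
  set γ : ℕ → ℕ → Bool := fun w y => if LP h W lam (r.lev τ) w then β' y else β y with hγ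
  set V : List (Del P.N) := (adr P).mapIdx (fun w o => o.map (fun y => (P.lab y, γ w y))) with hV
  have hVlen : V.length = W.length := by rw [hV, hW]; simp [WB]
  have hVget : ∀ w, V[w]? = ((adr P)[w]?).map (Option.map (fun y => (P.lab y, γ w y))) := by
    intro w
    rw [hV, List.getElem?_mapIdx]
  have hVeq : ((r.lev τ).map cf).flatten = V := by
    have e1 : (r.lev τ).map cf = (r.lev τ).map (fun nd => seg V (xi h W nd.a) (xi h W nd.b)) := by
      refine List.map_congr_left fun nd hnd => ?_
      by_cases hl : isLong h W lam nd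
      · rw [hcf]
        simp only [if_pos hl]
        refine ca_seg_ext _ _ _ _ (by rw [hlen]; exact xi_le h W _) (by rw [hVlen]; exact xi_le h W _) fun w hw1 hw2 => ?_
        have hLP : LP h W lam (r.lev τ) w := ⟨nd, hnd, hl, hw1, hw2⟩
        rw [hVget, hγ, hW']
        simp only [if_pos hLP]
        unfold WB
        rw [List.getElem?_map]
      · rw [hcf]
        simp only [if_neg hl]
        refine ca_seg_ext _ _ _ _ (xi_le h W _) (by rw [hVlen]; exact xi_le h W _) fun w hw1 hw2 => ?_
        have hLP : ¬ LP h W lam (r.lev τ) w := by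
          rintro ⟨nd', hnd', hl', hw3, hw4⟩
          have hab : nd.a < nd'.b := by
            by_contra hcon
            have := xi_mono h W (not_lt.1 hcon)
            omega
          have hba : nd'.a < nd.b := by
            by_contra hcon
            have := xi_mono h W (not_lt.1 hcon)
            omega
          have := chain_eq _ _ _ (r.chain τ hτ) nd nd' hnd hnd' hab hba
          rw [this] at hl
          exact hl hl'
        rw [hVget, hγ]
        simp only [if_neg hLP]
        rw [hW]
        unfold WB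
        rw [List.getElem?_map]
    rw [e1, ca_chain_flatten h W V _ _ _ (r.chain τ hτ), xi_zero h W hne, xi_last, ← hVlen, seg_full]
  rw [hVeq] at hL
  have := consistent P γ V hVget hL w w' y h1 h2
  rw [hγ] at this
  simp only [if_pos h3, if_neg h4] at this
  exact this.symm

theorem cross_agree (P : Par) {S A : Type} (h : Del P.N → List A) (hne : ∀ e, h e ≠ [])
    (ρ : ℕ) (β β' : ℕ → Bool) (r : Run S h ρ (WB P β)) (r' : Run S h ρ (WB P β'))
    (hc : Crosses (LN P.N) r r') (lam : ℕ) (hlam : 1 ≤ lam) (τ τ' : ℕ) (hτ : τ ≤ r.n)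
    (hτ' : τ' ≤ r'.n)
    (hSC : SameCode h lam (WB P β) (WB P β') (r.lev τ) (r'.lev τ')) (y : ℕ)
    (hy : y ∈ MM P h β lam (r.lev τ)) : β y = β' y := by
  obtain ⟨w, w', h1, h2, h3, h4⟩ := hy
  exact ca_main P h hne ρ β β' _ _ rfl rfl r r' hc lam τ τ' hτ hτ' hSC y w w' h1 h2 h3 h4

end Pool.Agent.Helper450.ET
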