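import Mathlib
import Pool.Agent.Helper450.ET.Defs
import Pool.Agent.Helper450.ET.P
import Pool.Agent.Helper450.ET.Q
import Pool.Agent.Helper450.ET.D
import Pool.Agent.Helper450.ET.E
import Pool.Agent.Helper450.ET.G
import Pool.Agent.Helper450.ET.H
import Pool.Agent.Helper450.ET.I

set_option autoImplicit false

namespace Pool.Agent.Helper450.ET

theorem WB_length (P : Par) (β : ℕ → Bool) : (WB P β).length = (adr P).length := by
  unfold WB; rw [List.length_map]

def tyF {S A D : Type} (h : D → List A) (F : Set (List A))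
    (hpre : ∀ (W : List D) (a : ℕ), pre h W a ∈ F) (W : List D) (nd : Nd S) : F × S × F :=
  (⟨pre h W nd.a, hpre W nd.a⟩, nd.s, ⟨pre h W nd.b, hpre W nd.b⟩)

theorem tyF_eq_iff {S A D : Type} (h : D → List A) (F : Set (List A))
    (hpre : ∀ (W : List D) (a : ℕ), pre h W a ∈ F) (W W' : List D) (nd nd' : Nd S) :
    tyF h F hpre W nd = tyF h F hpre W' nd' ↔ Tyeq h W W' nd nd' := by
  simp only [tyF, Tyeq, Prod.mk.injEq, Subtype.mk.injEq]

def encN {S A D : Type} (h : D → List A) (F : Set (List A))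
    (hpre : ∀ (W : List D) (a : ℕ), pre h W a ∈ F) (ℓ : ℕ) (W : List D) (hW : W.length ≤ ℓ)
    (nd : Nd S) : Fin (ℓ + 1) × Fin (ℓ + 1) × (F × S × F) :=
  (⟨xi h W nd.a, Nat.lt_succ_of_le ((xi_le h W nd.a).trans hW)⟩,
    ⟨xi h W nd.b, Nat.lt_succ_of_le ((xi_le h W nd.b).trans hW)⟩, tyF h F hpre W nd)

noncomputable def codeL {S A D : Type} (h : D → List A) (F : Set (List A))
    (hpre : ∀ (W : List D) (a : ℕ), pre h W a ∈ F) (ℓ KL lam : ℕ) (W : List D) (hW : W.length ≤ ℓ)
    (lev : List (Nd S)) : Fin KL → Option (Fin (ℓ + 1) × Fin (ℓ + 1) × (F × S × F)) :=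
  fun i => ((longs h W lam lev).map (encN h F hpre ℓ W hW))[(i : ℕ)]?

open Classical in
noncomputable def codef {S A D : Type} (h : D → List A) (F : Set (List A))
    (hpre : ∀ (W : List D) (a : ℕ), pre h W a ∈ F) (lam : ℕ) (W : List D)
    (lev : List (Nd S)) : (F × S × F) → Option (Fin lam → Option D) :=
  fun θ => if hθ : ∃ nd ∈ lev, ¬ isLong h W lam nd ∧ tyF h F hpre W nd = θ then
    some (fun i => (seg W (xi h W hθ.choose.a) (xi h W hθ.choose.b))[(i : ℕ)]?) else none

theorem codeL_eq {S A D : Type} (h : D → List A) (F : Set (List A))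
    (hpre : ∀ (W : List D) (a : ℕ), pre h W a ∈ F) (ℓ KL lam : ℕ) (W W' : List D)
    (hW : W.length ≤ ℓ) (hW' : W'.length ≤ ℓ) (lev lev' : List (Nd S))
    (hl : (longs h W lam lev).length ≤ KL) (hl' : (longs h W' lam lev').length ≤ KL)
    (heq : codeL h F hpre ℓ KL lam W hW lev = codeL h F hpre ℓ KL lam W' hW' lev') :
    (longs h W lam lev).map (fun nd => (xi h W nd.a, xi h W nd.b, pre h W nd.a, nd.s, pre h W nd.b)) =
    (longs h W' lam lev').map
      (fun nd => (xi h W' nd.a, xi h W' nd.b, pre h W' nd.a, nd.s, pre h W' nd.b)) := by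
  have h1 : (longs h W lam lev).map (encN h F hpre ℓ W hW) =
      (longs h W' lam lev').map (encN h F hpre ℓ W' hW') := by
    apply List.ext_getElem?
    intro i
    by_cases hi : i < KL
    · exact congrFun heq ⟨i, hi⟩
    · push Not at hi
      rw [List.getElem?_eq_none (by rw [List.length_map]; omega),
        List.getElem?_eq_none (by rw [List.length_map]; omega)]
  have h2 := congrArg (List.map (fun p : Fin (ℓ + 1) × Fin (ℓ + 1) × (F × S × F) =>
    ((p.1 : ℕ), (p.2.1 : ℕ), (p.2.2.1 : List A), p.2.2.2.1, (p.2.2.2.2 : List A)))) h1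
  rw [List.map_map, List.map_map] at h2
  exact h2

theorem seg_len_lt {S A D : Type} (h : D → List A) (W : List D) (lam : ℕ) (hlam : 1 ≤ lam)
    (nd : Nd S) (hnl : ¬ isLong h W lam nd) :
    (seg W (xi h W nd.a) (xi h W nd.b)).length < lam := by
  rw [seg_length W _ _ (xi_le h W nd.b)]
  unfold isLong at hnl
  omega

theorem sameCode_of (P : Par) {S A : Type} (h : Del P.N → List A)
    (hne : ∀ e, h e ≠ []) (ρ lam KL : ℕ) (F : Set (List A))
    (hpre : ∀ (W : List (Del P.N)) (a : ℕ), pre h W a ∈ F) (β β' : ℕ → Bool)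
    (r : Run S h ρ (WB P β)) (r' : Run S h ρ (WB P β')) (hc : Crosses (LN P.N) r r)
    (hlam : 1 ≤ lam) (hlam2 : lam ≤ P.M / P.S 0) (τ τ' : ℕ) (hτ : τ ≤ r.n) 
    (hl : (longs h (WB P β) lam (r.lev τ)).length ≤ KL)
    (hl' : (longs h (WB P β') lam (r'.lev τ')).length ≤ KL)
    (hL : codeL h F hpre (adr P).length KL lam (WB P β) (WB_length P β).le (r.lev τ) =
      codeL h F hpre (adr P).length KL lam (WB P β') (WB_length P β').le (r'.lev τ'))
    (hf : codef h F hpre lam (WB P β) (r.lev τ) = codef h F hpre lam (WB P β') (r'.lev τ')) :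
    SameCode h lam (WB P β) (WB P β') (r.lev τ) (r'.lev τ') := by
  refine ⟨codeL_eq h F hpre _ KL lam _ _ _ _ _ _ hl hl' hL, ?_⟩
  intro nd hnd hnl
  have hθ : ∃ nd0 ∈ r.lev τ, ¬ isLong h (WB P β) lam nd0 ∧
      tyF h F hpre (WB P β) nd0 = tyF h F hpre (WB P β) nd := ⟨nd, hnd, hnl, rfl⟩
  have e := congrFun hf (tyF h F hpre (WB P β) nd)
  unfold codef at e
  rw [dif_pos hθ] at e
  by_cases hθ' : ∃ nd0 ∈ r'.lev τ', ¬ isLong h (WB P β') lam nd0 ∧
      tyF h F hpre (WB P β') nd0 = tyF h F hpre (WB P β) nd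
  · rw [dif_pos hθ'] at e
    have e2 := Option.some.inj e
    obtain ⟨s1, s2, s3⟩ := hθ.choose_spec
    obtain ⟨t1, t2, t3⟩ := hθ'.choose_spec
    have hty : Tyeq h (WB P β) (WB P β) nd hθ.choose :=
      (tyF_eq_iff h F hpre _ _ _ _).mp s3.symm
    have hok : xi h (WB P β) nd.b ≤ pos P (2 * P.N + 1) - 1 ∨
        pos P (2 * P.N) ≤ xi h (WB P β) nd.a := by
      have h1 := pos_succ P (2 * P.N)
      have h2 : kap P.N (2 * P.N) = 0 := by
        unfold kap
        rw [if_pos (by omega)]
      rw [h2] at h1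
      unfold isLong at hnl
      omega
    have hrig := rigid P h hne ρ β r hc τ hτ nd hθ.choose hnd s1 hty hok
    refine ⟨hθ'.choose, t1, (tyF_eq_iff h F hpre _ _ _ _).mp t3.symm, ?_⟩
    rw [← hrig]
    apply List.ext_getElem?
    intro i
    by_cases hi : i < lam
    · exact congrFun e2 ⟨i, hi⟩
    · push Not at hi
      have h3 := seg_len_lt h (WB P β) lam hlam _ s2
      have h4 := seg_len_lt h (WB P β') lam hlam _ t2
      rw [List.getElem?_eq_none (by omega), List.getElem?_eq_none (by omega)]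
  · rw [dif_neg hθ'] at e
    exact absurd e (by simp)

theorem LP_of_map {S A D : Type} (h : D → List A) (W W' : List D) (lam : ℕ) (l l' : List (Nd S))
    (heq : (longs h W lam l).map
        (fun nd => (xi h W nd.a, xi h W nd.b, pre h W nd.a, nd.s, pre h W nd.b)) =
      (longs h W' lam l').map
        (fun nd => (xi h W' nd.a, xi h W' nd.b, pre h W' nd.a, nd.s, pre h W' nd.b))) (w : ℕ)
    (hw : LP h W lam l w) : LP h W' lam l' w := by
  classical
  obtain ⟨nd, hnd, h1, h2, h3⟩ := hw
  have h4 : nd ∈ longs h W lam l := by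
    unfold longs
    rw [List.mem_filter]
    exact ⟨hnd, by simpa using h1⟩
  have h5 := List.mem_map_of_mem (f := fun nd => (xi h W nd.a, xi h W nd.b, pre h W nd.a, nd.s, pre h W nd.b)) h4
  rw [heq] at h5
  obtain ⟨nd', h6, h7⟩ := List.mem_map.mp h5
  unfold longs at h6
  rw [List.mem_filter] at h6
  simp only [Prod.mk.injEq] at h7
  refine ⟨nd', h6.1, by simpa using h6.2, ?_, ?_⟩
  · rw [h7.1]; exact h2
  · rw [h7.2.1]; exact h3

theorem MM_lt (P : Par) {S A : Type} (h : Del P.N → List A) (β : ℕ → Bool) (lam : ℕ)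
    (l : List (Nd S)) (y : ℕ) (hy : y ∈ MM P h β lam l) : y < P.M := by
  obtain ⟨w, w', h1, -, -, -⟩ := hy
  have hw : w < (adr P).length := by
    by_contra hc
    rw [List.getElem?_eq_none (not_lt.mp hc)] at h1
    exact absurd h1 (by simp)
  rcases adr_cases P w hw with ⟨j, hj, hwj⟩ | ⟨j, hj, i, hi, hwj⟩
  · have h2 := adr_hash P j hj
    have h3 : pos P j - 1 = w := by omega
    rw [h3, h1] at h2
    exact absurd h2 (by simp)
  · have h2 := adr_var P j hj i hi
    rw [← hwj, h1] at h2
    have h3 : y = i * P.S (kap P.N j) := by simpa using h2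
    rw [h3]
    have hS := P.hSpos (kap P.N j)
    have h4 : (i + 1) * P.S (kap P.N j) ≤ P.M := (Nat.le_div_iff_mul_le hS).mp hi
    have h5 : (i + 1) * P.S (kap P.N j) = i * P.S (kap P.N j) + P.S (kap P.N j) := by ring
    omega

theorem agree_card (M : ℕ) (Y : Finset (Fin M)) (b0 : Fin M → Bool) (T : Finset (Fin M → Bool))
    (hT : ∀ b ∈ T, ∀ i ∈ Y, b i = b0 i) : T.card ≤ 2 ^ (M - Y.card) := by
  classical
  have h1 : T.card ≤ (Finset.univ : Finset ({i : Fin M // i ∉ Y} → Bool)).card := by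
    apply Finset.card_le_card_of_injOn (fun b i => b i.1)
    · intro b _
      exact Finset.mem_coe.mpr (Finset.mem_univ _)
    · intro b hb b' hb' heq
      funext i
      by_cases hi : i ∈ Y
      · rw [hT b hb i hi, hT b' hb' i hi]
      · exact congrFun heq ⟨i, hi⟩
  refine h1.trans (le_of_eq ?_)
  rw [Finset.card_univ, Fintype.card_fun, Fintype.card_bool]
  congr 1
  rw [Fintype.card_subtype_compl, Fintype.card_coe, Fintype.card_fin]

theorem exists_good (P : Par) {S A : Type} [Finite S] (h : Del P.N → List A)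
    (hne : ∀ e, h e ≠ []) (ρ lam δ KL KT : ℕ) (F : Set (List A)) (hF : F.Finite)
    (hpre : ∀ (W : List (Del P.N)) (a : ℕ), pre h W a ∈ F)
    (hKT : F.ncard * Nat.card S * F.ncard ≤ KT) (hKL : RR P.N + 1 + RR P.N * KT ≤ KL)
    (runs : ∀ b : Fin P.M → Bool, Run S h ρ (WB P (ext P.M b)))
    (hc : ∀ b b', Crosses (LN P.N) (runs b) (runs b'))
    (hlam : 1 ≤ lam) (hlam2 : lam ≤ P.M / P.S 0)
    (hnum : (((adr P).length + 1) ^ 2 * KT + 1) ^ KL * ((2 * P.N + 2) ^ lam + 1) ^ KT *
      2 ^ (P.M - (δ + 1)) + P.N * P.M ^ 2 * 2 ^ (P.M - lam) < 2 ^ P.M) :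
    ∃ b : Fin P.M → Bool, NR P lam (ext P.M b) ∧
      ∀ τ ≤ (runs b).n, (MM P h (ext P.M b) lam ((runs b).lev τ)).ncard ≤ δ := by
  classical
  by_contra hcon
  push Not at hcon
  choose! τ hτ1 hτ2 using hcon
  have hFc : Nat.card F = F.ncard := Nat.card_coe_set_eq F
  haveI : Fintype F := hF.fintype
  haveI : Fintype S := Fintype.ofFinite S
  have hlamM : lam ≤ P.M := hlam2.trans (Nat.div_le_self _ _)
  have hΘ : Fintype.card (F × S × F) ≤ KT := by
    rw [Fintype.card_prod, Fintype.card_prod, ← Nat.card_eq_fintype_card, hFc,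
      ← Nat.card_eq_fintype_card (α := S), ← mul_assoc]
    exact hKT
  let code : (Fin P.M → Bool) →
      (Fin KL → Option (Fin ((adr P).length + 1) × Fin ((adr P).length + 1) × (F × S × F))) ×
        ((F × S × F) → Option (Fin lam → Option (Del P.N))) := fun b =>
    (codeL h F hpre (adr P).length KL lam (WB P (ext P.M b)) (WB_length P _).le ((runs b).lev (τ b)),
      codef h F hpre lam (WB P (ext P.M b)) ((runs b).lev (τ b)))
  have hcode : ∀ b b', NR P lam (ext P.M b) → NR P lam (ext P.M b') → code b = code b' →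
      SameCode h lam (WB P (ext P.M b)) (WB P (ext P.M b')) ((runs b).lev (τ b))
        ((runs b').lev (τ b')) := by
    intro b b' hb hb' heq
    have hKL' : ∀ b, NR P lam (ext P.M b) →
        (longs h (WB P (ext P.M b)) lam ((runs b).lev (τ b))).length ≤ KL := by
      intro b hb
      refine (count_long P h hne ρ (ext P.M b) (runs b) (hc b b) F hF hpre lam hlam hb (τ b)
        (hτ1 b hb)).trans ?_
      refine le_trans ?_ hKL
      exact Nat.add_le_add_left (Nat.mul_le_mul_left _ hKT) _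
    exact sameCode_of P h hne ρ lam KL F hpre _ _ (runs b) (runs b') (hc b b) hlam hlam2 (τ b) (τ b')
      (hτ1 b hb) (hKL' b hb) (hKL' b' hb') (congrArg Prod.fst heq) (congrArg Prod.snd heq)
  -- the fibres
  have hfib : ∀ κ, ((Finset.univ.filter (fun b : Fin P.M → Bool => NR P lam (ext P.M b))).filter
      (fun b => code b = κ)).card ≤ 2 ^ (P.M - (δ + 1)) := by
    intro κ
    by_cases hemp : ((Finset.univ.filter (fun b : Fin P.M → Bool => NR P lam (ext P.M b))).filter
      (fun b => code b = κ)).Nonempty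
    · obtain ⟨b0, hb0⟩ := hemp
      rw [Finset.mem_filter, Finset.mem_filter] at hb0
      obtain ⟨⟨-, hb0⟩, hb0κ⟩ := hb0
      let Y : Finset (Fin P.M) := Finset.univ.filter
        (fun i => (i : ℕ) ∈ MM P h (ext P.M b0) lam ((runs b0).lev (τ b0)))
      have hYc : Y.card = (MM P h (ext P.M b0) lam ((runs b0).lev (τ b0))).ncard := by
        have h1 : MM P h (ext P.M b0) lam ((runs b0).lev (τ b0)) =
            ((Y.map Fin.valEmbedding : Finset ℕ) : Set ℕ) := by
          ext y
          simp only [Y, Finset.coe_map, Set.mem_image, Finset.mem_coe, Finset.mem_filter,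
            Finset.mem_univ, true_and, Fin.valEmbedding_apply]
          constructor
          · intro hy
            exact ⟨⟨y, MM_lt P h _ lam _ y hy⟩, hy, rfl⟩
          · rintro ⟨i, hi, rfl⟩
            exact hi
        rw [h1, Set.ncard_coe_finset, Finset.card_map]
      have hYδ : δ + 1 ≤ Y.card := by
        rw [hYc]
        exact hτ2 b0 hb0
      refine (agree_card P.M Y b0 _ ?_).trans (Nat.pow_le_pow_right (by norm_num) (by omega))
      intro b hb i hi
      rw [Finset.mem_filter, Finset.mem_filter] at hb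
      obtain ⟨⟨-, hb⟩, hbκ⟩ := hb
      have hSC := hcode b0 b hb0 hb (hb0κ.trans hbκ.symm)
      have hiM : (i : ℕ) ∈ MM P h (ext P.M b0) lam ((runs b0).lev (τ b0)) :=
        (Finset.mem_filter.mp hi).2
      have h2 := cross_agree P h hne ρ (ext P.M b0) (ext P.M b) (runs b0) (runs b) (hc b0 b) lam hlam
        (τ b0) (τ b) (hτ1 b0 hb0) (hτ1 b hb) hSC i hiM
      unfold ext at h2
      rw [dif_pos i.2, dif_pos i.2] at h2
      exact h2.symm
    · rw [Finset.not_nonempty_iff_eq_empty] at hemp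
      rw [hemp, Finset.card_empty]
      exact Nat.zero_le _
  have hNR : (Finset.univ.filter (fun b : Fin P.M → Bool => NR P lam (ext P.M b))).card ≤
      2 ^ (P.M - (δ + 1)) * (Finset.univ : Finset ((Fin KL → Option (Fin ((adr P).length + 1) ×
        Fin ((adr P).length + 1) × (F × S × F))) ×
        ((F × S × F) → Option (Fin lam → Option (Del P.N))))).card :=
    Finset.card_le_mul_card_image_of_maps_to (f := code) (fun b _ => Finset.mem_univ _) _
      (fun κ _ => hfib κ)
  have hcard : (Finset.univ : Finset ((Fin KL → Option (Fin ((adr P).length + 1) ×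
        Fin ((adr P).length + 1) × (F × S × F))) ×
        ((F × S × F) → Option (Fin lam → Option (Del P.N))))).card ≤
      (((adr P).length + 1) ^ 2 * KT + 1) ^ KL * ((2 * P.N + 2) ^ lam + 1) ^ KT := by
    rw [Finset.card_univ, Fintype.card_prod, Fintype.card_fun, Fintype.card_fun, Fintype.card_fin,
      Fintype.card_option, Fintype.card_prod, Fintype.card_prod, Fintype.card_fin,
      Fintype.card_option, Fintype.card_fun, Fintype.card_fin, Fintype.card_option,
      Fintype.card_option, Fintype.card_prod (Fin P.N) Bool, Fintype.card_fin, Fintype.card_bool]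
    apply Nat.mul_le_mul
    · apply Nat.pow_le_pow_left
      have : ((adr P).length + 1) * (((adr P).length + 1) * Fintype.card (F × S × F)) =
          ((adr P).length + 1) ^ 2 * Fintype.card (F × S × F) := by ring
      rw [this]
      exact Nat.add_le_add_right (Nat.mul_le_mul_left _ hΘ) _
    · have : P.N * 2 + 1 + 1 = 2 * P.N + 2 := by ring
      rw [this]
      exact Nat.pow_le_pow_right (Nat.succ_pos _) hΘ
  have hnot := NR_count P lam hlamM
  have hnc : {b : Fin P.M → Bool | ¬ NR P lam (ext P.M b)}.ncard =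
      (Finset.univ.filter (fun b : Fin P.M → Bool => ¬ NR P lam (ext P.M b))).card := by
    rw [← Set.ncard_coe_finset]
    congr 1
    ext b
    simp
  have htot : (Finset.univ.filter (fun b : Fin P.M → Bool => NR P lam (ext P.M b))).card +
      (Finset.univ.filter (fun b : Fin P.M → Bool => ¬ NR P lam (ext P.M b))).card = 2 ^ P.M := by
    rw [Finset.card_filter_add_card_filter_not, Finset.card_univ, Fintype.card_fun,
      Fintype.card_bool, Fintype.card_fin]
  rw [hnc] at hnot
  have h3 := Nat.mul_le_mul_left (2 ^ (P.M - (δ + 1))) hcard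
  have h4 : 2 ^ (P.M - (δ + 1)) * ((((adr P).length + 1) ^ 2 * KT + 1) ^ KL *
      ((2 * P.N + 2) ^ lam + 1) ^ KT) = (((adr P).length + 1) ^ 2 * KT + 1) ^ KL *
      ((2 * P.N + 2) ^ lam + 1) ^ KT * 2 ^ (P.M - (δ + 1)) := by ring
  rw [h4] at h3
  omega

end Pool.Agent.Helper450.ET
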