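import Mathlib
import Pool.Agent.Helper450.ET.Defs
import Pool.Agent.Helper450.ET.P
import Pool.Agent.Helper450.ET.Q
import Pool.Agent.Helper450.ET.D

set_option autoImplicit false

namespace Pool.Agent.Helper450.ET

theorem k1_step (p : ℕ → Prop) (n : ℕ) : ¬ p 0 → p n → ∃ k < n, ¬ p k ∧ p (k + 1) := by
  induction n with
  | zero => intro h0 h1; exact absurd h1 h0
  | succ n ih =>
    intro h0 h1
    by_cases hn : p n
    · obtain ⟨k, hk, h2⟩ := ih h0 hn
      exact ⟨k, by omega, h2⟩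
    · exact ⟨n, by omega, hn, h1⟩

theorem k1_blk (D : Finset ℕ) (s : ℕ) (hs : 0 < s) (F : Finset ℕ) (K : ℕ) (hK : F.card ≤ K)
    (hF : ∀ e, e ∉ D → e + 1 ∈ D → e + 1 ∈ F) :
    D.card ≤ ((D.filter (fun z => s ∣ z)).card + K) * s := by
  have hsub : D ⊆ ((D.filter (fun z => s ∣ z)) ∪ F).biUnion (fun e => Finset.Ico e (e + s)) := by
    intro z hz
    rw [Finset.mem_biUnion]
    have hg1 : s * (z / s) ≤ z := Nat.mul_div_le z s
    have hg2 : z < s * (z / s) + s := by
      have := Nat.div_add_mod z s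
      have := Nat.mod_lt z hs
      omega
    by_cases hg : s * (z / s) ∈ D
    · exact ⟨s * (z / s), Finset.mem_union_left _ (Finset.mem_filter.2 ⟨hg, dvd_mul_right _ _⟩),
        Finset.mem_Ico.2 ⟨hg1, hg2⟩⟩
    · obtain ⟨k, hk, h1, h2⟩ := k1_step (fun k => s * (z / s) + k ∈ D) (z - s * (z / s))
        (by simpa using hg) (by
          show s * (z / s) + (z - s * (z / s)) ∈ D
          rw [Nat.add_sub_cancel' hg1]; exact hz)
      refine ⟨s * (z / s) + k + 1, Finset.mem_union_right _ (hF _ h1 h2), Finset.mem_Ico.2 ?_⟩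
      constructor <;> omega
  calc D.card ≤ _ := Finset.card_le_card hsub
    _ ≤ ((D.filter (fun z => s ∣ z)) ∪ F).card * s :=
        Finset.card_biUnion_le_card_mul _ _ _ (fun e _ => by rw [Nat.card_Ico]; omega)
    _ ≤ ((D.filter (fun z => s ∣ z)).card + K) * s := by
        apply Nat.mul_le_mul_right
        exact (Finset.card_union_le _ _).trans (Nat.add_le_add_left hK _)

theorem k1_LP_step {S A D : Type} {h : D → List A} {ρ : ℕ} {W : List D} (r : Run S h ρ W)
    (lam : ℕ) (τ : ℕ) (hτ : τ < r.n) (w : ℕ) (hw : LP h W lam (r.lev (τ + 1)) w) :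
    LP h W lam (r.lev τ) w := by
  obtain ⟨nd', hnd', hl, h1, h2⟩ := hw
  obtain ⟨nd, hnd, ha, hb⟩ := parent r τ hτ nd' hnd'
  have m1 := xi_mono h W ha
  have m2 := xi_mono h W hb
  unfold isLong at hl
  refine ⟨nd, hnd, ?_, ?_, ?_⟩
  · unfold isLong; omega
  · omega
  · omega

theorem k1_LP_anti {S A D : Type} {h : D → List A} {ρ : ℕ} {W : List D} (r : Run S h ρ W)
    (lam : ℕ) (x y : ℕ) (hxy : x ≤ y) (w : ℕ) : y ≤ r.n → LP h W lam (r.lev y) w →
    LP h W lam (r.lev x) w := by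
  induction y, hxy using Nat.le_induction with
  | base => intro _ hw; exact hw
  | succ y hxy ih =>
    intro hy hw
    exact ih (by omega) (k1_LP_step r lam y (by omega) w hw)

theorem k1_mem_Us (P : Par) {S A : Type} (h : Del P.N → List A) (β : ℕ → Bool) (lam : ℕ)
    (l : List (Nd S)) (y : ℕ) :
    y ∈ Us P h β lam l ↔ y < P.M ∧ LP h (WB P β) lam l (pos P (2 * P.N - 1) + y) := by
  classical
  unfold Us
  rw [Finset.mem_filter, Finset.mem_range]

theorem k1_mem_longs {S A D : Type} (h : D → List A) (W : List D) (lam : ℕ)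
    (l : List (Nd S)) (nd : Nd S) : nd ∈ longs h W lam l ↔ nd ∈ l ∧ isLong h W lam nd := by
  classical
  unfold longs
  rw [List.mem_filter, decide_eq_true_iff]

theorem k1_startA (P : Par) {S A : Type} (h : Del P.N → List A) (β : ℕ → Bool) (lam : ℕ)
    (l : List (Nd S)) (e : ℕ) (he : e + 1 ∈ Us P h β lam l) (he' : e ∉ Us P h β lam l) :
    e + 1 ∈ ((longs h (WB P β) lam l).map
      (fun nd => xi h (WB P β) nd.a - pos P (2 * P.N - 1))).toFinset := by
  rw [k1_mem_Us] at he he'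
  obtain ⟨hM, nd, hnd, hl, h1, h2⟩ := he
  rw [List.mem_toFinset, List.mem_map]
  refine ⟨nd, (k1_mem_longs _ _ _ _ _).2 ⟨hnd, hl⟩, ?_⟩
  by_contra hne
  apply he'
  refine ⟨by omega, nd, hnd, hl, ?_, ?_⟩
  · omega
  · omega

theorem k1_endB (P : Par) {S A : Type} (h : Del P.N → List A) (β : ℕ → Bool) (lam : ℕ)
    (l : List (Nd S)) (e : ℕ) (hM : e + 1 < P.M) (he : e ∈ Us P h β lam l)
    (he' : e + 1 ∉ Us P h β lam l) :
    e + 1 ∈ ((longs h (WB P β) lam l).map
      (fun nd => xi h (WB P β) nd.b - pos P (2 * P.N - 1))).toFinset := by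
  rw [k1_mem_Us] at he he'
  obtain ⟨_, nd, hnd, hl, h1, h2⟩ := he
  rw [List.mem_toFinset, List.mem_map]
  refine ⟨nd, (k1_mem_longs _ _ _ _ _).2 ⟨hnd, hl⟩, ?_⟩
  by_contra hne
  apply he'
  refine ⟨hM, nd, hnd, hl, ?_, ?_⟩
  · omega
  · omega

theorem k1_card {S : Type} (l : List (Nd S)) (f : Nd S → ℕ) (K : ℕ) (hK : l.length ≤ K) :
    (l.map f).toFinset.card ≤ K := by
  refine (List.toFinset_card_le _).trans ?_
  rw [List.length_map]
  exact hK

theorem Us_anti (P : Par) {S A : Type} (h : Del P.N → List A) (ρ : ℕ) (β : ℕ → Bool)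
    (r : Run S h ρ (WB P β)) (lam : ℕ) (x y : ℕ) (hxy : x ≤ y) (hy : y ≤ r.n) :
    Us P h β lam (r.lev y) ⊆ Us P h β lam (r.lev x) := by
  intro z hz
  rw [k1_mem_Us] at hz ⊢
  exact ⟨hz.1, k1_LP_anti r lam x y hxy _ hy hz.2⟩

theorem Us_block (P : Par) {S A : Type} (h : Del P.N → List A) (ρ : ℕ) (β : ℕ → Bool)
    (r : Run S h ρ (WB P β)) (lam KL : ℕ) (hlam : 1 ≤ lam) (x y : ℕ) (hxy : x ≤ y)
    (hy : y ≤ r.n) (hK : ∀ τ ≤ r.n, (longs h (WB P β) lam (r.lev τ)).length ≤ KL) (t : ℕ)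
    (ht : t < P.N) :
    (Us P h β lam (r.lev x) \ Us P h β lam (r.lev y)).card ≤
      (((Us P h β lam (r.lev x) \ Us P h β lam (r.lev y)).filter
        (fun z => P.S t ∣ z)).card + 2 * KL) * P.S t := by
  refine k1_blk _ _ (P.hSpos t)
    (((longs h (WB P β) lam (r.lev x)).map
      (fun nd => xi h (WB P β) nd.a - pos P (2 * P.N - 1))).toFinset ∪
    ((longs h (WB P β) lam (r.lev y)).map
      (fun nd => xi h (WB P β) nd.b - pos P (2 * P.N - 1))).toFinset) _ ?_ ?_
  · refine (Finset.card_union_le _ _).trans ?_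
    have h1 := k1_card (longs h (WB P β) lam (r.lev x))
      (fun nd => xi h (WB P β) nd.a - pos P (2 * P.N - 1)) KL (hK x (by omega))
    have h2 := k1_card (longs h (WB P β) lam (r.lev y))
      (fun nd => xi h (WB P β) nd.b - pos P (2 * P.N - 1)) KL (hK y hy)
    omega
  · intro e he he1
    rw [Finset.mem_sdiff] at he he1
    obtain ⟨h1, h2⟩ := he1
    by_cases hx : e ∈ Us P h β lam (r.lev x)
    · have hy' : e ∈ Us P h β lam (r.lev y) := by
        by_contra hcon
        exact he ⟨hx, hcon⟩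
      apply Finset.mem_union_right
      exact k1_endB P h β lam _ e ((k1_mem_Us _ _ _ _ _ _).1 h1).1 hy' h2
    · apply Finset.mem_union_left
      exact k1_startA P h β lam _ e h1 hx

theorem Us_compl (P : Par) {S A : Type} (h : Del P.N → List A) (ρ : ℕ) (β : ℕ → Bool)
    (r : Run S h ρ (WB P β)) (lam KL : ℕ) (hlam : 1 ≤ lam) (x : ℕ) (hx : x ≤ r.n)
    (hK : ∀ τ ≤ r.n, (longs h (WB P β) lam (r.lev τ)).length ≤ KL) :
    (Finset.range P.M \ Us P h β lam (r.lev x)).card ≤
      (((Finset.range P.M \ Us P h β lam (r.lev x)).filter (fun z => P.S 0 ∣ z)).card + KL) *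
        P.S 0 ∧
    (Us P h β lam (r.lev x)).card ≤
      (((Us P h β lam (r.lev x)).filter (fun z => P.S 0 ∣ z)).card + KL) * P.S 0 := by
  constructor
  · refine k1_blk _ _ (P.hSpos 0)
      ((longs h (WB P β) lam (r.lev x)).map
        (fun nd => xi h (WB P β) nd.b - pos P (2 * P.N - 1))).toFinset KL
      (k1_card _ _ _ (hK x hx)) ?_
    intro e he he1
    rw [Finset.mem_sdiff, Finset.mem_range] at he he1
    obtain ⟨h1, h2⟩ := he1
    have he' : e ∈ Us P h β lam (r.lev x) := by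
      by_contra hcon
      exact he ⟨by omega, hcon⟩
    exact k1_endB P h β lam _ e h1 he' h2
  · refine k1_blk _ _ (P.hSpos 0)
      ((longs h (WB P β) lam (r.lev x)).map
        (fun nd => xi h (WB P β) nd.a - pos P (2 * P.N - 1))).toFinset KL
      (k1_card _ _ _ (hK x hx)) ?_
    intro e he he1
    exact k1_startA P h β lam _ e he1 he

end Pool.Agent.Helper450.ET
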