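import Mathlib
import Pool.Agent.Helper450.ET.Defs
import Pool.Agent.Helper450.ET.D

set_option autoImplicit false

namespace Pool.Agent.Helper450.ET

theorem kap_even (N t : ℕ) : kap N (2 * t) = 0 := by
  unfold kap
  rw [if_pos (by omega)]

theorem kap_odd (N t : ℕ) (ht : t + 1 ≤ N) : kap N (2 * t + 1) = t := by
  unfold kap
  rw [if_neg (by omega)]
  have h1 : (2 * t + 1 - 1) / 2 = t := by omega
  rw [h1]
  exact min_eq_left (by omega)

theorem kap_last (N : ℕ) (hN : 2 ≤ N) : kap N (2 * N - 1) = N - 1 := by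
  have h : 2 * N - 1 = 2 * (N - 1) + 1 := by omega
  rw [h]
  exact kap_odd N (N - 1) (by omega)

theorem S_dvd0 (P : Par) (t : ℕ) : P.S t ∣ P.S 0 := by
  induction t with
  | zero => exact dvd_rfl
  | succ t ih => exact (P.hSdvd t).trans ih

theorem S_dvdM (P : Par) (t : ℕ) : P.S t ∣ P.M := (S_dvd0 P t).trans P.hSM

theorem adr_full (P : Par) (y : ℕ) (hy : y < P.M) :
    (adr P)[pos P (2 * P.N - 1) + y]? = some (some y) := by
  have hN := P.hN
  have h := adr_var P (2 * P.N - 1) (by unfold RR; omega) y (by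
    rw [kap_last P.N hN, P.hS1, Nat.div_one]; exact hy)
  rw [kap_last P.N hN, P.hS1, mul_one] at h
  exact h

theorem adr_lt (P : Par) (w y : ℕ) (h : (adr P)[w]? = some (some y)) : y < P.M := by
  have hw : w < (adr P).length := by
    by_contra hc
    rw [List.getElem?_eq_none (not_lt.mp hc)] at h
    exact absurd h (by simp)
  rcases adr_cases P w hw with ⟨j, hj, hjw⟩ | ⟨j, hj, i, hi, hjw⟩
  · have h1 := adr_hash P j hj
    rw [← hjw, Nat.add_sub_cancel, h] at h1
    exact absurd h1 (by simp)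
  · have h1 := adr_var P j hj i hi
    rw [← hjw, h] at h1
    have h2 : y = i * P.S (kap P.N j) := by simpa using h1
    have hS := P.hSpos (kap P.N j)
    have h3 := (Nat.le_div_iff_mul_le hS).mp (Nat.succ_le_of_lt hi)
    rw [Nat.succ_mul] at h3
    omega

theorem MM_fin {S A : Type} (P : Par) (h : Del P.N → List A) (β : ℕ → Bool) (lam : ℕ)
    (l : List (Nd S)) : (MM P h β lam l).Finite := by
  refine (Set.finite_Iio P.M).subset ?_
  rintro y ⟨w, w', h1, _⟩
  exact adr_lt P w y h1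

theorem card_MM {S A : Type} (P : Par) (h : Del P.N → List A) (β : ℕ → Bool) (lam : ℕ)
    (l : List (Nd S)) (s : Finset ℕ) (hs : ∀ z ∈ s, z ∈ MM P h β lam l) :
    s.card ≤ (MM P h β lam l).ncard := by
  rw [← Set.ncard_coe_finset s]
  exact Set.ncard_le_ncard (fun z hz => hs z (Finset.mem_coe.mp hz)) (MM_fin P h β lam l)

theorem mem_Us {S A : Type} (P : Par) (h : Del P.N → List A) (β : ℕ → Bool) (lam : ℕ)
    (l : List (Nd S)) (y : ℕ) : y ∈ Us P h β lam l ↔
      y < P.M ∧ LP h (WB P β) lam l (pos P (2 * P.N - 1) + y) := by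
  classical
  unfold Us
  rw [Finset.mem_filter, Finset.mem_range]

/-- if a node covers a thread of class 0 completely, the lost multiples are mismatched -/
theorem cover_even (P : Par) {S A : Type} (h : Del P.N → List A) (β : ℕ → Bool)
    (lam δ : ℕ) (l : List (Nd S)) (s : ℕ) (hs : 2 * s < RR P.N)
    (hMM : (MM P h β lam l).ncard ≤ δ)
    (hD : δ < ((Finset.range P.M \ Us P h β lam l).filter (fun z => P.S 0 ∣ z)).card)
    (hcov : ∀ i < P.M / P.S 0, LP h (WB P β) lam l (pos P (2 * s) + i)) : False := by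
  have h1 := card_MM P h β lam l ((Finset.range P.M \ Us P h β lam l).filter (fun z => P.S 0 ∣ z))
    (by
      intro z hz
      rw [Finset.mem_filter, Finset.mem_sdiff, Finset.mem_range, mem_Us] at hz
      obtain ⟨⟨hz1, hz2⟩, i, hi⟩ := hz
      have hiM : i < P.M / P.S 0 := by
        rw [Nat.lt_div_iff_mul_lt_of_dvd (P.hSpos 0).ne' P.hSM]
        rw [hi] at hz1
        linarith [mul_comm i (P.S 0)]
      refine ⟨pos P (2 * s) + i, pos P (2 * P.N - 1) + z, ?_, adr_full P z hz1, hcov i hiM,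
        fun hc => hz2 ⟨hz1, hc⟩⟩
      have h2 := adr_var P (2 * s) hs i (by rw [kap_even]; exact hiM)
      rw [kap_even, mul_comm i (P.S 0), ← hi] at h2
      exact h2)
  omega

/-- long nodes touching the designated thread of class `t` stay between its flanks -/
theorem reg (P : Par) {S A : Type} (h : Del P.N → List A) (β : ℕ → Bool)
    (lam δ : ℕ) (l : List (Nd S)) (t : ℕ) (ht : t + 2 ≤ P.N)
    (hMM : (MM P h β lam l).ncard ≤ δ)
    (hD : δ < ((Finset.range P.M \ Us P h β lam l).filter (fun z => P.S 0 ∣ z)).card)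
    (nd : Nd S) (hnd : nd ∈ l) (hlong : isLong h (WB P β) lam nd)
    (htouch : Touch P h (WB P β) (2 * t + 1) nd) :
    pos P (2 * t) ≤ xi h (WB P β) nd.a ∧ xi h (WB P β) nd.b ≤ pos P (2 * t + 3) - 1 := by
  have hN := P.hN
  obtain ⟨ht1, ht2⟩ := htouch
  have e1 := pos_succ P (2 * t)
  have e3 := pos_succ P (2 * t + 2)
  rw [kap_even] at e1
  have hk : kap P.N (2 * t + 2) = 0 := by
    have := kap_even P.N (t + 1)
    rwa [show 2 * (t + 1) = 2 * t + 2 from by ring] at this
  rw [hk] at e3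
  have e2 : 2 * t + 1 + 1 = 2 * t + 2 := by ring
  have e4 : 2 * t + 2 + 1 = 2 * t + 3 := by ring
  rw [e2] at ht1
  rw [e4] at e3
  constructor
  · by_contra hc
    refine cover_even P h β lam δ l t (by unfold RR; omega) hMM hD (fun i hi => ?_)
    exact ⟨nd, hnd, hlong, by omega, by omega⟩
  · by_contra hc
    refine cover_even P h β lam δ l (t + 1) (by unfold RR; omega) hMM hD (fun i hi => ?_)
    rw [show 2 * (t + 1) = 2 * t + 2 from by ring]
    exact ⟨nd, hnd, hlong, by omega, by omega⟩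
theorem idx_of (P : Par) (t z : ℕ) (hz : z < P.M) (hd : P.S t ∣ z) :
    ∃ i, i < P.M / P.S t ∧ z = i * P.S t := by
  obtain ⟨i, hi⟩ := hd
  refine ⟨i, ?_, by rw [hi, mul_comm]⟩
  rw [Nat.lt_div_iff_mul_lt_of_dvd (P.hSpos t).ne' (S_dvdM P t)]
  rw [hi] at hz
  linarith [mul_comm i (P.S t)]

theorem adr_odd (P : Par) (t : ℕ) (ht : t + 1 ≤ P.N) (i : ℕ) (hi : i < P.M / P.S t) :
    (adr P)[pos P (2 * t + 1) + i]? = some (some (i * P.S t)) := by
  have h2 := adr_var P (2 * t + 1) (by unfold RR; omega) i (by rw [kap_odd P.N t ht]; exact hi)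
  rw [kap_odd P.N t ht] at h2
  exact h2

/-- there is a long node touching the designated thread of class `t` -/
theorem exists_touch (P : Par) {S A : Type} (h : Del P.N → List A) (β : ℕ → Bool)
    (lam δ : ℕ) (l : List (Nd S)) (t : ℕ) (ht : t + 1 ≤ P.N)
    (hMM : (MM P h β lam l).ncard ≤ δ)
    (hD : δ < ((Us P h β lam l).filter (fun z => P.S 0 ∣ z)).card) :
    ∃ nd ∈ l, isLong h (WB P β) lam nd ∧ Touch P h (WB P β) (2 * t + 1) nd := by
  classical
  have hex : ∃ z ∈ (Us P h β lam l).filter (fun z => P.S 0 ∣ z), z ∉ MM P h β lam l := by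
    by_contra hc
    push Not at hc
    have := card_MM P h β lam l _ hc
    omega
  obtain ⟨z, hz, hzM⟩ := hex
  rw [Finset.mem_filter, mem_Us] at hz
  obtain ⟨⟨hz1, hz2⟩, hz3⟩ := hz
  obtain ⟨i, hi, hzi⟩ := idx_of P t z hz1 ((S_dvd0 P t).trans hz3)
  have hLP : LP h (WB P β) lam l (pos P (2 * t + 1) + i) := by
    by_contra hno
    refine hzM ⟨pos P (2 * P.N - 1) + z, pos P (2 * t + 1) + i, adr_full P z hz1, ?_, hz2, hno⟩
    rw [adr_odd P t ht i hi, hzi]
  obtain ⟨nd, hnd, hlong, ha, hb⟩ := hLP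
  refine ⟨nd, hnd, hlong, ?_, ?_⟩
  · have e := pos_succ P (2 * t + 1)
    rw [kap_odd P.N t ht] at e
    rw [e]
    omega
  · omega
/-- if the long nodes touching the thread of class `t` are the same at two levels, then few
multiples of `S t` are lost between them in the full thread -/
theorem sync_heads (P : Par) {S A : Type} (h : Del P.N → List A) (β : ℕ → Bool)
    (lam δ : ℕ) (l l' : List (Nd S)) (t : ℕ) (ht : t + 1 ≤ P.N)
    (hMM : (MM P h β lam l).ncard ≤ δ) (hMM' : (MM P h β lam l').ncard ≤ δ)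
    (hsame : ∀ i < P.M / P.S t, LP h (WB P β) lam l (pos P (2 * t + 1) + i) →
      LP h (WB P β) lam l' (pos P (2 * t + 1) + i)) :
    ((Us P h β lam l \ Us P h β lam l').filter (fun z => P.S t ∣ z)).card ≤ 2 * δ := by
  classical
  have hsub : ∀ z ∈ (Us P h β lam l \ Us P h β lam l').filter (fun z => P.S t ∣ z),
      z ∈ MM P h β lam l ∪ MM P h β lam l' := by
    intro z hz
    rw [Finset.mem_filter, Finset.mem_sdiff, mem_Us, mem_Us] at hz
    obtain ⟨⟨⟨hz1, hz2⟩, hz3⟩, hd⟩ := hz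
    obtain ⟨i, hi, hzi⟩ := idx_of P t z hz1 hd
    have hadr : (adr P)[pos P (2 * t + 1) + i]? = some (some z) := by
      rw [adr_odd P t ht i hi, hzi]
    by_cases hc : LP h (WB P β) lam l (pos P (2 * t + 1) + i)
    · right
      exact ⟨pos P (2 * t + 1) + i, pos P (2 * P.N - 1) + z, hadr, adr_full P z hz1,
        hsame i hi hc, fun h' => hz3 ⟨hz1, h'⟩⟩
    · left
      exact ⟨pos P (2 * P.N - 1) + z, pos P (2 * t + 1) + i, adr_full P z hz1, hadr, hz2, hc⟩
  rw [← Set.ncard_coe_finset]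
  have h1 := Set.ncard_le_ncard (s := (((Us P h β lam l \ Us P h β lam l').filter
    (fun z => P.S t ∣ z) : Finset ℕ) : Set ℕ)) (t := MM P h β lam l ∪ MM P h β lam l')
    (fun z hz => hsub z (Finset.mem_coe.mp hz)) ((MM_fin P h β lam l).union (MM_fin P h β lam l'))
  have h2 := Set.ncard_union_le (MM P h β lam l) (MM P h β lam l')
  omega

end Pool.Agent.Helper450.ET
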