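import Mathlib
import Pool.Agent.Helper450.ET.Defs
import Pool.Agent.Helper450.ET.P
import Pool.Agent.Helper450.ET.Q

set_option autoImplicit false

namespace Pool.Agent.Helper450.ET

theorem chain_new {S : Type} (l : List (Nd S)) : ∀ (u v : ℕ), IsChain u l v → u < v →
    (∀ nd ∈ l, ¬ (nd.a = u ∧ nd.b = v)) → ∃ nd ∈ l, u < nd.b ∧ nd.b < v := by
  induction l with
  | nil =>
    intro u v h huv _
    have : u = v := h
    omega
  | cons nd l ih =>
    intro u v h huv hno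
    obtain ⟨h1, h2, h3⟩ := h
    rcases Nat.eq_or_lt_of_le h2 with h4 | h4
    · have h5 : nd.b = u := by omega
      rw [h5] at h3
      obtain ⟨nd', hnd', h6, h7⟩ := ih u v h3 huv
        (fun nd' hnd' => hno nd' (List.mem_cons_of_mem _ hnd'))
      exact ⟨nd', List.mem_cons_of_mem _ hnd', h6, h7⟩
    · have h5 := chain_le _ _ _ h3
      have h6 : nd.b ≠ v := fun h => hno nd List.mem_cons_self ⟨h1, h⟩
      exact ⟨nd, List.mem_cons_self, by omega, by omega⟩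

theorem forall2_left {α β : Type} {R : α → β → Prop} {l : List α} {l' : List β}
    (h : List.Forall₂ R l l') {a : α} (ha : a ∈ l) : ∃ b ∈ l', R a b := by
  induction h with
  | nil => simp at ha
  | cons h1 _ ih =>
    rw [List.mem_cons] at ha
    rcases ha with rfl | ha
    · exact ⟨_, List.mem_cons_self, h1⟩
    · obtain ⟨b, hb, hR⟩ := ih ha
      exact ⟨b, List.mem_cons_of_mem _ hb, hR⟩

theorem end_not_cut {S : Type} (u v : ℕ) (l : List (Nd S)) (hc : IsChain u l v) (nd0 nd : Nd S)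
    (h0 : nd0 ∈ l) (h : nd ∈ l) (h1 : nd.a < nd0.b) (h2 : nd0.b < nd.b) : False := by
  have hb := chain_bounds u v l hc nd0 h0
  have := chain_eq u v l hc nd nd0 h h0 h1 (by omega)
  subst this
  omega

theorem prog_count_gen {D : Type} {S A : Type} (h : D → List A) (ρ : ℕ) (W : List D)
    (r : Run S h ρ W) (C : ℕ)
    (hC : ∀ e, (h e).length ≤ C) (x0 x1 : ℕ) (F : Finset ℕ)
    (hF : ∀ τ ∈ F, τ < r.n ∧ ∃ nd ∈ r.lev τ, x0 ≤ xi h W nd.a ∧
      xi h W nd.b ≤ x1 ∧ nd.a < nd.b ∧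
      ¬ ∃ nd' ∈ r.lev (τ + 1), nd'.a = nd.a ∧ nd'.b = nd.b) :
    F.card ≤ C * (x1 + 1 - x0) := by
  classical
  have hper : ∀ c τ', τ' ≤ r.n → (∃ nd ∈ r.lev τ', nd.a < c ∧ c < nd.b) → ∀ τ ≤ τ',
      ∃ nd ∈ r.lev τ, nd.a < c ∧ c < nd.b := by
    intro c τ'
    induction τ' with
    | zero =>
      intro _ h τ hτ
      have : τ = 0 := by omega
      rw [this]; exact h
    | succ t ih =>
      intro ht h τ hτ
      rcases Nat.eq_or_lt_of_le hτ with h1 | h1
      · rw [h1]; exact h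
      · apply ih (by omega) _ τ (by omega)
        obtain ⟨nd', hnd', h2, h3⟩ := h
        obtain ⟨nd, hnd, h4, h5⟩ := parent r t (by omega) nd' hnd'
        exact ⟨nd, hnd, by omega, by omega⟩
  have key : ∀ τ ∈ F, ∃ c, Hh h W x0 < c ∧ c < Hh h W (x1 + 1) ∧ x0 ≤ x1 ∧
      (∃ nd ∈ r.lev τ, nd.a < c ∧ c < nd.b) ∧ ¬ (∃ nd ∈ r.lev (τ + 1), nd.a < c ∧ c < nd.b) := by
    intro τ hτ
    obtain ⟨hτn, nd, hnd, hx0, hx1, hab, hno⟩ := hF τ hτ
    obtain ⟨parts, hparts, hlev⟩ := r.refine τ hτn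
    obtain ⟨l, hl, hchain, _⟩ := forall2_left hparts hnd
    have hsub : ∀ nd' ∈ l, nd' ∈ r.lev (τ + 1) := by
      intro nd' hnd'
      rw [hlev]
      exact List.mem_flatten.2 ⟨l, hl, hnd'⟩
    obtain ⟨nd', hnd', h1, h2⟩ := chain_new l nd.a nd.b hchain hab
      (fun nd' hnd' hh => hno ⟨nd', hsub nd' hnd', hh⟩)
    have hb := chain_bounds 0 _ _ (r.chain τ hτn.le) nd hnd
    have e1 : Hh h W x0 ≤ nd.a := (Hh_mono h W hx0).trans (Hh_xi_le h W nd.a)
    have e2 : nd.b ≤ Hh h W (x1 + 1) := by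
      rcases Nat.lt_or_ge (xi h W nd.b) W.length with h3 | h3
      · exact (lt_Hh_xi h W nd.b h3).le.trans (Hh_mono h W (by omega))
      · have h4 := xi_le h W nd.b
        have h5 : xi h W nd.b = W.length := by omega
        calc nd.b ≤ (W.flatMap h).length := hb.2.2
          _ = Hh h W W.length := (Hh_length h W).symm
          _ ≤ Hh h W (x1 + 1) := Hh_mono h W (by omega)
    have e3 : xi h W nd.a ≤ xi h W nd.b := xi_mono h W hab.le
    refine ⟨nd'.b, by omega, by omega, by omega, ⟨nd, hnd, h1, h2⟩, ?_⟩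
    rintro ⟨nd2, hnd2, h3, h4⟩
    exact end_not_cut 0 _ _ (r.chain (τ + 1) hτn) nd' nd2 (hsub nd' hnd') hnd2 h3 h4
  rcases F.eq_empty_or_nonempty with hE | ⟨τ0, hτ0⟩
  · rw [hE]; simp
  · obtain ⟨_, _, _, hx01, _⟩ := key τ0 hτ0
    choose! c hc using key
    have hcard : F.card ≤ (Finset.Ioo (Hh h W x0) (Hh h W (x1 + 1))).card := by
      apply Finset.card_le_card_of_injOn c
      · intro τ hτ
        have := hc τ hτ
        exact Finset.mem_coe.2 (Finset.mem_Ioo.2 ⟨this.1, this.2.1⟩)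
      · have hlt : ∀ τ ∈ F, ∀ τ' ∈ F, τ < τ' → c τ ≠ c τ' := by
          intro τ hτ τ' hτ' hlt heq
          obtain ⟨_, _, _, _, h2⟩ := hc τ hτ
          obtain ⟨_, _, _, h3, _⟩ := hc τ' hτ'
          apply h2
          rw [heq]
          exact hper _ τ' (hF τ' hτ').1.le h3 (τ + 1) hlt
        intro τ hτ τ' hτ' heq
        rcases lt_trichotomy τ τ' with h1 | h1 | h1
        · exact absurd heq (hlt τ hτ τ' hτ' h1)
        · exact h1
        · exact absurd heq.symm (hlt τ' hτ' τ hτ h1)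
    rw [Nat.card_Ioo] at hcard
    have hlip := Hh_lip h W C hC x0 (x1 + 1) (by omega)
    omega

/-- number of progress steps -/
theorem prog_count (P : Par) {S A : Type} (h : Del P.N → List A) (hne : ∀ e, h e ≠ []) (ρ : ℕ)
    (β : ℕ → Bool) (r : Run S h ρ (WB P β)) (lam : ℕ) (hlam : 1 ≤ lam) (C : ℕ)
    (hC : ∀ e, (h e).length ≤ C) (x0 x1 : ℕ) (F : Finset ℕ)
    (hF : ∀ τ ∈ F, τ < r.n ∧ ∃ nd ∈ r.lev τ, x0 ≤ xi h (WB P β) nd.a ∧
      xi h (WB P β) nd.b ≤ x1 ∧ nd.a < nd.b ∧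
      ¬ ∃ nd' ∈ r.lev (τ + 1), nd'.a = nd.a ∧ nd'.b = nd.b) :
    F.card ≤ C * (x1 + 1 - x0) :=
  prog_count_gen h ρ (WB P β) r C hC x0 x1 F hF

end Pool.Agent.Helper450.ET
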