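import Mathlib
import Pool.Agent.Helper450.ET.Defs
import Pool.Agent.Helper450.ET.P
import Pool.Agent.Helper450.ET.D

set_option autoImplicit false

namespace Pool.Agent.Helper450.ET

theorem aux_pos_mono (P : Par) : StrictMono (pos P) := by
  apply strictMono_nat_of_lt_succ
  intro j
  rw [pos_succ]
  exact Nat.lt_succ_of_le (Nat.le_add_right _ _)

theorem aux_pos_pos (P : Par) (j : ℕ) : 0 < pos P j := by
  unfold pos; omega

theorem aux_WB_get (P : Par) (β : ℕ → Bool) (w : ℕ) :
    (WB P β)[w]? = ((adr P)[w]?).map (Option.map (fun y => (P.lab y, β y))) := by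
  unfold WB
  rw [List.getElem?_map]

theorem aux_WB_len (P : Par) (β : ℕ → Bool) : (WB P β).length = pos P (RR P.N) := by
  unfold WB
  rw [List.length_map, adr_length]

theorem aux_WB_hash (P : Par) (β : ℕ → Bool) (j : ℕ) (hj : j ≤ RR P.N) :
    (WB P β)[pos P j - 1]? = some none := by
  rw [aux_WB_get, adr_hash P j hj]
  rfl

theorem aux_WB_var (P : Par) (β : ℕ → Bool) (j : ℕ) (hj : j < RR P.N) (i : ℕ)
    (hi : i < P.M / P.S (kap P.N j)) :
    (WB P β)[pos P j + i]? =
      some (some (P.lab (i * P.S (kap P.N j)), β (i * P.S (kap P.N j)))) := by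
  rw [aux_WB_get, adr_var P j hj i hi]
  rfl

theorem aux_hash_of (P : Par) (β : ℕ → Bool) (w : ℕ)
    (h : (WB P β)[w]? = some none) : ∃ j ≤ RR P.N, w + 1 = pos P j := by
  have hw : w < (adr P).length := by
    rw [adr_length, ← aux_WB_len P β]
    by_contra hcon
    rw [List.getElem?_eq_none (by omega)] at h
    exact absurd h (by simp)
  rcases adr_cases P w hw with h1 | ⟨j, hj, i, hi, rfl⟩
  · exact h1
  · rw [aux_WB_var P β j hj i hi] at h
    simp at h

theorem aux_hash_loc (P : Par) (β : ℕ → Bool) (w t : ℕ)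
    (h : (WB P β)[w]? = some none) (h1 : pos P (2 * t) ≤ w) (h2 : w < pos P (2 * t + 3) - 1) :
    w + 1 = pos P (2 * t + 1) ∨ w + 1 = pos P (2 * t + 2) := by
  obtain ⟨j, _, hj⟩ := aux_hash_of P β w h
  have hm := aux_pos_mono P
  have h3 : 2 * t < j := by
    apply hm.lt_iff_lt.mp
    omega
  have h4 : j < 2 * t + 3 := by
    apply hm.lt_iff_lt.mp
    omega
  have h5 : j = 2 * t + 1 ∨ j = 2 * t + 2 := by omega
  rcases h5 with rfl | rfl
  · left; exact hj
  · right; exact hj

theorem aux_kap (N t : ℕ) (ht : t + 2 ≤ N) : kap N (2 * t + 1) = t := by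
  unfold kap
  rw [if_neg (by omega)]
  have : (2 * t + 1 - 1) / 2 = t := by omega
  rw [this]
  exact min_eq_left (by omega)

theorem aux_half (P : Par) (β : ℕ → Bool) (lam : ℕ) (hNR : NR P lam β) (t : ℕ)
    (ht : t + 2 ≤ P.N) (x y x' y' : ℕ) (hxy : x + lam ≤ y) (hxy' : x' + lam ≤ y')
    (h1 : pos P (2 * t + 1) ≤ x) (h2 : y ≤ pos P (2 * t + 2) - 1)
    (h1' : pos P (2 * t + 1) ≤ x') (h2' : y' ≤ pos P (2 * t + 2) - 1)
    (hent : ∀ s, x + s < y → x' + s < y' → (WB P β)[x + s]? = (WB P β)[x' + s]?) : ¬ x < x' := by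
  intro hlt
  have hk := aux_kap P.N t ht
  have hps := pos_succ P (2 * t + 1)
  rw [hk] at hps
  have hps' : pos P (2 * t + 2) = pos P (2 * t + 1) + P.M / P.S t + 1 := hps
  obtain ⟨i, rfl⟩ : ∃ i, x = pos P (2 * t + 1) + i := ⟨x - pos P (2 * t + 1), by omega⟩
  obtain ⟨i', rfl⟩ : ∃ i', x' = pos P (2 * t + 1) + i' := ⟨x' - pos P (2 * t + 1), by omega⟩
  obtain ⟨s, hs, hne⟩ := hNR t (by omega) i i' (by omega) (by omega)
  have hR : 2 * t + 1 < RR P.N := by unfold RR; omega
  have e1 := aux_WB_var P β (2 * t + 1) hR (i + s) (by rw [hk]; omega)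
  have e2 := aux_WB_var P β (2 * t + 1) hR (i' + s) (by rw [hk]; omega)
  have e3 := hent s (by omega) (by omega)
  rw [hk] at e1 e2
  rw [Nat.add_assoc, Nat.add_assoc, e1, e2] at e3
  simp only [Option.some.injEq, Prod.mk.injEq] at e3
  exact hne e3.2

/-- equal words of two long nodes force equal intervals -/
theorem seg_eq (P : Par) (β : ℕ → Bool) (lam : ℕ) (hNR : NR P lam β) (t : ℕ)
    (ht : t + 2 ≤ P.N) (x y x' y' : ℕ) (hxy : x + lam ≤ y) (hxy' : x' + lam ≤ y')
    (h1 : pos P (2 * t) ≤ x) (h2 : y ≤ pos P (2 * t + 3) - 1)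
    (h1' : pos P (2 * t) ≤ x') (h2' : y' ≤ pos P (2 * t + 3) - 1)
    (hto : pos P (2 * t + 1) < y) (hto' : pos P (2 * t + 1) < y')
    (hta : x < pos P (2 * t + 2) - 1) (hta' : x' < pos P (2 * t + 2) - 1)
    (hflag : x < pos P (2 * t + 1) ↔ x' < pos P (2 * t + 1))
    (heq : seg (WB P β) x y = seg (WB P β) x' y') : x = x' ∧ y = y' := by
  have hm := aux_pos_mono P
  have hR3 : 2 * t + 3 ≤ RR P.N := by unfold RR; omega
  have hlen3 : pos P (2 * t + 3) ≤ (WB P β).length := by
    rw [aux_WB_len]; exact hm.monotone hR3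
  have hp1 := aux_pos_pos P (2 * t + 1)
  have hp2 := aux_pos_pos P (2 * t + 2)
  have hp3 := aux_pos_pos P (2 * t + 3)
  have h12 : pos P (2 * t + 1) < pos P (2 * t + 2) := hm (by omega)
  have h23 : pos P (2 * t + 2) < pos P (2 * t + 3) := hm (by omega)
  have h01 : pos P (2 * t) < pos P (2 * t + 1) := hm (by omega)
  have hl : y - x = y' - x' := by
    rw [← seg_length (WB P β) x y (by omega), ← seg_length (WB P β) x' y' (by omega), heq]
  have hent : ∀ s, x + s < y → x' + s < y' → (WB P β)[x + s]? = (WB P β)[x' + s]? := by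
    intro s h3 h4
    rw [← seg_getElem? (WB P β) x y s h3, ← seg_getElem? (WB P β) x' y' s h4, heq]
  have hA := aux_WB_hash P β (2 * t + 1) (by omega)
  have hB := aux_WB_hash P β (2 * t + 2) (by omega)
  have hxx : x = x' := by
    by_cases hx : x < pos P (2 * t + 1)
    · have hx' := hflag.mp hx
      -- first hash
      have k1 := hent (pos P (2 * t + 1) - 1 - x) (by omega) (by omega)
      have k2 := hent (pos P (2 * t + 1) - 1 - x') (by omega) (by omega)
      rw [show x + (pos P (2 * t + 1) - 1 - x) = pos P (2 * t + 1) - 1 by omega, hA] at k1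
      rw [show x' + (pos P (2 * t + 1) - 1 - x') = pos P (2 * t + 1) - 1 by omega, hA] at k2
      have l1 := aux_hash_loc P β _ t k1.symm (by omega) (by omega)
      have l2 := aux_hash_loc P β _ t k2 (by omega) (by omega)
      omega
    · have hx' : ¬ x' < pos P (2 * t + 1) := fun h => hx (hflag.mpr h)
      by_cases hBy : pos P (2 * t + 2) - 1 < y
      · have k1 := hent (pos P (2 * t + 2) - 1 - x) (by omega) (by omega)
        rw [show x + (pos P (2 * t + 2) - 1 - x) = pos P (2 * t + 2) - 1 by omega, hB] at k1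
        have l1 := aux_hash_loc P β _ t k1.symm (by omega) (by omega)
        omega
      · by_cases hBy' : pos P (2 * t + 2) - 1 < y'
        · have k1 := hent (pos P (2 * t + 2) - 1 - x') (by omega) (by omega)
          rw [show x' + (pos P (2 * t + 2) - 1 - x') = pos P (2 * t + 2) - 1 by omega, hB] at k1
          have l1 := aux_hash_loc P β _ t k1 (by omega) (by omega)
          omega
        · have g1 := aux_half P β lam hNR t ht x y x' y' hxy hxy' (by omega) (by omega)
            (by omega) (by omega) hent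
          have g2 := aux_half P β lam hNR t ht x' y' x y hxy' hxy (by omega) (by omega)
            (by omega) (by omega) (fun s a b => (hent s b a).symm)
          omega
  exact ⟨hxx, by omega⟩

end Pool.Agent.Helper450.ET
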