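import Mathlib
import Pool.Agent.Helper450.ET.Defs

set_option autoImplicit false

namespace Pool.Agent.Helper450.ET

theorem gap_7480 (P : ℕ → Prop) (u : ℕ → ℕ) (B A m' β : ℕ) :
    ∀ (c r α : ℕ), α ≤ β →
      (∀ F : Finset ℕ, (∀ τ ∈ F, α ≤ τ ∧ τ < β ∧ P τ) → F.card ≤ c) →
      (∀ x y, α ≤ x → x ≤ y → y ≤ β → (∀ τ, x ≤ τ → τ < y → ¬ P τ) → u x ≤ u y + B) →
      (∀ τ, α ≤ τ → τ < β → u τ ≤ u (τ + 1) + A) →
      u β + r * B + (c + 1) * m' + c * A < u α →
      ∃ f g : ℕ → ℕ, (∀ i ≤ r, α ≤ f i ∧ f i ≤ g i ∧ g i ≤ β ∧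
          (∀ τ, f i ≤ τ → τ < g i → ¬ P τ) ∧ u (g i) + m' ≤ u (f i)) ∧
        (∀ i < r, ∃ σ, g i ≤ σ ∧ σ < f (i + 1) ∧ P σ) := by
  classical
  intro c
  induction c with
  | zero =>
    intro r α hαβ hF hB hA hu
    have hfree : ∀ τ, α ≤ τ → τ < β → ¬ P τ := by
      intro τ h1 h2 h3
      have := hF {τ} (by
        intro τ' hτ'
        rw [Finset.mem_singleton] at hτ'
        subst hτ'
        exact ⟨h1, h2, h3⟩)
      simp at this
    have h1 := hB α β le_rfl hαβ le_rfl hfree
    have hr : r = 0 := by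
      by_contra hr
      have : 1 * B ≤ r * B := Nat.mul_le_mul_right _ (Nat.one_le_iff_ne_zero.mpr hr)
      omega
    subst hr
    refine ⟨fun _ => α, fun _ => β, ?_, ?_⟩
    · intro i _
      refine ⟨le_rfl, hαβ, le_rfl, hfree, ?_⟩
      show u β + m' ≤ u α
      omega
    · intro i hi
      omega
  | succ c ih =>
    intro r α hαβ hF hB hA hu
    by_cases hex : ∃ σ, α ≤ σ ∧ σ < β ∧ P σ
    · have hspec := Nat.find_spec hex
      have hmin := fun τ (h : τ < Nat.find hex) => Nat.find_min hex h
      obtain ⟨σ, hσ⟩ : ∃ σ, σ = Nat.find hex := ⟨_, rfl⟩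
      rw [← hσ] at hspec hmin
      obtain ⟨hs1, hs2, hs3⟩ := hspec
      have hfree : ∀ τ, α ≤ τ → τ < σ → ¬ P τ := by
        intro τ h1 h2 h3
        exact hmin τ h2 ⟨h1, lt_trans h2 hs2, h3⟩
      have hF' : ∀ F : Finset ℕ, (∀ τ ∈ F, σ + 1 ≤ τ ∧ τ < β ∧ P τ) → F.card ≤ c := by
        intro F hF1
        have hnot : σ ∉ F := fun hh => by
          have := (hF1 σ hh).1
          omega
        have h2 := hF (insert σ F) (by
          intro τ hτ
          rw [Finset.mem_insert] at hτ
          rcases hτ with rfl | hτ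
          · exact ⟨hs1, hs2, hs3⟩
          · obtain ⟨h3, h4, h5⟩ := hF1 τ hτ
            exact ⟨by omega, h4, h5⟩)
        rw [Finset.card_insert_of_notMem hnot] at h2
        omega
      have hB' : ∀ x y, σ + 1 ≤ x → x ≤ y → y ≤ β → (∀ τ, x ≤ τ → τ < y → ¬ P τ) →
          u x ≤ u y + B := fun x y h1 h2 h3 h4 => hB x y (by omega) h2 h3 h4
      have hA' : ∀ τ, σ + 1 ≤ τ → τ < β → u τ ≤ u (τ + 1) + A :=
        fun τ h1 h2 => hA τ (by omega) h2
      have hl1 := hB α σ le_rfl hs1 hs2.le hfree
      have hl2 := hA σ hs1 hs2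
      by_cases hheavy : u σ + m' ≤ u α
      · rcases Nat.eq_zero_or_pos r with hr | hr
        · subst hr
          refine ⟨fun _ => α, fun _ => σ, ?_, ?_⟩
          · intro i _
            exact ⟨le_rfl, hs1, hs2.le, hfree, hheavy⟩
          · intro i hi
            omega
        · obtain ⟨r', rfl⟩ : ∃ r', r = r' + 1 := ⟨r - 1, by omega⟩
          have hu' : u β + r' * B + (c + 1) * m' + c * A < u (σ + 1) := by
            have e1 : (r' + 1) * B = r' * B + B := by ring
            have e2 : (c + 1 + 1) * m' = (c + 1) * m' + m' := by ring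
            have e3 : (c + 1) * A = c * A + A := by ring
            rw [e1, e2, e3] at hu
            omega
          obtain ⟨f', g', h1, h2⟩ := ih r' (σ + 1) (by omega) hF' hB' hA' hu'
          refine ⟨fun i => Nat.casesOn i α f', fun i => Nat.casesOn i σ g', ?_, ?_⟩
          · intro i hi
            cases i with
            | zero => exact ⟨le_rfl, hs1, hs2.le, hfree, hheavy⟩
            | succ i =>
              obtain ⟨h3, h4, h5, h6, h7⟩ := h1 i (by omega)
              exact ⟨by show α ≤ f' i; omega, h4, h5, h6, h7⟩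
          · intro i hi
            cases i with
            | zero =>
              refine ⟨σ, le_rfl, ?_, hs3⟩
              show σ < f' 0
              have := (h1 0 (by omega)).1
              omega
            | succ i => exact h2 i (by omega)
      · have hu' : u β + r * B + (c + 1) * m' + c * A < u (σ + 1) := by
          have e2 : (c + 1 + 1) * m' = (c + 1) * m' + m' := by ring
          have e3 : (c + 1) * A = c * A + A := by ring
          rw [e2, e3] at hu
          omega
        obtain ⟨f', g', h1, h2⟩ := ih r (σ + 1) (by omega) hF' hB' hA' hu'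
        refine ⟨f', g', ?_, h2⟩
        intro i hi
        obtain ⟨h3, h4⟩ := h1 i hi
        exact ⟨by omega, h4⟩
    · push Not at hex
      have hfree : ∀ τ, α ≤ τ → τ < β → ¬ P τ := hex
      have h1 := hB α β le_rfl hαβ le_rfl hfree
      have e2 : (c + 1 + 1) * m' = (c + 1) * m' + m' := by ring
      rw [e2] at hu
      have hr : r = 0 := by
        by_contra hr
        have : 1 * B ≤ r * B := Nat.mul_le_mul_right _ (Nat.one_le_iff_ne_zero.mpr hr)
        omega
      subst hr
      refine ⟨fun _ => α, fun _ => β, ?_, ?_⟩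
      · intro i _
        refine ⟨le_rfl, hαβ, le_rfl, hfree, ?_⟩
        show u β + m' ≤ u α
        omega
      · intro i hi
        omega

theorem AT (k : ℕ) {Λ Ty : Type} [Fintype Λ] [Fintype Ty] (hΛ : Fintype.card Λ ≤ k)
    (u : ℕ → ℕ) (τ0 τ1 : ℕ) (h01 : τ0 ≤ τ1)
    (hu : ∀ x y, τ0 ≤ x → x ≤ y → y ≤ τ1 → u y ≤ u x)
    (Pr : ℕ → ℕ → Prop) (cc BB : ℕ → ℕ) (A4 : ℕ)
    (hcc : ∀ t ≤ k, ∀ F : Finset ℕ, (∀ τ ∈ F, τ0 ≤ τ ∧ τ < τ1 ∧ Pr t τ) → F.card ≤ cc t)
    (hM2 : ∀ t ≤ k, ∀ x y, τ0 ≤ x → x ≤ y → y ≤ τ1 →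
      (∀ τ, x ≤ τ → τ < y → ¬ Pr t τ) → u x ≤ u y + BB t)
    (hM4 : ∀ τ, τ0 ≤ τ → τ < τ1 → u τ ≤ u (τ + 1) + A4)
    (m : ℕ → ℕ) (hM1 : u τ1 + m 0 ≤ u τ0)
    (lt : ℕ → ℕ → Λ) (ty : ℕ → ℕ → Ty)
    (hng : ∀ a ≤ k, ∀ b ≤ k, a ≠ b → ∀ x y, τ0 ≤ x → x < y → y < τ1 →
      (∀ τ, x ≤ τ → τ < y → ¬ Pr a τ) → (∃ τ, x ≤ τ ∧ τ < y ∧ Pr b τ) →
      ty b x = ty b y → lt a x = lt b x → lt a y = lt b y → False)
    (hm : ∀ t ≤ k, ((k + 1) * Fintype.card Ty) * BB t + (cc t + 1) * m (t + 1) + cc t * A4 <
      m t)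
    (hmk : 0 < m (k + 1)) : False := by
  classical
  have claim : ∀ s t : ℕ, t + s = k + 1 → ∀ α β, τ0 ≤ α → α ≤ β → β ≤ τ1 →
      (∀ s' < t, ∀ τ, α ≤ τ → τ < β → ¬ Pr s' τ) → u β + m t ≤ u α →
      ∃ x, α ≤ x ∧ x < β ∧ ∃ a b, a < b ∧ b < t ∧ lt a x = lt b x := by
    intro s
    induction s with
    | zero =>
      intro t ht α β h1 h2 h3 h4 h5
      have ht' : t = k + 1 := by omega
      subst ht'
      have hlt : α < β := by
        rcases Nat.lt_or_ge α β with h | h
        · exact h
        · have : α = β := le_antisymm h2 h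
          subst this
          omega
      have hni : ¬ Function.Injective (fun a : Fin (k + 1) => lt a α) := by
        intro hinj
        have := Fintype.card_le_of_injective _ hinj
        rw [Fintype.card_fin] at this
        omega
      rw [Function.not_injective_iff] at hni
      obtain ⟨a, b, hab, hne⟩ := hni
      rcases lt_or_gt_of_ne hne with h | h
      · exact ⟨α, le_rfl, hlt, a, b, h, b.2, hab⟩
      · exact ⟨α, le_rfl, hlt, b, a, h, a.2, hab.symm⟩
    | succ s ih =>
      intro t ht α β h1 h2 h3 h4 h5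
      have htk : t ≤ k := by omega
      have hmt := hm t htk
      obtain ⟨f, g, hfg, hst⟩ := gap_7480 (Pr t) u (BB t) A4 (m (t + 1)) β (cc t)
        ((k + 1) * Fintype.card Ty) α h2
        (fun F hF => hcc t htk F (fun τ hτ => by
          obtain ⟨h6, h7, h8⟩ := hF τ hτ
          exact ⟨by omega, by omega, h8⟩))
        (fun x y h6 h7 h8 h9 => hM2 t htk x y (by omega) h7 (by omega) h9)
        (fun τ h6 h7 => hM4 τ (by omega) (by omega))
        (by omega)
      obtain ⟨r, hr⟩ : ∃ r, r = (k + 1) * Fintype.card Ty := ⟨_, rfl⟩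
      rw [← hr] at hfg hst
      have hmono : ∀ i j, i ≤ j → j ≤ r → f i ≤ f j := by
        intro i j hij
        induction j, hij using Nat.le_induction with
        | base => intro _; exact le_rfl
        | succ j hij ihj =>
          intro hj
          obtain ⟨σ, hσ1, hσ2, -⟩ := hst j (by omega)
          have h6 := ihj (by omega)
          have h7 := (hfg j (by omega)).2.1
          omega
      have hcl : ∀ i : Fin (r + 1), ∃ x, f i ≤ x ∧ x < g i ∧ ∃ a b, a < b ∧ b < t + 1 ∧
          lt a x = lt b x := by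
        intro i
        obtain ⟨h6, h7, h8, h9, h10⟩ := hfg i (by omega)
        refine ih (t + 1) (by omega) (f i) (g i) (by omega) h7 (by omega) ?_ h10
        intro s' hs' τ hτ1 hτ2
        rcases Nat.lt_succ_iff_lt_or_eq.mp hs' with h | h
        · exact h4 s' h τ (by omega) (by omega)
        · subst h
          exact h9 τ hτ1 hτ2
      choose x hx1 hx2 a b hab hbt hlt using hcl
      by_cases hsome : ∃ i, b i < t
      · obtain ⟨i, hi⟩ := hsome
        obtain ⟨h6, h7, h8, h9, h10⟩ := hfg i (by omega)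
        have := hx1 i
        have := hx2 i
        exact ⟨x i, by omega, by omega, a i, b i, hab i, hi, hlt i⟩
      · push Not at hsome
        have hb : ∀ i, b i = t := fun i => by
          have := hsome i
          have := hbt i
          omega
        have hak : ∀ i, a i < k + 1 := fun i => by
          have := hab i
          have := hb i
          omega
        have hni : ¬ Function.Injective (fun i : Fin (r + 1) =>
            ((⟨a i, hak i⟩ : Fin (k + 1)), ty t (x i))) := by
          intro hinj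
          have := Fintype.card_le_of_injective _ hinj
          rw [Fintype.card_fin, Fintype.card_prod, Fintype.card_fin] at this
          omega
        rw [Function.not_injective_iff] at hni
        obtain ⟨i, j, hij, hne⟩ := hni
        have main : ∀ i j : Fin (r + 1), i < j →
            ((⟨a i, hak i⟩ : Fin (k + 1)), ty t (x i)) =
              ((⟨a j, hak j⟩ : Fin (k + 1)), ty t (x j)) → False := by
          intro i j hlt' he
          rw [Prod.mk.injEq, Fin.mk.injEq] at he
          obtain ⟨he1, he2⟩ := he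
          obtain ⟨σ, hσ1, hσ2, hσ3⟩ := hst i (by omega)
          have hfj : f (i + 1) ≤ f j := hmono _ _ (by omega) (by omega)
          have hxi1 := hx1 i
          have hxi2 := hx2 i
          have hxj1 := hx1 j
          have hxj2 := hx2 j
          obtain ⟨h6, h7, h8, h9, h10⟩ := hfg i (by omega)
          obtain ⟨h6', h7', h8', h9', h10'⟩ := hfg j (by omega)
          have ha1 := hab i
          have hb1 := hb i
          have hb2 := hb j
          refine hng (a i) (by omega) t htk (by omega) (x i) (x j) (by omega) (by omega)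
            (by omega) ?_ ⟨σ, by omega, by omega, hσ3⟩ he2 ?_ ?_
          · intro τ hτ1 hτ2
            exact h4 (a i) (by omega) τ (by omega) (by omega)
          · rw [hlt i, hb1]
          · rw [he1, hlt j, hb2]
        rcases lt_or_gt_of_ne hne with h | h
        · exact (main i j h hij).elim
        · exact (main j i h hij.symm).elim
  obtain ⟨x, -, -, a, b, -, hb, -⟩ := claim (k + 1) 0 (by omega) τ0 τ1 le_rfl h01 le_rfl
    (fun s' hs' => absurd hs' (Nat.not_lt_zero _)) hM1
  exact absurd hb (Nat.not_lt_zero _)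

end Pool.Agent.Helper450.ET
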