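import Mathlib
import Pool.Agent.Helper450.ET.Defs
import Pool.Agent.Helper450.ET.P
import Pool.Agent.Helper450.ET.Q
import Pool.Agent.Helper450.ET.D

set_option autoImplicit false

namespace Pool.Agent.Helper450.ET

theorem us_cover {S A D : Type} (h : D → List A) (W : List D) (l : List (Nd S)) :
    ∀ u v : ℕ, IsChain u l v → ∀ w, xi h W u ≤ w → w < xi h W v →
      ∃ nd ∈ l, xi h W nd.a ≤ w ∧ w < xi h W nd.b := by
  induction l with
  | nil =>
    intro u v hc w h1 h2
    have : u = v := hc
    subst this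
    omega
  | cons nd l ih =>
    intro u v hc w h1 h2
    obtain ⟨ha, hab, hc'⟩ := hc
    by_cases hw : w < xi h W nd.b
    · exact ⟨nd, List.mem_cons_self, by rw [ha]; exact h1, hw⟩
    · obtain ⟨nd', hnd', h3⟩ := ih nd.b v hc' w (not_lt.1 hw) h2
      exact ⟨nd', List.mem_cons_of_mem _ hnd', h3⟩

theorem us_count {S A D : Type} (h : D → List A) (W : List D) (lam w0 : ℕ) (l : List (Nd S)) :
    ∀ s : Finset ℕ, (∀ y ∈ s, ∃ nd ∈ l, ¬ isLong h W lam nd ∧
      xi h W nd.a ≤ w0 + y ∧ w0 + y < xi h W nd.b) → s.card ≤ l.length * lam := by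
  classical
  induction l with
  | nil =>
    intro s hs
    have : s = ∅ := by
      rw [Finset.eq_empty_iff_forall_notMem]
      intro y hy
      obtain ⟨nd, hnd, -⟩ := hs y hy
      exact absurd hnd List.not_mem_nil
    rw [this]
    simp
  | cons nd l ih =>
    intro s hs
    have h1 : (s.filter (fun y => ¬ isLong h W lam nd ∧ xi h W nd.a ≤ w0 + y ∧
        w0 + y < xi h W nd.b)).card ≤ lam := by
      by_cases hL : isLong h W lam nd
      · have : s.filter (fun y => ¬ isLong h W lam nd ∧ xi h W nd.a ≤ w0 + y ∧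
            w0 + y < xi h W nd.b) = ∅ := by
          rw [Finset.filter_eq_empty_iff]
          intro y _ h2
          exact h2.1 hL
        rw [this]
        simp
      · have h2 : (s.filter (fun y => ¬ isLong h W lam nd ∧ xi h W nd.a ≤ w0 + y ∧
            w0 + y < xi h W nd.b)).card ≤ (Finset.Ico (xi h W nd.a) (xi h W nd.b)).card := by
          refine Finset.card_le_card_of_injOn (fun y => w0 + y) ?_ ?_
          · intro y hy
            rw [Finset.mem_coe, Finset.mem_filter] at hy
            rw [Finset.mem_coe, Finset.mem_Ico]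
            exact hy.2.2
          · intro y _ y' _ h3
            have h4 : w0 + y = w0 + y' := h3
            omega
        rw [Nat.card_Ico] at h2
        unfold isLong at hL
        omega
    have h2 : (s.filter (fun y => ¬ (¬ isLong h W lam nd ∧ xi h W nd.a ≤ w0 + y ∧
        w0 + y < xi h W nd.b))).card ≤ l.length * lam := by
      apply ih
      intro y hy
      rw [Finset.mem_filter] at hy
      obtain ⟨nd', hnd', h3⟩ := hs y hy.1
      rcases List.mem_cons.1 hnd' with h4 | h4
      · subst h4
        exact absurd h3 hy.2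
      · exact ⟨nd', h4, h3⟩
    have h3 := Finset.card_filter_add_card_filter_not (s := s) (fun y => ¬ isLong h W lam nd ∧ xi h W nd.a ≤ w0 + y ∧
        w0 + y < xi h W nd.b)
    rw [List.length_cons, add_mul, one_mul]
    omega

theorem us_collect {S A D : Type} (h : D → List A) (W : List D) (lam ρ : ℕ)
    (l : List (Nd S)) (parts : List (List (Nd S)))
    (hF : List.Forall₂ (fun nd l => IsChain nd.a l nd.b ∧ l.length ≤ ρ) l parts) :
    ∃ Q : List (Nd S), Q.length ≤ (longs h W lam l).length * ρ ∧
      (∀ nd' ∈ Q, nd' ∈ parts.flatten) ∧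
      ∀ nd ∈ l, isLong h W lam nd → ∃ p, IsChain nd.a p nd.b ∧ ∀ nd' ∈ p, nd' ∈ Q := by
  classical
  induction hF with
  | nil => exact ⟨[], by simp, by simp, by simp⟩
  | @cons nd p l parts hR _ ih =>
    obtain ⟨Q, hQ1, hQ2, hQ3⟩ := ih
    by_cases hL : isLong h W lam nd
    · refine ⟨p ++ Q, ?_, ?_, ?_⟩
      · have : longs h W lam (nd :: l) = nd :: longs h W lam l := by
          unfold longs
          rw [List.filter_cons_of_pos (by simpa using hL)]
        rw [this, List.length_cons, List.length_append, add_mul, one_mul]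
        have := hR.2
        omega
      · intro nd' hnd'
        rw [List.flatten_cons, List.mem_append]
        rcases List.mem_append.1 hnd' with h1 | h1
        · exact Or.inl h1
        · exact Or.inr (hQ2 nd' h1)
      · intro nd' hnd' hL'
        rcases List.mem_cons.1 hnd' with h1 | h1
        · subst h1
          exact ⟨p, hR.1, fun x hx => List.mem_append_left _ hx⟩
        · obtain ⟨p', hp', hp''⟩ := hQ3 nd' h1 hL'
          exact ⟨p', hp', fun x hx => List.mem_append_right _ (hp'' x hx)⟩
    · refine ⟨Q, ?_, ?_, ?_⟩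
      · have : longs h W lam (nd :: l) = longs h W lam l := by
          unfold longs
          rw [List.filter_cons_of_neg (by simpa using hL)]
        rw [this]
        exact hQ1
      · intro nd' hnd'
        rw [List.flatten_cons, List.mem_append]
        exact Or.inr (hQ2 nd' hnd')
      · intro nd' hnd' hL'
        rcases List.mem_cons.1 hnd' with h1 | h1
        · subst h1
          exact absurd hL' hL
        · exact hQ3 nd' h1 hL'

theorem Us_step (P : Par) {S A : Type} (h : Del P.N → List A) (ρ : ℕ) (β : ℕ → Bool)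
    (r : Run S h ρ (WB P β)) (lam KL : ℕ) (x : ℕ) (hx : x < r.n)
    (hK : ∀ τ ≤ r.n, (longs h (WB P β) lam (r.lev τ)).length ≤ KL) :
    (Us P h β lam (r.lev x)).card ≤ (Us P h β lam (r.lev (x + 1))).card + KL * ρ * lam := by
  classical
  obtain ⟨parts, hF, hlev⟩ := r.refine x hx
  obtain ⟨Q, hQ1, hQ2, hQ3⟩ := us_collect h (WB P β) lam ρ _ parts hF
  have h1 : (Us P h β lam (r.lev x)).card ≤ (Us P h β lam (r.lev (x + 1))).card +
      (Us P h β lam (r.lev x) \ Us P h β lam (r.lev (x + 1))).card := by
    refine (Finset.card_le_card ?_).trans (Finset.card_union_le _ _)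
    intro y hy
    rw [Finset.mem_union, Finset.mem_sdiff]
    by_cases h2 : y ∈ Us P h β lam (r.lev (x + 1))
    · exact Or.inl h2
    · exact Or.inr ⟨hy, h2⟩
  have h2 : (Us P h β lam (r.lev x) \ Us P h β lam (r.lev (x + 1))).card ≤ Q.length * lam := by
    apply us_count h (WB P β) lam (pos P (2 * P.N - 1)) Q
    intro y hy
    rw [Finset.mem_sdiff] at hy
    obtain ⟨hy1, hy2⟩ := hy
    unfold Us at hy1 hy2
    rw [Finset.mem_filter] at hy1 hy2
    obtain ⟨hyM, nd, hnd, hL, ha, hb⟩ := hy1
    obtain ⟨p, hp1, hp2⟩ := hQ3 nd hnd hL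
    obtain ⟨nd', hnd', h3, h4⟩ := us_cover h (WB P β) p nd.a nd.b hp1 _ ha hb
    refine ⟨nd', hp2 nd' hnd', ?_, h3, h4⟩
    intro hL'
    apply hy2
    refine ⟨hyM, nd', ?_, hL', h3, h4⟩
    rw [hlev]
    exact hQ2 nd' (hp2 nd' hnd')
  have h3 : Q.length * lam ≤ KL * ρ * lam :=
    Nat.mul_le_mul_right _ (hQ1.trans (Nat.mul_le_mul_right _ (hK x hx.le)))
  omega

theorem Us_zero (P : Par) {S A : Type} (h : Del P.N → List A) (hne : ∀ e, h e ≠ []) (ρ : ℕ)
    (β : ℕ → Bool) (r : Run S h ρ (WB P β)) (lam : ℕ) :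
    (Finset.range P.M \ Us P h β lam (r.lev 0)).card ≤ ρ * lam := by
  classical
  have h1 : (Finset.range P.M \ Us P h β lam (r.lev 0)).card ≤ (r.lev 0).length * lam := by
    apply us_count h (WB P β) lam (pos P (2 * P.N - 1)) (r.lev 0)
    intro y hy
    rw [Finset.mem_sdiff, Finset.mem_range] at hy
    obtain ⟨hyM, hy2⟩ := hy
    unfold Us at hy2
    rw [Finset.mem_filter, Finset.mem_range] at hy2
    have hN := P.hN
    have hkap : kap P.N (2 * P.N - 1) = P.N - 1 := by
      unfold kap
      have h3 : (2 * P.N - 1) % 2 = 1 := by omega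
      rw [h3]
      simp only [one_ne_zero, if_false]
      omega
    have hlt : pos P (2 * P.N - 1) + y < (adr P).length := by
      have h3 := adr_var P (2 * P.N - 1) (by unfold RR; omega) y (by
        rw [hkap, P.hS1, Nat.div_one]
        exact hyM)
      by_contra h4
      rw [List.getElem?_eq_none (not_lt.1 h4)] at h3
      exact absurd h3 (by simp)
    have hlen : (WB P β).length = (adr P).length := by
      unfold WB
      rw [List.length_map]
    have hc := r.chain 0 (Nat.zero_le _)
    obtain ⟨nd, hnd, h3, h4⟩ := us_cover h (WB P β) (r.lev 0) _ _ hc (pos P (2 * P.N - 1) + y)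
      (by rw [xi_zero h _ hne]; exact Nat.zero_le _) (by rw [xi_last, hlen]; exact hlt)
    refine ⟨nd, hnd, ?_, h3, h4⟩
    intro hL
    exact hy2 ⟨hyM, nd, hnd, hL, h3, h4⟩
  exact h1.trans (Nat.mul_le_mul_right _ r.len0)

theorem Us_last (P : Par) {S A : Type} (h : Del P.N → List A) (hne : ∀ e, h e ≠ []) (ρ : ℕ)
    (β : ℕ → Bool) (r : Run S h ρ (WB P β)) (lam : ℕ) (hlam : 2 ≤ lam) (w : ℕ) :
    ¬ LP h (WB P β) lam (r.lev r.n) w := by
  rintro ⟨nd, hnd, hL, -, -⟩
  have h1 := r.last nd hnd
  have h2 := xi_step h (WB P β) hne nd.a nd.b h1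
  unfold isLong at hL
  omega

end Pool.Agent.Helper450.ET
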