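import Mathlib
import Pool.Agent.Helper450.ET.Defs
import Pool.Agent.Helper450.ET.P
import Pool.Agent.Helper450.ET.Q
import Pool.Agent.Helper450.ET.D
import Pool.Agent.Helper450.ET.E
import Pool.Agent.Helper450.ET.M
import Pool.Agent.Helper450.ET.K1
import Pool.Agent.Helper450.ET.K2
import Pool.Agent.Helper450.ET.L
import Pool.Agent.Helper450.ET.N
import Pool.Agent.Helper450.ET.O

set_option autoImplicit false

namespace Pool.Agent.Helper450.ET

theorem pos_mono (P : Par) : Monotone (pos P) := by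
  intro i j hij
  unfold pos
  have := Finset.sum_le_sum_of_subset (f := fun i => P.M / P.S (kap P.N i) + 1)
    (Finset.range_mono hij)
  omega

theorem pos_pos (P : Par) (j : ℕ) : 0 < pos P j := by unfold pos; omega

section TL
variable {S A D : Type} {h : D → List A} {ρ : ℕ} {W : List D}

theorem anc (r : Run S h ρ W) (x z : ℕ) (hxz : x ≤ z) (hz : z ≤ r.n) (nd : Nd S)
    (hnd : nd ∈ r.lev z) : ∃ nd0 ∈ r.lev x, nd0.a ≤ nd.a ∧ nd.b ≤ nd0.b := by
  induction z, hxz using Nat.le_induction generalizing nd with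
  | base => exact ⟨nd, hnd, le_rfl, le_rfl⟩
  | succ z hz' ih =>
    obtain ⟨nd1, h1, h2, h3⟩ := parent r z (by omega) nd hnd
    obtain ⟨nd0, h4, h5, h6⟩ := ih (by omega) nd1 h1
    exact ⟨nd0, h4, h5.trans h2, h3.trans h6⟩

theorem lt_of_xi_lt (a b : ℕ) (hab : xi h W a < xi h W b) : a < b := by
  by_contra hcon
  exact absurd (xi_mono h W (not_lt.mp hcon)) (not_le.mpr hab)

theorem same_of_overlap (r : Run S h ρ W) (x : ℕ) (hx : x ≤ r.n) (nd nd' : Nd S)
    (hnd : nd ∈ r.lev x) (hnd' : nd' ∈ r.lev x) (h1 : nd.a < nd'.b) (h2 : nd'.a < nd.b) :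
    nd = nd' := chain_eq _ _ _ (r.chain x hx) nd nd' hnd hnd' h1 h2

/-- the interval `(a,b)` is a node at level `x` -/
def Has (r : Run S h ρ W) (x a b : ℕ) : Prop := ∃ nd ∈ r.lev x, nd.a = a ∧ nd.b = b

end TL

section TL2
variable (P : Par) {S A : Type} {h : Del P.N → List A} {ρ : ℕ} {β : ℕ → Bool}

/-- progress step of class `t` -/
def Pg (lam : ℕ) (r : Run S h ρ (WB P β)) (t τ : ℕ) : Prop :=
  ∃ nd ∈ r.lev τ, isLong h (WB P β) lam nd ∧ Touch P h (WB P β) (2 * t + 1) nd ∧
    ¬ ∃ nd' ∈ r.lev (τ + 1), nd'.a = nd.a ∧ nd'.b = nd.b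

theorem persist (lam : ℕ) (r : Run S h ρ (WB P β)) (t x y : ℕ) (hxy : x ≤ y) (hy : y ≤ r.n)
    (hno : ∀ τ, x ≤ τ → τ < y → ¬ Pg P lam r t τ) (nd : Nd S) (hnd : nd ∈ r.lev x)
    (hl : isLong h (WB P β) lam nd) (ht : Touch P h (WB P β) (2 * t + 1) nd) :
    ∃ nd' ∈ r.lev y, nd'.a = nd.a ∧ nd'.b = nd.b := by
  induction y, hxy using Nat.le_induction with
  | base => exact ⟨nd, hnd, rfl, rfl⟩
  | succ z hz ih =>
    obtain ⟨nd1, h1, h2, h3⟩ := ih (by omega) (fun τ h1 h2 => hno τ h1 (by omega))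
    by_contra hcon
    apply hno z hz (by omega)
    refine ⟨nd1, h1, ?_, ?_, ?_⟩
    · unfold isLong at *; rw [h2, h3]; exact hl
    · unfold Touch at *; rw [h2, h3]; exact ht
    · rw [h2, h3]; exact hcon

end TL2

theorem timeline (P : Par) {S A : Type} [Fintype S] (h : Del P.N → List A)
    (hne : ∀ e, h e ≠ []) (C ρ lam δ KL : ℕ) (hC : ∀ e, (h e).length ≤ C)
    (F : Set (List A)) (hF : F.Finite)
    (hpre : ∀ (W : List (Del P.N)) (a : ℕ), pre h W a ∈ F)
    (β : ℕ → Bool) (r : Run S h ρ (WB P β)) (hc : Crosses (LN P.N) r r) (hlam : 2 ≤ lam)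
    (hNR : NR P lam β) (hKL : ∀ τ ≤ r.n, (longs h (WB P β) lam (r.lev τ)).length ≤ KL)
    (hMM : ∀ τ ≤ r.n, (MM P h β lam (r.lev τ)).ncard ≤ δ)
    (k : ℕ) (hk : Fintype.card S ≤ k) (hN : P.N = k + 2) (m : ℕ → ℕ)
    (hδ : ρ * lam ≤ δ) (hT : 2 * δ < P.M / P.S 0)
    (hm0 : (2 * δ + 2 * KL) * P.S 0 + KL * ρ * lam + m 0 ≤ P.M)
    (hm : ∀ t ≤ k, ((k + 1) * (F.ncard * F.ncard * 2)) * ((2 * δ + 2 * KL) * P.S t) +
      (C * (pos P (2 * t + 3) - pos P (2 * t)) + 1) * m (t + 1) +
      (C * (pos P (2 * t + 3) - pos P (2 * t))) * (KL * ρ * lam) < m t)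
    (hmk : 0 < m (k + 1)) : False := by
  classical
  set U : ℕ → Finset ℕ := fun x => Us P h β lam (r.lev x) with hU
  set cp : ℕ → ℕ := fun x => ((Finset.range P.M \ U x).filter (fun z => P.S 0 ∣ z)).card with hcp
  set hu : ℕ → ℕ := fun x => ((U x).filter (fun z => P.S 0 ∣ z)).card with hhu
  have hUsub : ∀ x, U x ⊆ Finset.range P.M := by
    intro x; simp only [hU, Us]; exact Finset.filter_subset _ _
  have hmult : ((Finset.range P.M).filter (fun z => P.S 0 ∣ z)).card = P.M / P.S 0 := by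
    have hS0 := P.hSpos 0
    obtain ⟨q, hq⟩ := P.hSM
    rw [hq, Nat.mul_div_cancel_left _ hS0]
    have : (Finset.range (P.S 0 * q)).filter (fun z => P.S 0 ∣ z) =
        (Finset.range q).image (fun i => P.S 0 * i) := by
      ext z
      simp only [Finset.mem_filter, Finset.mem_range, Finset.mem_image]
      constructor
      · rintro ⟨h1, ⟨i, rfl⟩⟩
        exact ⟨i, Nat.lt_of_mul_lt_mul_left h1, rfl⟩
      · rintro ⟨i, h1, rfl⟩
        exact ⟨Nat.mul_lt_mul_of_pos_left h1 hS0, Dvd.intro i rfl⟩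
    rw [this, Finset.card_image_of_injective, Finset.card_range]
    intro i j hij
    exact Nat.eq_of_mul_eq_mul_left hS0 hij
  have hsum : ∀ x, cp x + hu x = P.M / P.S 0 := by
    intro x
    rw [← hmult]
    simp only [hcp, hhu]
    rw [← Finset.card_union_of_disjoint]
    · congr 1
      ext z
      simp only [Finset.mem_union, Finset.mem_filter, Finset.mem_sdiff]
      constructor
      · rintro (⟨⟨h1, h2⟩, h3⟩ | ⟨h1, h3⟩)
        · exact ⟨h1, h3⟩
        · exact ⟨hUsub x h1, h3⟩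
      · rintro ⟨h1, h3⟩
        by_cases h2 : z ∈ U x
        · exact Or.inr ⟨h2, h3⟩
        · exact Or.inl ⟨⟨h1, h2⟩, h3⟩
    · rw [Finset.disjoint_left]
      intro z hz hz'
      simp only [Finset.mem_filter, Finset.mem_sdiff] at hz hz'
      exact hz.1.2 hz'.1
  have hanti : ∀ x y, x ≤ y → y ≤ r.n → U y ⊆ U x := fun x y hxy hy =>
    Us_anti P h ρ β r lam x y hxy hy
  have hcpmono : ∀ x y, x ≤ y → y ≤ r.n → cp x ≤ cp y := by
    intro x y hxy hy
    apply Finset.card_le_card
    intro z hz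
    simp only [Finset.mem_filter, Finset.mem_sdiff] at hz ⊢
    exact ⟨⟨hz.1.1, fun h => hz.1.2 (hanti x y hxy hy h)⟩, hz.2⟩
  have hhumono : ∀ x y, x ≤ y → y ≤ r.n → hu y ≤ hu x := by
    intro x y hxy hy
    have := hcpmono x y hxy hy
    have := hsum x
    have := hsum y
    omega
  have hUn : U r.n = ∅ := by
    rw [Finset.eq_empty_iff_forall_notMem]
    intro z hz
    simp only [hU, Us, Finset.mem_filter] at hz
    exact Us_last P h hne ρ β r lam hlam _ hz.2
  have hhun : hu r.n = 0 := by simp [hhu, hUn]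
  have hcpn : δ < cp r.n := by have := hsum r.n; omega
  have hcp0 : cp 0 ≤ δ := by
    calc cp 0 ≤ (Finset.range P.M \ U 0).card := Finset.card_filter_le _ _
      _ ≤ ρ * lam := Us_zero P h hne ρ β r lam
      _ ≤ δ := hδ
  -- τ0
  have hex0 : ∃ x, δ < cp x := ⟨r.n, hcpn⟩
  set τ0 := Nat.find hex0 with hτ0
  have hτ0n : τ0 ≤ r.n := Nat.find_min' hex0 hcpn
  have hτ0s : δ < cp τ0 := Nat.find_spec hex0
  have hτ0pos : 0 < τ0 := by
    rcases Nat.eq_zero_or_pos τ0 with h0 | h0
    · rw [h0] at hτ0s; omega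
    · exact h0
  have hτ0min : ∀ x < τ0, cp x ≤ δ := fun x hx => not_lt.mp (Nat.find_min hex0 hx)
  have hex1 : ∃ x, hu x ≤ δ := ⟨r.n, by omega⟩
  set τ1 := Nat.find hex1 with hτ1
  have hτ1n : τ1 ≤ r.n := Nat.find_min' hex1 (by omega)
  have hτ1s : hu τ1 ≤ δ := Nat.find_spec hex1
  have hτ1min : ∀ x < τ1, δ < hu x := fun x hx => not_le.mp (Nat.find_min hex1 hx)
  have h01 : τ0 ≤ τ1 := by
    by_contra hcon
    have := hτ0min τ1 (by omega)
    have := hsum τ1
    omega
  have hcpge : ∀ x, τ0 ≤ x → x ≤ r.n → δ < cp x := fun x h1 h2 =>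
    lt_of_lt_of_le hτ0s (hcpmono τ0 x h1 h2)
  -- mass
  have hmass : (U τ1).card + m 0 ≤ (U τ0).card := by
    have e1 := (Us_compl P h ρ β r lam KL (by omega) τ1 hτ1n hKL).2
    have e2 := (Us_compl P h ρ β r lam KL (by omega) (τ0 - 1) (by omega) hKL).1
    have e3 := Us_step P h ρ β r lam KL (τ0 - 1) (by omega) hKL
    have e4 : τ0 - 1 + 1 = τ0 := by omega
    rw [e4] at e3
    have e5 : cp (τ0 - 1) ≤ δ := hτ0min _ (by omega)
    have e6 : (Finset.range P.M \ U (τ0 - 1)).card + (U (τ0 - 1)).card = P.M := by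
      rw [Finset.card_sdiff_add_card_eq_card (hUsub _), Finset.card_range]
    have e7 : (Finset.range P.M \ U (τ0 - 1)).card ≤ (δ + KL) * P.S 0 :=
      e2.trans (Nat.mul_le_mul_right _ (Nat.add_le_add_right e5 KL))
    have e8 : (U τ1).card ≤ (δ + KL) * P.S 0 :=
      e1.trans (Nat.mul_le_mul_right _ (Nat.add_le_add_right hτ1s KL))
    have e3' : (U (τ0 - 1)).card ≤ (U τ0).card + KL * ρ * lam := e3
    have e9 : (2 * δ + 2 * KL) * P.S 0 = (δ + KL) * P.S 0 + (δ + KL) * P.S 0 := by ring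
    omega
  -- positions inside a chain
  have hbd : ∀ x ≤ r.n, ∀ nd ∈ r.lev x, nd.a ≤ nd.b ∧ nd.b ≤ ((WB P β).flatMap h).length := by
    intro x hx nd hnd
    have := chain_bounds _ _ _ (r.chain x hx) nd hnd
    exact ⟨this.2.1, this.2.2⟩
  have hlt : ∀ nd : Nd S, isLong h (WB P β) lam nd → nd.a < nd.b := by
    intro nd hl
    apply lt_of_xi_lt (h := h) (W := WB P β)
    unfold isLong at hl; omega
  -- long touching nodes stay in their region
  have hreg : ∀ t ≤ k, ∀ x, τ0 ≤ x → x ≤ r.n → ∀ nd ∈ r.lev x, isLong h (WB P β) lam nd →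
      Touch P h (WB P β) (2 * t + 1) nd →
      pos P (2 * t) ≤ xi h (WB P β) nd.a ∧ xi h (WB P β) nd.b ≤ pos P (2 * t + 3) - 1 := by
    intro t ht x hx hxn nd hnd hl hto
    exact reg P h β lam δ (r.lev x) t (by omega) (hMM x hxn) (hcpge x hx hxn) nd hnd hl hto
  -- next split
  have hnext : ∀ t ≤ k, ∀ x, x < τ1 → ∃ z, x ≤ z ∧ z < r.n ∧ Pg P lam r t z := by
    intro t ht x hx
    obtain ⟨nd, hnd, hl, hto⟩ := exists_touch P h β lam δ (r.lev x) t (by omega)
      (hMM x (by omega)) (hτ1min x hx)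
    by_contra hcon
    push Not at hcon
    obtain ⟨nd', h1, h2, h3⟩ := persist P lam r t x r.n (by omega) le_rfl
      (fun τ h1 h2 => hcon τ h1 h2) nd hnd hl hto
    have h4 := r.last nd' h1
    have h5 := xi_step h (WB P β) hne nd'.a nd'.b h4
    unfold isLong at hl
    rw [h2, h3] at h5
    omega
  -- choose the node splitting at a progress step
  have hsp : ∀ t z, ∃ I : ℕ × ℕ, Pg P lam r t z → ∃ nd ∈ r.lev z, nd.a = I.1 ∧ nd.b = I.2 ∧
      isLong h (WB P β) lam nd ∧ Touch P h (WB P β) (2 * t + 1) nd ∧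
      ¬ ∃ nd' ∈ r.lev (z + 1), nd'.a = nd.a ∧ nd'.b = nd.b := by
    intro t z
    by_cases hp : Pg P lam r t z
    · obtain ⟨nd, h1, h2, h3, h4⟩ := hp
      exact ⟨(nd.a, nd.b), fun _ => ⟨nd, h1, rfl, rfl, h2, h3, h4⟩⟩
    · exact ⟨(0, 0), fun h => absurd h hp⟩
  choose Isp hIsp using hsp
  have hns : ∀ t x, ∃ z, (t ≤ k ∧ x < τ1) → (x ≤ z ∧ z < r.n ∧ Pg P lam r t z ∧
      ∀ z', x ≤ z' → z' < z → ¬ Pg P lam r t z') := by
    intro t x
    by_cases hp : t ≤ k ∧ x < τ1
    · have hex := hnext t hp.1 x hp.2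
      refine ⟨Nat.find hex, fun _ => ?_⟩
      obtain ⟨h1, h2, h3⟩ := Nat.find_spec hex
      refine ⟨h1, h2, h3, fun z' h4 h5 h6 => ?_⟩
      exact Nat.find_min hex h5 ⟨h4, by omega, h6⟩
    · exact ⟨0, fun h => absurd h hp⟩
  choose ns hns' using hns
  -- node of class t at level x
  have hnode : ∀ t ≤ k, ∀ x, x < τ1 → ∃ nd ∈ r.lev x, nd.a = (Isp t (ns t x)).1 ∧
      nd.b = (Isp t (ns t x)).2 ∧ isLong h (WB P β) lam nd ∧ Touch P h (WB P β) (2 * t + 1) nd := by
    intro t ht x hx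
    obtain ⟨h1, h2, h3, h4⟩ := hns' t x ⟨ht, hx⟩
    obtain ⟨nd, g1, g2, g3, g4, g5, g6⟩ := hIsp t (ns t x) h3
    obtain ⟨nd0, k1, k2, k3⟩ := anc r x (ns t x) h1 (by omega) nd g1
    have m1 := xi_mono h (WB P β) k2
    have m2 := xi_mono h (WB P β) k3
    have l0 : isLong h (WB P β) lam nd0 := by unfold isLong at *; omega
    have t0 : Touch P h (WB P β) (2 * t + 1) nd0 := by unfold Touch at *; omega
    obtain ⟨nd1, j1, j2, j3⟩ := persist P lam r t x (ns t x) h1 (by omega) h4 nd0 k1 l0 t0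
    have hndlt := hlt nd g4
    have : nd1 = nd := same_of_overlap r (ns t x) (by omega) nd1 nd j1 g1 (by omega) (by omega)
    subst this
    exact ⟨nd0, k1, by rw [← g2, j2], by rw [← g3, j3], l0, t0⟩
  by_cases h01' : τ0 = τ1
  · rw [h01'] at hmass
    have := hm 0 (by omega)
    omega
  have h01'' : τ0 < τ1 := by omega
  have hSne : Nonempty S := by
    obtain ⟨nd, -⟩ := hnode 0 (by omega) τ0 h01''
    exact ⟨nd.s⟩
  have hchoose : ∀ t x, ∃ nd : Nd S, (t ≤ k ∧ x < τ1) → (nd ∈ r.lev x ∧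
      nd.a = (Isp t (ns t x)).1 ∧
      nd.b = (Isp t (ns t x)).2 ∧ isLong h (WB P β) lam nd ∧ Touch P h (WB P β) (2 * t + 1) nd) := by
    intro t x
    by_cases hp : t ≤ k ∧ x < τ1
    · obtain ⟨nd, h1, h2⟩ := hnode t hp.1 x hp.2
      exact ⟨nd, fun _ => ⟨h1, h2⟩⟩
    · exact ⟨⟨Classical.choice hSne, 0, 0⟩, fun h => absurd h hp⟩
  choose nod hnod using hchoose
  -- types
  let FT := {p : List A // p ∈ hF.toFinset}
  have hFTcard : Fintype.card (FT × FT × Bool) = F.ncard * F.ncard * 2 := by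
    have e : Fintype.card FT = F.ncard := by
      rw [Set.ncard_eq_toFinset_card F hF]
      simp [FT]
    rw [Fintype.card_prod, Fintype.card_prod, e, Fintype.card_bool]; ring
  let ty : ℕ → ℕ → FT × FT × Bool := fun t x =>
    (⟨pre h (WB P β) (nod t x).a, by simpa using hpre (WB P β) _⟩, ⟨pre h (WB P β) (nod t x).b, by simpa using hpre (WB P β) _⟩,
      decide (xi h (WB P β) (nod t x).a < pos P (2 * t + 1)))
  refine AT k hk (fun x => (U x).card) τ0 τ1 h01 ?_ (Pg P lam r)
    (fun t => C * (pos P (2 * t + 3) - pos P (2 * t))) (fun t => (2 * δ + 2 * KL) * P.S t)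
    (KL * ρ * lam) ?_ ?_ ?_ m hmass (fun t x => (nod t x).s) ty ?_ ?_ hmk
  · intro x y _ hxy hy
    exact Finset.card_le_card (hanti x y hxy (by omega))
  · -- progress count
    intro t ht Fs hFs
    have := prog_count P h hne ρ β r lam (by omega) C hC (pos P (2 * t)) (pos P (2 * t + 3) - 1)
      Fs (by
        intro τ hτ
        obtain ⟨h1, h2, nd, h3, h4, h5, h6⟩ := hFs τ hτ
        have h7 := hreg t ht τ h1 (by omega) nd h3 h4 h5
        exact ⟨by omega, nd, h3, h7.1, h7.2, hlt nd h4, h6⟩)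
    have hpp := pos_pos P (2 * t + 3)
    have e : pos P (2 * t + 3) - 1 + 1 = pos P (2 * t + 3) := by omega
    rw [e] at this
    exact this
  · -- M2
    intro t ht x y hx hxy hy hno
    have hsame : ∀ i < P.M / P.S t, LP h (WB P β) lam (r.lev x) (pos P (2 * t + 1) + i) →
        LP h (WB P β) lam (r.lev y) (pos P (2 * t + 1) + i) := by
      rintro i hi ⟨nd, h1, h2, h3, h4⟩
      have hkap : kap P.N (2 * t + 1) = t := by
        unfold kap
        have e1 : (2 * t + 1) % 2 = 1 := by omega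
        have e2 : (2 * t + 1 - 1) / 2 = t := by omega
        rw [if_neg (by omega), e2]
        exact min_eq_left (by omega)
      have hps := pos_succ P (2 * t + 1)
      rw [hkap] at hps
      have hto : Touch P h (WB P β) (2 * t + 1) nd := by
        unfold Touch
        constructor <;> omega
      obtain ⟨nd', j1, j2, j3⟩ := persist P lam r t x y hxy (by omega) hno nd h1 h2 hto
      refine ⟨nd', j1, ?_, ?_, ?_⟩
      · unfold isLong at *; rw [j2, j3]; exact h2
      · rw [j2]; exact h3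
      · rw [j3]; exact h4
    have e1 := sync_heads P h β lam δ (r.lev x) (r.lev y) t (by omega) (hMM x (by omega))
      (hMM y (by omega)) hsame
    have e2 := Us_block P h ρ β r lam KL (by omega) x y hxy (by omega) hKL t (by omega)
    have e3 : (U x).card ≤ (U x \ U y).card + (U y).card := by
      rw [← Finset.card_union_of_disjoint (Finset.sdiff_disjoint)]
      apply Finset.card_le_card
      intro z hz
      by_cases hz' : z ∈ U y
      · exact Finset.mem_union_right _ hz'
      · exact Finset.mem_union_left _ (Finset.mem_sdiff.mpr ⟨hz, hz'⟩)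
    have e4 : (U x \ U y).card ≤ (2 * δ + 2 * KL) * P.S t :=
      e2.trans (Nat.mul_le_mul_right _ (Nat.add_le_add_right e1 _))
    show (U x).card ≤ (U y).card + (2 * δ + 2 * KL) * P.S t
    omega
  · intro τ h1 h2
    exact Us_step P h ρ β r lam KL τ (by omega) hKL
  · -- no graft
    intro a ha b hb hab x y hx hxy hy hnoa hexb htyb hlx hly
    have na := hnod a x ⟨ha, by omega⟩
    have na' := hnod a y ⟨ha, by omega⟩
    have nb := hnod b x ⟨hb, by omega⟩
    have nb' := hnod b y ⟨hb, by omega⟩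
    -- same next split for a
    have hnsa : ns a x = ns a y := by
      obtain ⟨h1, h2, h3, h4⟩ := hns' a x ⟨ha, by omega⟩
      obtain ⟨h1', h2', h3', h4'⟩ := hns' a y ⟨ha, by omega⟩
      have h5 : y ≤ ns a x := by
        by_contra hcon
        exact hnoa (ns a x) h1 (by omega) h3
      rcases lt_trichotomy (ns a x) (ns a y) with h6 | h6 | h6
      · exact absurd h3 (h4' _ h5 h6)
      · exact h6
      · exact absurd h3' (h4 _ (by omega) h6)
    have hincl : ∀ z, x ≤ z → z ≤ y → ∃ nd ∈ r.lev z, nd.a = (nod a x).a ∧ nd.b = (nod a x).b ∧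
        ∀ p q c, r.G z p nd.s q c → r.G x p (nod a x).s q c := by
      intro z hz
      induction z, hz using Nat.le_induction with
      | base => intro _; exact ⟨nod a x, na.1, rfl, rfl, fun p q c hh => hh⟩
      | succ z hz ih =>
        intro hz2
        obtain ⟨nd, h1, h2, h3, h4⟩ := ih (by omega)
        have hl : isLong h (WB P β) lam nd := by
          have := na.2.2.2.1
          unfold isLong at *; rw [h2, h3]; exact this
        have hto : Touch P h (WB P β) (2 * a + 1) nd := by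
          have := na.2.2.2.2
          unfold Touch at *; rw [h2, h3]; exact this
        have hper : ∃ nd' ∈ r.lev (z + 1), nd'.a = nd.a ∧ nd'.b = nd.b := by
          by_contra hcon
          exact hnoa z hz (by omega) ⟨nd, h1, hl, hto, hcon⟩
        obtain ⟨nd', j1, j2, j3⟩ := hper
        refine ⟨nd', j1, by rw [j2, h2], by rw [j3, h3], fun p q c hh => ?_⟩
        exact h4 p q c (r.g3 z (by omega) nd h1 nd' j1 j2.symm j3.symm (hlt nd hl) p q c hh)
    obtain ⟨ndy, h1, h2, h3, h4⟩ := hincl y (by omega) le_rfl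
    have hndy : ndy = nod a y := by
      have hla := hlt _ na.2.2.2.1
      have hla' := hlt _ na'.2.2.2.1
      have e1 : (nod a y).a = (nod a x).a := by rw [na'.2.1, na.2.1, hnsa]
      have e2 : (nod a y).b = (nod a x).b := by rw [na'.2.2.1, na.2.2.1, hnsa]
      exact same_of_overlap r y (by omega) ndy (nod a y) h1 na'.1 (by omega) (by omega)
    subst hndy
    -- type equality for b
    have ht1 : pre h (WB P β) (nod b x).a = pre h (WB P β) (nod b y).a := by
      have := congrArg (fun q => (q.1 : List A)) htyb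
      simpa [ty] using this
    have ht2 : pre h (WB P β) (nod b x).b = pre h (WB P β) (nod b y).b := by
      have := congrArg (fun q => (q.2.1 : List A)) htyb
      simpa [ty] using this
    have ht3 : xi h (WB P β) (nod b x).a < pos P (2 * b + 1) ↔ xi h (WB P β) (nod b y).a < pos P (2 * b + 1) := by
      have := congrArg (fun q => q.2.2) htyb
      simpa [ty] using this
    have hlx' : (nod a x).s = (nod b x).s := hlx
    have hly' : (nod a y).s = (nod b y).s := hly
    have hG1 := r.g1 y (by omega) (nod b y) nb'.1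
    rw [← hly'] at hG1
    have hG2 := h4 _ _ _ hG1
    rw [hlx'] at hG2
    have hG3 : r.G x (pre h (WB P β) (nod b x).a) (nod b x).s (pre h (WB P β) (nod b x).b)
        (seg (WB P β) (xi h (WB P β) (nod b y).a) (xi h (WB P β) (nod b y).b)) := by
      rw [ht1, ht2]; exact hG2
    have hmem := replace_run hne (LN P.N) r hc x (by omega) (nod b x) nb.1 _ hG3
    have hrx := hreg b hb x hx (by omega) _ nb.1 nb.2.2.2.1 nb.2.2.2.2
    have hry := hreg b hb y (by omega) (by omega) _ nb'.1 nb'.2.2.2.1 nb'.2.2.2.2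
    have hlenW : (WB P β).length = (adr P).length := by simp [WB]
    have hseq := replace_eq P β (xi h (WB P β) (nod b x).a) (xi h (WB P β) (nod b x).b)
      (by have := nb.2.2.2.1; unfold isLong at this; omega)
      (by rw [← hlenW]; exact xi_le h (WB P β) _)
      (Or.inl (by
        have := pos_mono P (show 2 * b + 3 ≤ 2 * P.N + 1 by omega)
        omega))
      _ hmem
    have hse := seg_eq P β lam hNR b (by omega) (xi h (WB P β) (nod b x).a) (xi h (WB P β) (nod b x).b)
      (xi h (WB P β) (nod b y).a) (xi h (WB P β) (nod b y).b) nb.2.2.2.1 nb'.2.2.2.1 hrx.1 hrx.2 hry.1 hry.2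
      nb.2.2.2.2.2 nb'.2.2.2.2.2 nb.2.2.2.2.1 nb'.2.2.2.2.1 ht3 hseq.symm
    have hbx := hbd x (by omega) _ nb.1
    have hby := hbd y (by omega) _ nb'.1
    have ea : (nod b x).a = (nod b y).a := by
      have e1 := pre_len h (WB P β) (nod b x).a (by omega)
      have e2 := pre_len h (WB P β) (nod b y).a (by omega)
      rw [hse.1, ht1] at e1
      omega
    have eb : (nod b x).b = (nod b y).b := by
      have e1 := pre_len h (WB P β) (nod b x).b (by omega)
      have e2 := pre_len h (WB P β) (nod b y).b (by omega)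
      rw [hse.2, ht2] at e1
      omega
    -- but it was split
    obtain ⟨σ, hσ1, hσ2, hσ3⟩ := hexb
    obtain ⟨h1', h2', h3', h4'⟩ := hns' b x ⟨hb, by omega⟩
    have hz0 : ns b x < y := by
      by_contra hcon
      exact h4' σ hσ1 (by omega) hσ3
    obtain ⟨nd, g1, g2, g3, g4, g5, g6⟩ := hIsp b (ns b x) h3'
    apply g6
    obtain ⟨nd0, k1, k2, k3⟩ := anc r (ns b x + 1) y (by omega) (by omega) (nod b y) nb'.1
    obtain ⟨nd1, j1, j2, j3⟩ := parent r (ns b x) (by omega) nd0 k1
    have hba : nd.a = (nod b y).a := by rw [g2, ← ea, nb.2.1]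
    have hbb : nd.b = (nod b y).b := by rw [g3, ← eb, nb.2.2.1]
    have hndlt := hlt nd g4
    have hone : nd1 = nd := same_of_overlap r (ns b x) (by omega) nd1 nd j1 g1 (by omega) (by omega)
    subst hone
    exact ⟨nd0, k1, by omega, by omega⟩
  · intro t ht
    rw [hFTcard]
    exact hm t ht

end Pool.Agent.Helper450.ET
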