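import Mathlib
import Pool.Agent.Helper450.ET.Defs
import Pool.Agent.Helper450.ET.P
import Pool.Agent.Helper450.ET.Q
import Pool.Agent.Helper450.ET.D
import Pool.Agent.Helper450.ET.E
import Pool.Agent.Helper450.ET.C
import Pool.Agent.Helper450.ET.F
import Pool.Agent.Helper450.ET.G
import Pool.Agent.Helper450.ET.H
import Pool.Agent.Helper450.ET.I
import Pool.Agent.Helper450.ET.J
import Pool.Agent.Helper450.ET.M
import Pool.Agent.Helper450.ET.K1
import Pool.Agent.Helper450.ET.K2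
import Pool.Agent.Helper450.ET.L
import Pool.Agent.Helper450.ET.N
import Pool.Agent.Helper450.ET.O
import Pool.Agent.Helper450.ET.B
import Pool.Agent.Helper450.ET.TL

set_option autoImplicit false

namespace Pool.Agent.Helper450.ET

/-! ## parameters -/

/-- exponents of the scales -/
def eS (k c : ℕ) : ℕ := if c ≤ k then (3 * 2 ^ (k + 1) - 1) - (3 * 2 ^ c - 1) else 0

theorem eS_succ (k c : ℕ) : eS k (c + 1) ≤ eS k c := by
  unfold eS
  have h1 : 2 ^ (c + 1) = 2 * 2 ^ c := by ring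
  split_ifs <;> omega

theorem exists_par (k e : ℕ) : ∃ P : Par, P.N = k + 2 ∧
    P.M = (2 ^ e) ^ (3 * 2 ^ (k + 1) - 1) ∧ ∀ c, P.S c = (2 ^ e) ^ eS k c := by
  classical
  set X := 2 ^ e with hX
  have hXpos : 0 < X := by positivity
  have hdvd : ∀ c, X ^ eS k (c + 1) ∣ X ^ eS k c := fun c => pow_dvd_pow _ (eS_succ k c)
  have hdvd' : ∀ c d, c ≤ d → X ^ eS k d ∣ X ^ eS k c := by
    intro c d hcd
    induction d, hcd using Nat.le_induction with
    | base => exact dvd_rfl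
    | succ d hd ih => exact (hdvd d).trans ih
  have h1 : eS k (k + 1) = 0 := by unfold eS; rw [if_neg (by omega)]
  have hex : ∀ j, ∃ c, X ^ eS k c ∣ j := fun j => ⟨k + 1, by rw [h1]; simp⟩
  have hle : ∀ j, Nat.find (hex j) < k + 2 := by
    intro j
    have : Nat.find (hex j) ≤ k + 1 := Nat.find_min' (hex j) (by rw [h1]; simp)
    omega
  refine ⟨⟨k + 2, X ^ (3 * 2 ^ (k + 1) - 1), fun c => X ^ eS k c,
    fun j => ⟨Nat.find (hex j), hle j⟩, by omega, by positivity, ?_, hdvd,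
    fun c => by positivity, ?_, ?_⟩, rfl, rfl, fun c => rfl⟩
  · show X ^ eS k (k + 2 - 1) = 1
    have : k + 2 - 1 = k + 1 := by omega
    rw [this, h1]; simp
  · apply pow_dvd_pow
    unfold eS
    rw [if_pos (by omega)]
    omega
  · intro j c
    rw [Fin.le_def]
    constructor
    · intro h2
      exact (hdvd' _ _ h2).trans (Nat.find_spec (hex j))
    · intro h2
      exact Nat.find_min' (hex j) h2

theorem exists_big (a b : ℕ) : ∃ e, 1 ≤ e ∧ a * e + b < 2 ^ e := by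
  refine ⟨2 * (2 * a + b + 1), by omega, ?_⟩
  set n := 2 * a + b + 1 with hn
  have h1 : n + 1 ≤ 2 ^ n := Nat.lt_two_pow_self
  have h2 : 2 ^ (2 * n) = 2 ^ n * 2 ^ n := by rw [two_mul, pow_add]
  rw [h2]
  have h3 : (n + 1) * (n + 1) ≤ 2 ^ n * 2 ^ n := Nat.mul_le_mul h1 h1
  nlinarith

theorem kap_odd_fin (N t : ℕ) (ht : t ≤ N - 1) : kap N (2 * t + 1) = t := by
  unfold kap
  have e2 : (2 * t + 1 - 1) / 2 = t := by omega
  rw [if_neg (by omega), e2]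
  exact min_eq_left ht

theorem kap_even_fin (N t : ℕ) : kap N (2 * t) = 0 := by
  unfold kap
  rw [if_pos (by omega)]

theorem pos_three (P : Par) (t : ℕ) (ht : t ≤ P.N - 1) :
    pos P (2 * t + 3) - pos P (2 * t) = 2 * (P.M / P.S 0) + P.M / P.S t + 3 := by
  have h1 := pos_succ P (2 * t)
  have h2 := pos_succ P (2 * t + 1)
  have h3 := pos_succ P (2 * t + 2)
  rw [kap_even_fin] at h1
  rw [kap_odd_fin P.N t ht] at h2
  have h4 : kap P.N (2 * t + 2) = 0 := kap_even_fin P.N (t + 1)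
  rw [h4] at h3
  have h5 : pos P (2 * t + 3) = pos P (2 * t + 2) + P.M / P.S 0 + 1 := h3
  have h6 : pos P (2 * t + 2) = pos P (2 * t + 1) + P.M / P.S t + 1 := h2
  rw [h5, h6, h1]
  generalize P.M / P.S 0 = m0
  generalize P.M / P.S t = mt
  omega

theorem div_scale (P : Par) (k e : ℕ) (hM : P.M = (2 ^ e) ^ (3 * 2 ^ (k + 1) - 1))
    (hS : ∀ c, P.S c = (2 ^ e) ^ eS k c) (t : ℕ) (ht : t ≤ k) :
    P.M / P.S t = (2 ^ e) ^ (3 * 2 ^ t - 1) := by
  rw [hM, hS]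
  have h2 : (2:ℕ) ^ t ≤ 2 ^ k := Nat.pow_le_pow_right (by norm_num) ht
  have h3 : (2:ℕ) ^ (k + 1) = 2 * 2 ^ k := by ring
  have h4 : 0 < (2:ℕ) ^ t := by positivity
  have h1 : 3 * 2 ^ (k + 1) - 1 = eS k t + (3 * 2 ^ t - 1) := by
    unfold eS
    rw [if_pos ht]
    omega
  rw [h1, pow_add, Nat.mul_div_cancel_left _ (by positivity)]

theorem len_le (P : Par) : (adr P).length ≤ 1 + RR P.N * (P.M + 1) := by
  rw [adr_length]
  unfold pos
  have : ∑ i ∈ Finset.range (RR P.N), (P.M / P.S (kap P.N i) + 1) ≤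
      ∑ i ∈ Finset.range (RR P.N), (P.M + 1) := by
    apply Finset.sum_le_sum
    intro i _
    have := Nat.div_le_self P.M (P.S (kap P.N i))
    omega
  rw [Finset.sum_const, Finset.card_range, smul_eq_mul] at this
  omega

theorem le_two_pow (n : ℕ) : n ≤ 2 ^ n := Nat.lt_two_pow_self.le

/-- number of codes -/
theorem codes_le (P : Par) (B KT KL lam : ℕ) (hM : P.M = 2 ^ B) :
    (((adr P).length + 1) ^ 2 * KT + 1) ^ KL * ((2 * P.N + 2) ^ lam + 1) ^ KT ≤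
      2 ^ (KL * (2 * (2 + 2 * RR P.N + B) + KT + 1) + KT * ((2 * P.N + 2) * lam + 1)) := by
  have h1 : (adr P).length + 1 ≤ 2 ^ (2 + 2 * RR P.N + B) := by
    have h2 := len_le P
    have h3 : 1 ≤ P.M := P.hM
    have h4 : (adr P).length + 1 ≤ (2 + 2 * RR P.N) * P.M := by nlinarith
    calc (adr P).length + 1 ≤ (2 + 2 * RR P.N) * P.M := h4
      _ ≤ 2 ^ (2 + 2 * RR P.N) * 2 ^ B := by
          rw [hM]; exact Nat.mul_le_mul_right _ (le_two_pow _)
      _ = 2 ^ (2 + 2 * RR P.N + B) := by rw [← pow_add]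
  have h5 : ((adr P).length + 1) ^ 2 * KT + 1 ≤ 2 ^ (2 * (2 + 2 * RR P.N + B) + KT + 1) := by
    have h6 : ((adr P).length + 1) ^ 2 ≤ 2 ^ (2 * (2 + 2 * RR P.N + B)) := by
      calc ((adr P).length + 1) ^ 2 ≤ (2 ^ (2 + 2 * RR P.N + B)) ^ 2 := Nat.pow_le_pow_left h1 2
        _ = _ := by rw [← pow_mul, mul_comm]
    have h7 : ((adr P).length + 1) ^ 2 * KT ≤ 2 ^ (2 * (2 + 2 * RR P.N + B)) * 2 ^ KT :=
      Nat.mul_le_mul h6 (le_two_pow _)
    rw [← pow_add] at h7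
    have h8 : 1 ≤ 2 ^ (2 * (2 + 2 * RR P.N + B) + KT) := Nat.one_le_two_pow
    have h8' : 2 ^ (2 * (2 + 2 * RR P.N + B) + KT + 1) =
        2 ^ (2 * (2 + 2 * RR P.N + B) + KT) * 2 := pow_succ _ _
    omega
  have h9 : (2 * P.N + 2) ^ lam + 1 ≤ 2 ^ ((2 * P.N + 2) * lam + 1) := by
    have h10 : (2 * P.N + 2) ^ lam ≤ 2 ^ ((2 * P.N + 2) * lam) := by
      rw [pow_mul]
      exact Nat.pow_le_pow_left (le_two_pow _) lam
    have h11 : 1 ≤ 2 ^ ((2 * P.N + 2) * lam) := Nat.one_le_two_pow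
    have h11' : 2 ^ ((2 * P.N + 2) * lam + 1) = 2 ^ ((2 * P.N + 2) * lam) * 2 := pow_succ _ _
    omega
  calc (((adr P).length + 1) ^ 2 * KT + 1) ^ KL * ((2 * P.N + 2) ^ lam + 1) ^ KT
      ≤ (2 ^ (2 * (2 + 2 * RR P.N + B) + KT + 1)) ^ KL * (2 ^ ((2 * P.N + 2) * lam + 1)) ^ KT :=
        Nat.mul_le_mul (Nat.pow_le_pow_left h5 _) (Nat.pow_le_pow_left h9 _)
    _ = _ := by
        rw [← pow_mul, ← pow_mul, ← pow_add]
        congr 1
        ring

theorem final_num (P : Par) {S A : Type} [Fintype S] (h : Del P.N → List A)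
    (hne : ∀ e, h e ≠ []) (ρ C lam δ KL KT k e Q : ℕ) (hC : ∀ e, (h e).length ≤ C)
    (F : Set (List A)) (hF : F.Finite)
    (hpre : ∀ (W : List (Del P.N)) (a : ℕ), pre h W a ∈ F)
    (hKT : KT = F.ncard * Nat.card S * F.ncard) (hKL : KL = RR P.N + 1 + RR P.N * KT)
    (R : ∀ W ∈ LN P.N, Run S h ρ W)
    (hR : ∀ W hW W' hW', Crosses (LN P.N) (R W hW) (R W' hW'))
    (hk : Fintype.card S = k) (hPN : P.N = k + 2) (hQ : Q = 3 * 2 ^ (k + 1) - 1)
    (hPM : P.M = (2 ^ e) ^ (3 * 2 ^ (k + 1) - 1)) (hPS : ∀ c, P.S c = (2 ^ e) ^ eS k c)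
    (hlam : lam = 2 * (e * Q) + (k + 2) + 2)
    (hδ : δ = KL * (2 * (2 + 2 * RR P.N + e * Q) + KT + 1) +
      KT * ((2 * P.N + 2) * lam + 1) + 1 + ρ * lam)
    (hbig : ((k + 1) * (F.ncard * F.ncard * 2)) * (2 * δ + 2 * KL) +
      (6 * C + 1) + 6 * C * (KL * ρ * lam) + (2 * δ + 2 * KL + KL * ρ * lam + lam + 4) < 2 ^ e) :
    False := by
  classical
  set X := 2 ^ e with hX
  have hXpos : 0 < X := by positivity
  have hQ5 : 5 ≤ Q := by
    have : 2 ≤ 2 ^ (k + 1) := by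
      calc 2 = 2 ^ 1 := rfl
        _ ≤ 2 ^ (k + 1) := Nat.pow_le_pow_right (by norm_num) (by omega)
    omega
  have hlam2 : 2 ≤ lam := by omega
  have hdiv : ∀ t ≤ k, P.M / P.S t = X ^ (3 * 2 ^ t - 1) := fun t ht =>
    div_scale P k e hPM hPS t ht
  have hdiv0 : P.M / P.S 0 = X ^ 2 := by simpa using hdiv 0 (by omega)
  have hX1 : 2 * δ + 2 * KL + KL * ρ * lam + lam + 4 ≤ X := by omega
  have hX2 : 2 * X ≤ X ^ 2 := by
    calc 2 * X ≤ X * X := Nat.mul_le_mul_right X (by omega)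
      _ = X ^ 2 := (sq X).symm
  have hMX : X ^ 2 ≤ P.M := by
    rw [hPM, ← hQ]; exact Nat.pow_le_pow_right hXpos (by omega)
  have hM2 : P.M = 2 ^ (e * Q) := by rw [hPM, hX, ← pow_mul, hQ]
  -- exists_good
  have hnum : (((adr P).length + 1) ^ 2 * KT + 1) ^ KL * ((2 * P.N + 2) ^ lam + 1) ^ KT *
      2 ^ (P.M - (δ + 1)) + P.N * P.M ^ 2 * 2 ^ (P.M - lam) < 2 ^ P.M := by
    have h1 := codes_le P (e * Q) KT KL lam hM2
    have h2 : (((adr P).length + 1) ^ 2 * KT + 1) ^ KL * ((2 * P.N + 2) ^ lam + 1) ^ KT *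
        2 ^ (P.M - (δ + 1)) ≤ 2 ^ (P.M - 2) := by
      calc _ ≤ 2 ^ (KL * (2 * (2 + 2 * RR P.N + e * Q) + KT + 1) +
            KT * ((2 * P.N + 2) * lam + 1)) * 2 ^ (P.M - (δ + 1)) := Nat.mul_le_mul_right _ h1
        _ = 2 ^ (KL * (2 * (2 + 2 * RR P.N + e * Q) + KT + 1) +
            KT * ((2 * P.N + 2) * lam + 1) + (P.M - (δ + 1))) := by rw [← pow_add]
        _ ≤ 2 ^ (P.M - 2) := by
            apply Nat.pow_le_pow_right (by norm_num)
            omega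
    have h3 : P.N * P.M ^ 2 * 2 ^ (P.M - lam) ≤ 2 ^ (P.M - 2) := by
      have h4 : P.N * P.M ^ 2 ≤ 2 ^ (P.N + 2 * (e * Q)) := by
        rw [pow_add]
        apply Nat.mul_le_mul (le_two_pow _)
        rw [hM2, ← pow_mul, mul_comm]
      calc _ ≤ 2 ^ (P.N + 2 * (e * Q)) * 2 ^ (P.M - lam) := Nat.mul_le_mul_right _ h4
        _ = 2 ^ (P.N + 2 * (e * Q) + (P.M - lam)) := by rw [← pow_add]
        _ ≤ 2 ^ (P.M - 2) := by
            apply Nat.pow_le_pow_right (by norm_num)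
            omega
    have h5 : 2 ^ P.M = 4 * 2 ^ (P.M - 2) := by
      have : P.M = P.M - 2 + 2 := by omega
      conv_lhs => rw [this]
      rw [pow_add]; ring
    have h6 : 0 < 2 ^ (P.M - 2) := by positivity
    omega
  obtain ⟨b, hNR, hMM⟩ := exists_good P h hne ρ lam δ KL KT F hF hpre (le_of_eq hKT.symm)
    (le_of_eq hKL.symm) (fun b => R (WB P (ext P.M b)) (WB_mem P _))
    (fun b b' => hR _ _ _ _) (by omega) (by rw [hdiv0]; omega) hnum
  have hKLb : ∀ τ ≤ (R (WB P (ext P.M b)) (WB_mem P _)).n,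
      (longs h (WB P (ext P.M b)) lam ((R (WB P (ext P.M b)) (WB_mem P _)).lev τ)).length ≤ KL := by
    intro τ hτ
    have := count_long P h hne ρ (ext P.M b) (R (WB P (ext P.M b)) (WB_mem P _)) (hR _ _ _ _)
      F hF hpre lam (by omega) hNR τ hτ
    rw [hKL, hKT]
    exact this
  have hS : ∀ t ≤ k, P.S t = X ^ (Q - (3 * 2 ^ t - 1)) := by
    intro t ht
    rw [hPS]
    unfold eS
    rw [if_pos ht, hQ]
  have hpow : ∀ t ≤ k, 2 * (3 * 2 ^ t - 1) + 1 ≤ Q ∧ 2 ≤ 3 * 2 ^ t - 1 := by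
    intro t ht
    have h2 : (2:ℕ) ^ t ≤ 2 ^ k := Nat.pow_le_pow_right (by norm_num) ht
    have h3 : (2:ℕ) ^ (k + 1) = 2 * 2 ^ k := by ring
    have h4 : 0 < (2:ℕ) ^ t := by positivity
    omega
  refine timeline P h hne C ρ lam δ KL hC F hF hpre (ext P.M b) _ (hR _ _ _ _) hlam2 hNR hKLb
    hMM k (le_of_eq hk) hPN (fun t => X ^ (Q - (3 * 2 ^ t - 2))) (by omega)
    (by rw [hdiv0]; omega) ?_ ?_ ?_
  · -- hm0
    have e0 : P.S 0 = X ^ (Q - 2) := by simpa using hS 0 (by omega)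
    have e1 : X ^ (Q - (3 * 2 ^ 0 - 2)) = X * X ^ (Q - 2) := by
      rw [← pow_succ']
      congr 1
      omega
    have e2 : P.M = X ^ 2 * X ^ (Q - 2) := by
      rw [hPM, ← hQ, ← pow_add]
      congr 1
      omega
    show (2 * δ + 2 * KL) * P.S 0 + KL * ρ * lam + X ^ (Q - (3 * 2 ^ 0 - 2)) ≤ P.M
    rw [e0, e1, e2]
    set Y := X ^ (Q - 2) with hY
    have hYpos : 1 ≤ Y := Nat.one_le_pow _ _ hXpos
    have e3 : KL * ρ * lam ≤ KL * ρ * lam * Y := Nat.le_mul_of_pos_right _ hYpos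
    calc (2 * δ + 2 * KL) * Y + KL * ρ * lam + X * Y
        ≤ (2 * δ + 2 * KL) * Y + KL * ρ * lam * Y + X * Y :=
          Nat.add_le_add_right (Nat.add_le_add_left e3 _) _
      _ = (2 * δ + 2 * KL + KL * ρ * lam + X) * Y := by ring
      _ ≤ X ^ 2 * Y := Nat.mul_le_mul_right _ (by omega)
  · -- hm
    intro t ht
    obtain ⟨g1, g2⟩ := hpow t ht
    have ev : 3 * 2 ^ (t + 1) = 2 * (3 * 2 ^ t) := by ring
    have hpt := pos_three P t (by omega)
    rw [hdiv0, hdiv t ht] at hpt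
    set v := 3 * 2 ^ t - 1 with hv
    have ev2 : 3 * 2 ^ t = v + 1 := by omega
    have e1 : P.S t = X ^ (Q - v) := hS t ht
    set Y := X ^ (Q - v) with hY
    have e2 : X ^ (Q - (3 * 2 ^ t - 2)) = X * Y := by
      rw [hY, ← pow_succ']
      congr 1
      omega
    have e3 : X ^ v * X ^ (Q - (3 * 2 ^ (t + 1) - 2)) = Y := by
      rw [hY, ← pow_add]
      congr 1
      omega
    have e4 : X ^ 2 ≤ X ^ v := Nat.pow_le_pow_right hXpos g2
    have e5 : 1 ≤ X ^ v := Nat.one_le_pow _ _ hXpos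
    have e6 : pos P (2 * t + 3) - pos P (2 * t) ≤ 6 * X ^ v := by omega
    have e7 : C * (pos P (2 * t + 3) - pos P (2 * t)) ≤ 6 * C * X ^ v := by
      calc _ ≤ C * (6 * X ^ v) := Nat.mul_le_mul_left _ e6
        _ = _ := by ring
    have e8 : X ^ v ≤ Y := Nat.pow_le_pow_right hXpos (by omega)
    have e9 : (C * (pos P (2 * t + 3) - pos P (2 * t)) + 1) *
        X ^ (Q - (3 * 2 ^ (t + 1) - 2)) ≤ (6 * C + 1) * Y := by
      calc _ ≤ (6 * C * X ^ v + X ^ v) * X ^ (Q - (3 * 2 ^ (t + 1) - 2)) :=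
            Nat.mul_le_mul_right _ (Nat.add_le_add e7 e5)
        _ = (6 * C + 1) * (X ^ v * X ^ (Q - (3 * 2 ^ (t + 1) - 2))) := by ring
        _ = (6 * C + 1) * Y := by rw [e3]
    have e10 : C * (pos P (2 * t + 3) - pos P (2 * t)) * (KL * ρ * lam) ≤
        6 * C * (KL * ρ * lam) * Y := by
      calc _ ≤ (6 * C * Y) * (KL * ρ * lam) :=
            Nat.mul_le_mul_right _ (e7.trans (Nat.mul_le_mul_left _ e8))
        _ = _ := by ring
    have e11 : ((k + 1) * (F.ncard * F.ncard * 2)) * ((2 * δ + 2 * KL) * P.S t) =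
        ((k + 1) * (F.ncard * F.ncard * 2)) * (2 * δ + 2 * KL) * Y := by rw [e1]; ring
    have hYpos : 0 < Y := by positivity
    have e12 : (((k + 1) * (F.ncard * F.ncard * 2)) * (2 * δ + 2 * KL) + (6 * C + 1) +
        6 * C * (KL * ρ * lam)) * Y < X * Y :=
      Nat.mul_lt_mul_of_pos_right (by omega) hYpos
    show ((k + 1) * (F.ncard * F.ncard * 2)) * ((2 * δ + 2 * KL) * P.S t) +
      (C * (pos P (2 * t + 3) - pos P (2 * t)) + 1) * X ^ (Q - (3 * 2 ^ (t + 1) - 2)) +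
      C * (pos P (2 * t + 3) - pos P (2 * t)) * (KL * ρ * lam) < X ^ (Q - (3 * 2 ^ t - 2))
    rw [e11, e2]
    calc _ ≤ ((k + 1) * (F.ncard * F.ncard * 2)) * (2 * δ + 2 * KL) * Y + (6 * C + 1) * Y +
          6 * C * (KL * ρ * lam) * Y := Nat.add_le_add (Nat.add_le_add le_rfl e9) e10
      _ = (((k + 1) * (F.ncard * F.ncard * 2)) * (2 * δ + 2 * KL) + (6 * C + 1) +
        6 * C * (KL * ρ * lam)) * Y := by ring
      _ < X * Y := e12
  · show 0 < X ^ (Q - (3 * 2 ^ (k + 1) - 2))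
    positivity

theorem no_hardest_core {α₀ : Type} [Finite α₀] (G : ETOL α₀)
    (H : ∀ (α : Type) [Finite α] (L : Set (List α)), IsETOL L →
      ∃ h : α → List α₀, (([] : List α) ∉ L → L = {w | w.flatMap h ∈ G.lang}) ∧
        ([] ∈ L → L = {w | w.flatMap h ∈ G.lang ∪ {[]}})) : False := by
  classical
  have hfin := G.finν
  have : Fintype (α₀ ⊕ G.ν) := Fintype.ofFinite _
  set k := Fintype.card (α₀ ⊕ G.ν) with hk
  obtain ⟨h, hh1, -⟩ := H (Del (k + 2)) (LN (k + 2)) (LN_isETOL (k + 2) (by omega))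
  have hL := hh1 (LN_nil _)
  have hne := LN_h_ne (k + 2) G.lang h hL
  obtain ⟨ρ, R, hR⟩ := interface G h hne (LN (k + 2)) hL
  obtain ⟨F, hF, hpre⟩ := pre_fin h
  obtain ⟨C, hC⟩ : ∃ C, ∀ e, (h e).length ≤ C := by
    have : Fintype (Del (k + 2)) := Fintype.ofFinite _
    refine ⟨∑ e : Del (k + 2), (h e).length, fun e => ?_⟩
    exact Finset.single_le_sum (f := fun e => (h e).length) (fun _ _ => Nat.zero_le _)
      (Finset.mem_univ e)
  generalize hKT : F.ncard * Nat.card (α₀ ⊕ G.ν) * F.ncard = KT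
  generalize hKL : RR (k + 2) + 1 + RR (k + 2) * KT = KL
  generalize hQ : 3 * 2 ^ (k + 1) - 1 = Q
  -- linear functions of e
  let lamf : ℕ → ℕ := fun e => 2 * (e * Q) + (k + 2) + 2
  let δf : ℕ → ℕ := fun e => KL * (2 * (2 + 2 * RR (k + 2) + e * Q) + KT + 1) +
    KT * ((2 * (k + 2) + 2) * lamf e + 1) + 1 + ρ * lamf e
  let big : ℕ → ℕ := fun e => ((k + 1) * (F.ncard * F.ncard * 2)) * (2 * δf e + 2 * KL) +
    (6 * C + 1) + 6 * C * (KL * ρ * lamf e) + (2 * δf e + 2 * KL + KL * ρ * lamf e + lamf e + 4)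
  obtain ⟨e, he1, he⟩ : ∃ e, 1 ≤ e ∧ big e < 2 ^ e := by
    obtain ⟨a, b, hab⟩ : ∃ a b, ∀ e, big e = a * e + b := by
      refine ⟨(((k + 1) * (F.ncard * F.ncard * 2)) * (2 * (KL * (2 * Q) +
          KT * ((2 * (k + 2) + 2) * (2 * Q)) + ρ * (2 * Q))) + 6 * C * (KL * ρ * (2 * Q)) +
          (2 * (KL * (2 * Q) + KT * ((2 * (k + 2) + 2) * (2 * Q)) + ρ * (2 * Q)) +
            KL * ρ * (2 * Q) + 2 * Q)), big 0, fun e => ?_⟩
      simp only [big, δf, lamf]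
      ring
    obtain ⟨e, h1, h2⟩ := exists_big a b
    exact ⟨e, h1, by rw [hab]; exact h2⟩
  obtain ⟨⟨N, M, Sc, lab, a1, a2, a3, a4, a5, a6, a7⟩, hPN, hPM, hPS⟩ := exists_par k e
  dsimp only at hPN hPM hPS
  subst hPN
  exact final_num ⟨k + 2, M, Sc, lab, a1, a2, a3, a4, a5, a6, a7⟩ h hne ρ C (lamf e) (δf e) KL KT
    k e Q hC F hF hpre hKT.symm hKL.symm R hR hk.symm rfl hQ.symm hPM hPS rfl rfl he

theorem no_hardest : ¬ ∃ (α₀ : Type) (_ : Finite α₀) (L₀ : Set (List α₀)), IsHardest L₀ := by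
  rintro ⟨α₀, hfin, L₀, ⟨G, rfl⟩, H⟩
  exact no_hardest_core G H

end Pool.Agent.Helper450.ET
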